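import Mathlib

/-!
Abstract part: from block approximations with bounded running sums on a dense class to a
convergent expansion of every vector.
-/

namespace Pool.Agent.Lib.MP_459ac8_an

open Filter Topology Finset

variable {V : Type*} [AddCommGroup V] [Module ℂ V]

/-- `g` is approximated along the blocks `[a k, a (k+1))` with bounded coefficients and bounded
running sums -/
def Good (q : Seminorm ℂ V) (x : ℕ → V) (a : ℕ → ℕ) (g : V) : Prop :=
  ∃ (C : ℝ) (c : ℕ → ℕ → ℂ),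
    (∀ᶠ k in atTop, ∑ n ∈ Ico (a k) (a (k + 1)), ‖c k n‖ ≤ C) ∧
    (∀ᶠ k in atTop, ∀ m, m ≤ a (k + 1) → q (∑ n ∈ Ico (a k) m, c k n • x n) ≤ C) ∧
    Tendsto (fun k => q (g - ∑ n ∈ Ico (a k) (a (k + 1)), c k n • x n)) atTop (𝓝 0)

theorem Good.zero (q : Seminorm ℂ V) (x : ℕ → V) (a : ℕ → ℕ) : Good q x a 0 := by
  refine ⟨0, fun _ _ => 0, ?_, ?_, ?_⟩ <;> simp

theorem Good.add {q : Seminorm ℂ V} {x : ℕ → V} {a : ℕ → ℕ} {g h : V}
    (hg : Good q x a g) (hh : Good q x a h) : Good q x a (g + h) := by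
  obtain ⟨C, c, h1, h2, h3⟩ := hg
  obtain ⟨D, d, k1, k2, k3⟩ := hh
  refine ⟨C + D, fun k n => c k n + d k n, ?_, ?_, ?_⟩
  · filter_upwards [h1, k1] with k hk hk'
    calc ∑ n ∈ Ico (a k) (a (k + 1)), ‖c k n + d k n‖
        ≤ ∑ n ∈ Ico (a k) (a (k + 1)), (‖c k n‖ + ‖d k n‖) :=
          sum_le_sum fun n _ => norm_add_le _ _
      _ ≤ C + D := by rw [sum_add_distrib]; linarith
  · filter_upwards [h2, k2] with k hk hk' m hm
    simp only [add_smul, sum_add_distrib]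
    exact (map_add_le_add q _ _).trans (add_le_add (hk m hm) (hk' m hm))
  · have := h3.add k3
    rw [add_zero] at this
    refine squeeze_zero (fun k => apply_nonneg q _) (fun k => ?_) this
    simp only [add_smul, sum_add_distrib]
    rw [add_sub_add_comm]
    exact map_add_le_add q _ _

theorem Good.smul {q : Seminorm ℂ V} {x : ℕ → V} {a : ℕ → ℕ} {g : V} (s : ℂ)
    (hg : Good q x a g) : Good q x a (s • g) := by
  obtain ⟨C, c, h1, h2, h3⟩ := hg
  refine ⟨‖s‖ * C, fun k n => s * c k n, ?_, ?_, ?_⟩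
  · filter_upwards [h1] with k hk
    simp only [norm_mul, ← mul_sum]
    gcongr
  · filter_upwards [h2] with k hk m hm
    simp only [mul_smul, ← smul_sum, map_smul_eq_mul]
    gcongr
    exact hk m hm
  · have := h3.const_mul ‖s‖
    rw [mul_zero] at this
    refine this.congr fun k => ?_
    simp only [mul_smul, ← smul_sum, ← smul_sub, map_smul_eq_mul]

theorem Good.sum {q : Seminorm ℂ V} {x : ℕ → V} {a : ℕ → ℕ} {ι : Type*} (s : Finset ι)
    (g : ι → V) (hg : ∀ i ∈ s, Good q x a (g i)) : Good q x a (∑ i ∈ s, g i) := by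
  classical
  induction s using Finset.induction_on with
  | empty => simpa using Good.zero q x a
  | insert i s hi ih =>
    rw [sum_insert hi]
    exact (hg i (mem_insert_self _ _)).add (ih fun j hj => hg j (mem_insert_of_mem hj))

/-- closure under a contraction `S` acting on the system like multiplication by `z` on kernels -/
theorem Good.shift {q : Seminorm ℂ V} {x : ℕ → V} {a : ℕ → ℕ} {g e : V} (S : V →ₗ[ℂ] V)
    (hS : ∀ v, q (S v) ≤ q v) (u : ℕ → ℂ) (hu : ∀ n, ‖u n‖ ≤ 2)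
    (hx : ∀ n, S (x n) = u n • (x n - e))
    (he : Good q x a e) (hg : Good q x a g) : Good q x a (S g) := by
  obtain ⟨C, c, h1, h2, h3⟩ := hg
  obtain ⟨D, d, k1, k2, k3⟩ := he
  have key : ∀ k m, ∑ n ∈ Ico (a k) m, (c k n * u n) • x n
      = S (∑ n ∈ Ico (a k) m, c k n • x n) + (∑ n ∈ Ico (a k) m, c k n * u n) • e := by
    intro k m
    rw [map_sum, sum_smul, ← sum_add_distrib]
    refine sum_congr rfl fun n _ => ?_
    rw [map_smul, hx, mul_smul, mul_smul, ← smul_add, ← smul_add, sub_add_cancel]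
  have hb : ∀ k m, m ≤ a (k + 1) → ∑ n ∈ Ico (a k) (a (k + 1)), ‖c k n‖ ≤ C →
      ∑ n ∈ Ico (a k) m, ‖c k n * u n‖ ≤ 2 * C := by
    intro k m hm hk
    calc ∑ n ∈ Ico (a k) m, ‖c k n * u n‖
        ≤ ∑ n ∈ Ico (a k) m, 2 * ‖c k n‖ := by
          refine sum_le_sum fun n _ => ?_
          rw [norm_mul, mul_comm]
          gcongr
          exact hu n
      _ ≤ ∑ n ∈ Ico (a k) (a (k + 1)), 2 * ‖c k n‖ :=
          sum_le_sum_of_subset_of_nonneg (Ico_subset_Ico_right hm) fun _ _ _ => by positivity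
      _ ≤ 2 * C := by rw [← mul_sum]; linarith
  set s : ℕ → ℂ := fun k => ∑ n ∈ Ico (a k) (a (k + 1)), c k n * u n with hs
  have hsb : ∀ᶠ k in atTop, ‖s k‖ ≤ 2 * C := by
    filter_upwards [h1] with k hk
    exact (norm_sum_le _ _).trans (hb k _ le_rfl hk)
  refine ⟨C + 2 * C * q e + 2 * C + 2 * C * D, fun k n => c k n * u n - s k * d k n, ?_, ?_, ?_⟩
  · filter_upwards [h1, k1, hsb] with k hk hk' hsk
    have hC : 0 ≤ C := le_trans (sum_nonneg fun _ _ => norm_nonneg _) hk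
    have hD : 0 ≤ D := le_trans (sum_nonneg fun _ _ => norm_nonneg _) hk'
    have hq := apply_nonneg q e
    calc ∑ n ∈ Ico (a k) (a (k + 1)), ‖c k n * u n - s k * d k n‖
        ≤ ∑ n ∈ Ico (a k) (a (k + 1)), (‖c k n * u n‖ + ‖s k‖ * ‖d k n‖) :=
          sum_le_sum fun n _ => (norm_sub_le _ _).trans (by rw [norm_mul (s k)])
      _ ≤ 2 * C + 2 * C * D := by
          rw [sum_add_distrib, ← mul_sum]
          refine add_le_add (hb k _ le_rfl hk) ?_
          exact mul_le_mul hsk hk' (sum_nonneg fun _ _ => norm_nonneg _) (by positivity)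
      _ ≤ _ := by nlinarith [mul_nonneg hC hq]
  · filter_upwards [h1, h2, k2, hsb] with k hk1 hk hk' hsk m hm
    have hC : 0 ≤ C := le_trans (sum_nonneg fun _ _ => norm_nonneg _) hk1
    simp only [sub_smul, sum_sub_distrib, key, mul_smul (s k), ← smul_sum]
    have e1 : q (S (∑ n ∈ Ico (a k) m, c k n • x n)) ≤ C := (hS _).trans (hk m hm)
    have e2 : q ((∑ n ∈ Ico (a k) m, c k n * u n) • e) ≤ 2 * C * q e := by
      rw [map_smul_eq_mul]
      exact mul_le_mul_of_nonneg_right ((norm_sum_le _ _).trans (hb k m hm hk1)) (apply_nonneg q e)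
    have e3 : q (s k • ∑ n ∈ Ico (a k) m, d k n • x n) ≤ 2 * C * D := by
      rw [map_smul_eq_mul]
      exact mul_le_mul hsk (hk' m hm) (apply_nonneg q _) (by positivity)
    have e4 := map_sub_le_add q (S (∑ n ∈ Ico (a k) m, c k n • x n)
      + (∑ n ∈ Ico (a k) m, c k n * u n) • e) (s k • ∑ n ∈ Ico (a k) m, d k n • x n)
    have e5 := map_add_le_add q (S (∑ n ∈ Ico (a k) m, c k n • x n))
      ((∑ n ∈ Ico (a k) m, c k n * u n) • e)
    linarith
  · have t := h3.add (k3.const_mul (2 * C))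
    rw [mul_zero, add_zero] at t
    refine squeeze_zero' (Eventually.of_forall fun k => apply_nonneg q _) ?_ t
    filter_upwards [hsb] with k hsk
    simp only [sub_smul, sum_sub_distrib, key, mul_smul (s k), ← smul_sum]
    have : S g - (S (∑ n ∈ Ico (a k) (a (k + 1)), c k n • x n) + s k • e
        - s k • ∑ n ∈ Ico (a k) (a (k + 1)), d k n • x n)
        = S (g - ∑ n ∈ Ico (a k) (a (k + 1)), c k n • x n)
          - s k • (e - ∑ n ∈ Ico (a k) (a (k + 1)), d k n • x n) := by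
      rw [map_sub, smul_sub]; abel
    rw [this]
    refine (map_sub_le_add q _ _).trans (add_le_add (hS _) ?_)
    rw [map_smul_eq_mul]
    exact mul_le_mul_of_nonneg_right hsk (apply_nonneg q _)

/-- one stretch of an expansion -/
def Piece (q : Seminorm ℂ V) (x : ℕ → V) (g : V) (ε D : ℝ) (N₀ N₁ : ℕ) (c : ℕ → ℂ) : Prop :=
  N₀ ≤ N₁ ∧ q (g - ∑ n ∈ Ico N₀ N₁, c n • x n) ≤ ε ∧
    ∀ m, m ≤ N₁ → q (∑ n ∈ Ico N₀ m, c n • x n) ≤ D

theorem Piece.concat {q : Seminorm ℂ V} {x : ℕ → V} {g h : V} {ε η D E F : ℝ} {N₀ N₁ N₂ : ℕ}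
    {c d : ℕ → ℂ} (h1 : Piece q x g ε D N₀ N₁ c) (h2 : Piece q x h η E N₁ N₂ d)
    (hD : D ≤ F) (hE : q g + ε + E ≤ F) :
    Piece q x (g + h) (ε + η) F N₀ N₂ (fun n => if n < N₁ then c n else d n) := by
  obtain ⟨a1, a2, a3⟩ := h1
  obtain ⟨b1, b2, b3⟩ := h2
  have low : ∀ m, m ≤ N₁ → ∑ n ∈ Ico N₀ m, (if n < N₁ then c n else d n) • x n
      = ∑ n ∈ Ico N₀ m, c n • x n := by
    intro m hm
    refine sum_congr rfl fun n hn => ?_
    rw [if_pos (lt_of_lt_of_le (mem_Ico.1 hn).2 hm)]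
  have high : ∀ m, N₁ ≤ m → ∑ n ∈ Ico N₀ m, (if n < N₁ then c n else d n) • x n
      = ∑ n ∈ Ico N₀ N₁, c n • x n + ∑ n ∈ Ico N₁ m, d n • x n := by
    intro m hm
    rw [← sum_Ico_consecutive _ a1 hm, low N₁ le_rfl]
    congr 1
    refine sum_congr rfl fun n hn => ?_
    rw [if_neg (not_lt.2 (mem_Ico.1 hn).1)]
  refine ⟨a1.trans b1, ?_, fun m hm => ?_⟩
  · rw [high N₂ b1, add_sub_add_comm]
    exact (map_add_le_add q _ _).trans (add_le_add a2 b2)
  · rcases le_total m N₁ with h | h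
    · rw [low m h]; exact (a3 m h).trans hD
    · rw [high m h]
      have e1 := map_add_le_add q (∑ n ∈ Ico N₀ N₁, c n • x n) (∑ n ∈ Ico N₁ m, d n • x n)
      have e2 := map_sub_le_add q g (g - ∑ n ∈ Ico N₀ N₁, c n • x n)
      rw [sub_sub_cancel] at e2
      have e3 := b3 m hm
      linarith

theorem Piece.nil (q : Seminorm ℂ V) (x : ℕ → V) {N₀ N₁ : ℕ} (h : N₀ ≤ N₁) :
    Piece q x 0 0 0 N₀ N₁ (fun _ => 0) := by
  refine ⟨h, ?_, ?_⟩ <;> simp

theorem Piece.mono {q : Seminorm ℂ V} {x : ℕ → V} {g : V} {ε ε' D D' : ℝ} {N₀ N₁ : ℕ}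
    {c : ℕ → ℂ} (h : Piece q x g ε D N₀ N₁ c) (h1 : ε ≤ ε') (h2 : D ≤ D') :
    Piece q x g ε' D' N₀ N₁ c :=
  ⟨h.1, h.2.1.trans h1, fun m hm => (h.2.2 m hm).trans h2⟩

theorem Good.piece {q : Seminorm ℂ V} {x : ℕ → V} {a : ℕ → ℕ} (ha : Monotone a)
    (ha' : Tendsto a atTop atTop) {g : V} (hg : Good q x a g) :
    ∃ C : ℝ, 0 ≤ C ∧ ∀ s : ℂ, ∀ ε > 0, ∀ N₀, ∃ N₁ c, N₀ < N₁ ∧
      Piece q x (s • g) ε (‖s‖ * C) N₀ N₁ c := by
  obtain ⟨C, c, -, h2, h3⟩ := hg
  have hC : 0 ≤ C := by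
    obtain ⟨k, hk⟩ := h2.exists
    exact (apply_nonneg q _).trans (hk 0 (Nat.zero_le _))
  refine ⟨C, hC, fun s ε hε N₀ => ?_⟩
  have t := h3.const_mul ‖s‖
  rw [mul_zero] at t
  obtain ⟨k, hk2, hk3, hk4⟩ :=
    (h2.and ((t.eventually (ge_mem_nhds hε)).and (ha'.eventually_gt_atTop N₀))).exists
  have p1 : Piece q x (s • g) ε (‖s‖ * C) (a k) (a (k + 1)) (fun n => s * c k n) := by
    refine ⟨ha (Nat.le_succ k), ?_, fun m hm => ?_⟩
    · simpa only [mul_smul, ← smul_sum, ← smul_sub, map_smul_eq_mul] using hk3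
    · simp only [mul_smul, ← smul_sum, map_smul_eq_mul]
      exact mul_le_mul_of_nonneg_left (hk2 m hm) (norm_nonneg _)
  have p2 := (Piece.nil q x hk4.le).concat p1 (F := ‖s‖ * C) (by positivity) (by simp)
  rw [zero_add, zero_add] at p2
  exact ⟨_, _, lt_of_lt_of_le hk4 (ha (Nat.le_succ k)), p2⟩

theorem Good.piece' {q : Seminorm ℂ V} {x : ℕ → V} {a : ℕ → ℕ} (ha : Monotone a)
    (ha' : Tendsto a atTop atTop) {g : V} (hg : Good q x a g) {ε : ℝ} (hε : 0 < ε) (N₀ : ℕ) :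
    ∃ N₁ c, N₀ < N₁ ∧ Piece q x g ε (q g + 2 * ε) N₀ N₁ c := by
  obtain ⟨C, hC, h⟩ := hg.piece ha ha'
  obtain ⟨L, hL⟩ := exists_nat_gt (C / ε)
  set s : ℂ := ((L : ℂ) + 1)⁻¹ with hs
  have hL1 : (L : ℂ) + 1 ≠ 0 := by exact_mod_cast Nat.succ_ne_zero L
  have hsn : ‖s‖ = ((L : ℝ) + 1)⁻¹ := by
    rw [hs, norm_inv]
    congr 1
    exact_mod_cast Complex.norm_natCast (L + 1)
  have hsC : ‖s‖ * C ≤ ε := by
    rw [hsn, inv_mul_le_iff₀ (by positivity)]
    rw [div_lt_iff₀ hε] at hL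
    nlinarith
  have step : ∀ l : ℕ, ∀ η > 0, ∀ M₀, ∃ N₁ c, M₀ < N₁ ∧
      Piece q x (((l : ℂ) + 1) • (s • g)) η (((l : ℝ) + 1) * q (s • g) + η + ε) M₀ N₁ c := by
    intro l
    induction l with
    | zero =>
      intro η hη M₀
      obtain ⟨N₁, c, h1, h2⟩ := h s η hη M₀
      refine ⟨N₁, c, h1, ?_⟩
      simp only [Nat.cast_zero, zero_add, one_smul, one_mul]
      exact h2.mono le_rfl (by linarith [apply_nonneg q (s • g)])
    | succ l ih =>
      intro η hη M₀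
      obtain ⟨N₁, c, h1, h2⟩ := ih (η / 2) (by positivity) M₀
      obtain ⟨N₂, d, h3, h4⟩ := h s (η / 2) (by positivity) N₁
      have hq := apply_nonneg q (s • g)
      have hn : ‖(l : ℂ) + 1‖ = (l : ℝ) + 1 := by exact_mod_cast Complex.norm_natCast (l + 1)
      have p := h2.concat h4 (F := (((l + 1 : ℕ) : ℝ) + 1) * q (s • g) + η + ε)
        (by push_cast; nlinarith) (by rw [map_smul_eq_mul q ((l : ℂ) + 1), hn]; push_cast; nlinarith)
      refine ⟨N₂, fun n => if n < N₁ then c n else d n, h1.trans h3, ?_⟩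
      convert p using 1
      · push_cast
        rw [add_smul ((l : ℂ) + 1), one_smul]
      · ring
  obtain ⟨N₁, c, h1, h2⟩ := step L ε hε N₀
  refine ⟨N₁, c, h1, ?_⟩
  have e1 : ((L : ℂ) + 1) • (s • g) = g := by
    rw [smul_smul, hs, mul_inv_cancel₀ hL1, one_smul]
  have e2 : ((L : ℝ) + 1) * q (s • g) = q g := by
    rw [map_smul_eq_mul, hsn, ← mul_assoc, mul_inv_cancel₀ (by positivity), one_mul]
  rw [e1, e2] at h2
  exact h2.mono le_rfl (by linarith)

theorem exists_expansion {q : Seminorm ℂ V} {x : ℕ → V} {a : ℕ → ℕ} (ha : Monotone a)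
    (ha' : Tendsto a atTop atTop)
    (hd : ∀ f : V, ∀ ε > 0, ∃ g, Good q x a g ∧ q (f - g) ≤ ε) (f : V) :
    ∃ c : ℕ → ℂ, Tendsto (fun N => q (f - ∑ n ∈ range N, c n • x n)) atTop (𝓝 0) := by
  have all : ∀ (h : V) (j N₀ : ℕ), ∃ N₁ c, N₀ < N₁ ∧
      Piece q x h (2 * (1 / ((j : ℝ) + 1))) (q h + 3 * (1 / ((j : ℝ) + 1))) N₀ N₁ c := by
    intro h j N₀
    have hε : (0 : ℝ) < 1 / ((j : ℝ) + 1) := by positivity
    obtain ⟨g, hg, hq⟩ := hd h _ hε
    obtain ⟨N₁, c, h1, h2, h3, h4⟩ := hg.piece' ha ha' hε N₀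
    refine ⟨N₁, c, h1, h2, ?_, fun m hm => ?_⟩
    · have := map_add_le_add q (h - g) (g - ∑ n ∈ Ico N₀ N₁, c n • x n)
      rw [sub_add_sub_cancel] at this
      linarith
    · have := map_sub_le_add q h (h - g)
      rw [sub_sub_cancel] at this
      linarith [h4 m hm]
  choose nx cx hlt hp using all
  let st : ℕ → ℕ × (ℕ → ℂ) := fun j => Nat.rec (0, fun _ => 0)
    (fun i s => (nx (f - ∑ n ∈ range s.1, s.2 n • x n) i s.1,
      fun n => if n < s.1 then s.2 n else cx (f - ∑ n ∈ range s.1, s.2 n • x n) i s.1 n)) j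
  set N : ℕ → ℕ := fun j => (st j).1 with hN
  set cc : ℕ → ℕ → ℂ := fun j => (st j).2 with hcc
  set F : ℕ → V := fun j => f - ∑ n ∈ range (N j), cc j n • x n with hF
  have hNs : ∀ j, N (j + 1) = nx (F j) j (N j) := fun j => rfl
  have hcs : ∀ j n, cc (j + 1) n = if n < N j then cc j n else cx (F j) j (N j) n :=
    fun j n => rfl
  have hsm : StrictMono N := strictMono_nat_of_lt_succ fun j => by rw [hNs]; exact hlt _ _ _
  have stab : ∀ i j, i ≤ j → ∀ n, n < N i → cc j n = cc i n := by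
    intro i j hij n hn
    induction j, hij using Nat.le_induction with
    | base => rfl
    | succ j hij ih => rw [hcs, if_pos (lt_of_lt_of_le hn (hsm.monotone hij)), ih]
  have glob : ∀ j n, n < N j → cc (n + 1) n = cc j n := by
    intro j n hn
    have h1 : n < N (n + 1) := lt_of_lt_of_le (Nat.lt_succ_self n) (hsm.le_apply)
    rcases le_total j (n + 1) with h | h
    · exact stab j (n + 1) h n hn
    · exact (stab (n + 1) j h n h1).symm
  have split : ∀ j m, N j ≤ m → m ≤ N (j + 1) → f - ∑ n ∈ range m, cc (n + 1) n • x n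
      = F j - ∑ n ∈ Ico (N j) m, cx (F j) j (N j) n • x n := by
    intro j m h1 h2
    rw [← sum_range_add_sum_Ico _ h1, hF]
    simp only
    rw [sub_sub]
    congr 2
    · exact sum_congr rfl fun n hn => by rw [glob j n (mem_range.1 hn)]
    · refine sum_congr rfl fun n hn => ?_
      rw [glob (j + 1) n (lt_of_lt_of_le (mem_Ico.1 hn).2 h2), hcs,
        if_neg (not_lt.2 (mem_Ico.1 hn).1)]
  have hFs : ∀ j, q (F (j + 1)) ≤ 2 * (1 / ((j : ℝ) + 1)) := by
    intro j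
    have h1 := (hp (F j) j (N j)).2.1
    rw [← hNs, ← split j (N (j + 1)) (hsm.monotone (Nat.le_succ j)) le_rfl] at h1
    convert h1 using 2
    simp only [hF]
    congr 1
    exact sum_congr rfl fun n hn => by rw [glob (j + 1) n (mem_range.1 hn)]
  refine ⟨fun n => cc (n + 1) n, ?_⟩
  rw [Metric.tendsto_atTop]
  intro ε hε
  obtain ⟨J, hJ⟩ := exists_nat_gt (7 / ε)
  refine ⟨N (J + 1), fun m hm => ?_⟩
  have ex : ∃ j, m < N (j + 1) := ⟨m, lt_of_lt_of_le (Nat.lt_succ_self m) hsm.le_apply⟩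
  classical
  set j := Nat.find ex with hj
  have hj1 : m < N (j + 1) := Nat.find_spec ex
  have hJj : J + 1 ≤ j := by
    by_contra hc
    have hle : j + 1 ≤ J + 1 := by omega
    have : N (j + 1) ≤ N (J + 1) := hsm.monotone hle
    omega
  obtain ⟨i, hi⟩ : ∃ i, j = i + 1 := ⟨j - 1, by omega⟩
  have hj0 : N j ≤ m := by
    have := Nat.find_min ex (m := i) (by omega)
    rw [hi]; omega
  rw [Real.dist_eq, sub_zero, abs_of_nonneg (apply_nonneg q _), split j m hj0 hj1.le]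
  have e1 := map_sub_le_add q (F j) (∑ n ∈ Ico (N j) m, cx (F j) j (N j) n • x n)
  have e2 := (hp (F j) j (N j)).2.2 m (by rw [← hNs]; exact hj1.le)
  have e3 := hFs i
  rw [← hi] at e3
  have hJi : (J : ℝ) ≤ i := by exact_mod_cast (by omega : J ≤ i)
  have hij : (i : ℝ) ≤ j := by exact_mod_cast (by omega : i ≤ j)
  have hJ0 : (0 : ℝ) ≤ J := Nat.cast_nonneg J
  have e4 : 1 / ((i : ℝ) + 1) ≤ 1 / ((J : ℝ) + 1) := by gcongr
  have e5 : 1 / ((j : ℝ) + 1) ≤ 1 / ((J : ℝ) + 1) := by gcongr; linarith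
  have e6 : 7 * (1 / ((J : ℝ) + 1)) < ε := by
    rw [div_lt_iff₀ hε] at hJ
    rw [mul_one_div, div_lt_iff₀ (by positivity)]
    nlinarith
  linarith

end Pool.Agent.Lib.MP_459ac8_an
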