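import Pool.Agent.Lib.MP_459ac8_an.Logs

/-!
A chain of points of the disc with small hyperbolic steps: the kernel sums telescope to
logarithms up to a small error.
-/

namespace Pool.Agent.Lib.MP_459ac8_an

open scoped ENNReal Real Topology NNReal
open MeasureTheory Metric Complex Filter Finset

/-- the error of the telescoping -/
noncomputable def err (w : ℕ → ℂ) (a m : ℕ) (z : ℂ) : ℂ :=
  ∑ ν ∈ Ico a m, (w (ν + 1) - w ν) / w ν * (1 - w ν * z)⁻¹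
    - ∑ ν ∈ Ico a m, (w (ν + 1) - w ν) / w ν
    + (log (1 - w m * z) - log (1 - w a * z))

theorem step_err {u v z : ℂ} (hu : ‖u‖ < 1) (hu0 : u ≠ 0) (hz : z ∈ ball (0 : ℂ) 1)
    (h : ‖v - u‖ ≤ 1 / 2 * (1 - ‖u‖)) :
    ‖(v - u) / u * (1 - u * z)⁻¹ - (v - u) / u + (log (1 - v * z) - log (1 - u * z))‖
      ≤ ‖v - u‖ ^ 2 * (1 / ‖1 - u * z‖ ^ 2) := by
  have hne := one_sub_ne hu hz
  have hn : 0 < ‖1 - u * z‖ := norm_pos_iff.2 hne
  have hl := one_sub_norm_le (w := u) hz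
  set t : ℂ := -((v - u) * z) / (1 - u * z) with ht
  have htn : ‖t‖ ≤ ‖v - u‖ / ‖1 - u * z‖ := by
    rw [ht, norm_div, norm_neg, norm_mul]
    gcongr
    exact mul_le_of_le_one_right (norm_nonneg _) (mem_ball_zero_iff.1 hz).le
  have ht2 : ‖t‖ ≤ 1 / 2 := by
    refine htn.trans ?_
    rw [div_le_iff₀ hn]
    linarith
  have e1 : 1 - v * z = (1 - u * z) * (1 + t) := by
    rw [ht, mul_add, mul_div_cancel₀ _ hne]; ring
  have e2 : (v - u) / u * (1 - u * z)⁻¹ - (v - u) / u = -t := by rw [ht]; field_simp; ring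
  rw [e1, log_step (re_one_sub_pos (norm_mul_lt_one hu hz)) (by linarith), e2,
    add_sub_cancel_left, neg_add_eq_sub]
  refine (Complex.norm_log_one_add_sub_self_le (by linarith)).trans ?_
  have h3 : (1 - ‖t‖)⁻¹ ≤ 2 := by
    rw [inv_le_comm₀ (by linarith) (by norm_num)]
    linarith
  have h4 : ‖t‖ ^ 2 ≤ (‖v - u‖ / ‖1 - u * z‖) ^ 2 := by gcongr
  rw [div_pow] at h4
  have h5 : 0 ≤ ‖t‖ ^ 2 := by positivity
  rw [mul_one_div]
  nlinarith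

theorem err_le {w : ℕ → ℂ} {a b m : ℕ} (ham : a ≤ m) (hmb : m ≤ b)
    (h1 : ∀ ν, ‖w ν‖ < 1) (h0 : ∀ ν, w ν ≠ 0)
    (h2 : ∀ ν ∈ Ico a b, ‖w (ν + 1) - w ν‖ ≤ 1 / 2 * (1 - ‖w ν‖)) {z : ℂ}
    (hz : z ∈ ball (0 : ℂ) 1) :
    ‖err w a m z‖ ≤ ∑ ν ∈ Ico a b, ‖w (ν + 1) - w ν‖ ^ 2 * (1 / ‖1 - w ν * z‖ ^ 2) := by
  have := sum_Ico_sub (fun ν => log (1 - w ν * z)) ham
  rw [err, ← this, ← sum_sub_distrib, ← sum_add_distrib]
  refine (norm_sum_le _ _).trans ?_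
  refine (sum_le_sum fun ν hν => step_err (h1 ν) (h0 ν) hz
    (h2 ν (Ico_subset_Ico_right hmb hν))).trans ?_
  exact sum_le_sum_of_subset_of_nonneg (Ico_subset_Ico_right hmb) fun _ _ _ => by positivity

theorem diffOn_kernel {w : ℂ} (hw : ‖w‖ < 1) :
    DifferentiableOn ℂ (fun z => (1 - w * z)⁻¹) (ball 0 1) :=
  DifferentiableOn.inv (by fun_prop) fun _ hz => one_sub_ne hw hz

theorem diffOn_err {w : ℕ → ℂ} (h1 : ∀ ν, ‖w ν‖ < 1) (a m : ℕ) :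
    DifferentiableOn ℂ (err w a m) (ball 0 1) := by
  unfold err
  refine DifferentiableOn.add (DifferentiableOn.sub ?_ (differentiableOn_const _))
    ((diffOn_log (h1 m)).sub (diffOn_log (h1 a)))
  exact DifferentiableOn.fun_sum fun ν _ => (diffOn_kernel (h1 ν)).const_mul _

theorem hardyNorm_err {p : ℝ} (hp : 1 ≤ p) {w : ℕ → ℂ} {a b m : ℕ} (ham : a ≤ m) (hmb : m ≤ b)
    (h1 : ∀ ν, ‖w ν‖ < 1) (h0 : ∀ ν, w ν ≠ 0) {δ B T : ℝ} (hδ0 : 0 ≤ δ) (hδ : δ ≤ 1 / 2)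
    (h2 : ∀ ν ∈ Ico a b, ‖w (ν + 1) - w ν‖ ≤ δ * (1 - ‖w ν‖))
    (hB : ∑ ν ∈ Ico a b, ‖w (ν + 1) - w ν‖ ≤ B)
    (hT : ∀ z ∈ ball (0 : ℂ) 1, ∑ ν ∈ Ico a b, ‖w (ν + 1) - w ν‖ / ‖1 - w ν * z‖ ≤ T) :
    hardyNorm p (err w a m) ≤ ENNReal.ofReal (((δ * T) ^ (p - 1) * (δ * B)) ^ (1 / p)) := by
  have hp0 : 0 < p := by linarith
  have hc := (diffOn_err h1 a m).continuousOn
  have h2' : ∀ ν ∈ Ico a b, ‖w (ν + 1) - w ν‖ ≤ 1 / 2 * (1 - ‖w ν‖) := fun ν hν =>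
    (h2 ν hν).trans (mul_le_mul_of_nonneg_right hδ (by linarith [h1 ν]))
  have hT0 : 0 ≤ T := le_trans (sum_nonneg fun _ _ => by positivity) (hT 0 (by simp))
  have hsup : ∀ z ∈ ball (0 : ℂ) 1,
      ∑ ν ∈ Ico a b, ‖w (ν + 1) - w ν‖ ^ 2 * (1 / ‖1 - w ν * z‖ ^ 2) ≤ δ * T := by
    intro z hz
    refine le_trans ?_ (mul_le_mul_of_nonneg_left (hT z hz) hδ0)
    rw [mul_sum]
    refine sum_le_sum fun ν hν => ?_
    have hn : 0 < ‖1 - w ν * z‖ := norm_pos_iff.2 (one_sub_ne (h1 ν) hz)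
    have h3 : ‖w (ν + 1) - w ν‖ / ‖1 - w ν * z‖ ≤ δ := by
      rw [div_le_iff₀ hn]
      exact (h2 ν hν).trans (mul_le_mul_of_nonneg_left (one_sub_norm_le hz) hδ0)
    rw [mul_one_div, ← div_pow, sq]
    exact mul_le_mul_of_nonneg_right h3 (by positivity)
  refine hardyNorm_le_of_mean hp0 hc fun r hr => ?_
  have hr1 := abs_lt_one_of_mem hr
  have i1 : ∀ ν ∈ Ico a b, CircleIntegrable
      (fun z => ‖w (ν + 1) - w ν‖ ^ 2 • (1 / ‖1 - w ν * z‖ ^ 2)) 0 r := fun ν _ =>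
    (circInt (contOn_inv_sq (h1 ν)) hr1).const_smul
  have i2 : CircleIntegrable
      (fun z => ∑ ν ∈ Ico a b, ‖w (ν + 1) - w ν‖ ^ 2 • (1 / ‖1 - w ν * z‖ ^ 2)) 0 r :=
    circInt (f := fun z => ∑ ν ∈ Ico a b, ‖w (ν + 1) - w ν‖ ^ 2 • (1 / ‖1 - w ν * z‖ ^ 2))
      (continuousOn_finsetSum _ fun ν _ =>
        (contOn_inv_sq (h1 ν)).const_smul (‖w (ν + 1) - w ν‖ ^ 2)) hr1
  have i3 : CircleIntegrable (fun z => (δ * T) ^ (p - 1) •
      ∑ ν ∈ Ico a b, ‖w (ν + 1) - w ν‖ ^ 2 • (1 / ‖1 - w ν * z‖ ^ 2)) 0 r := i2.const_smul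
  refine (Real.circleAverage_mono (circInt (contOn_pow hc hp0.le) hr1) i3 fun z hz => ?_).trans ?_
  · have hz' := sphere_sub_ball hr1 hz
    have e1 := err_le ham hmb h1 h0 h2' hz'
    have e2 := e1.trans (hsup z hz')
    simp only [smul_eq_mul]
    calc ‖err w a m z‖ ^ p = ‖err w a m z‖ ^ (p - 1) * ‖err w a m z‖ := by
          rw [← Real.rpow_add_one' (norm_nonneg _) (by linarith), sub_add_cancel]
      _ ≤ _ := mul_le_mul (Real.rpow_le_rpow (norm_nonneg _) e2 (by linarith)) e1 (norm_nonneg _)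
          (by positivity)
  · rw [Real.circleAverage_fun_smul, Real.circleAverage_fun_sum i1, smul_eq_mul]
    gcongr
    refine le_trans ?_ (mul_le_mul_of_nonneg_left hB hδ0)
    rw [mul_sum]
    refine sum_le_sum fun ν hν => ?_
    rw [Real.circleAverage_fun_smul, smul_eq_mul]
    have hw : 0 < 1 - ‖w ν‖ := by linarith [h1 ν]
    refine (mul_le_mul_of_nonneg_left (avg_inv_sq (h1 ν) hr) (by positivity)).trans ?_
    rw [mul_one_div, div_le_iff₀ hw, sq]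
    nlinarith [h2 ν hν, norm_nonneg (w (ν + 1) - w ν)]

end Pool.Agent.Lib.MP_459ac8_an
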