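import Mathlib

namespace Pool.Agent.Lib.MP_459ac8_an

open scoped ENNReal Real Topology

/-- The `H^p` norm of a function on the unit disc, with values in `[0, ∞]`: the supremum over
`0 < r < 1` of the `L^p` means on the circle of radius `r`. -/
noncomputable def hardyNorm (p : ℝ) (f : ℂ → ℂ) : ℝ≥0∞ :=
  ⨆ r ∈ Set.Ioo (0 : ℝ) 1,
    ((ENNReal.ofReal (2 * π))⁻¹ *
      ∫⁻ θ in Set.Ioc (0 : ℝ) (2 * π), ‖f (r * Complex.exp (θ * Complex.I))‖ₑ ^ p) ^ (1 / p)

/-- The upper density of a set of points of the disc, with values in `[0, ∞]`. -/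
noncomputable def upperDensity (S : Set ℂ) : ℝ≥0∞ :=
  Filter.limsup
    (fun r : ℝ => ENNReal.ofReal (1 - r) * ((S ∩ Metric.ball (0 : ℂ) r).encard : ℝ≥0∞))
    (𝓝[<] 1)

end Pool.Agent.Lib.MP_459ac8_an
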