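import Pool.Agent.Lib.MP_459ac8_an.Mono

/-!
Polynomials are dense in the Hardy space for `1 < p < ∞`.
-/

namespace Pool.Agent.Lib.MP_459ac8_an

open scoped ENNReal Real Topology NNReal
open MeasureTheory Metric Set Complex Filter

/-- the convexity defect -/
noncomputable def defect (p : ℝ) (a b : ℂ) : ℝ :=
  (‖a‖ ^ p + ‖b‖ ^ p) / 2 - ‖(a + b) / 2‖ ^ p

theorem defect_pos {p : ℝ} (hp : 1 < p) {a b : ℂ} (hab : a ≠ b) : 0 < defect p a b := by
  have hp0 : 0 < p := by linarith
  unfold defect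
  rw [sub_pos]
  by_cases h : ‖a‖ = ‖b‖
  · have h1 := (norm_midpoint_lt_iff h).2 hab
    have h2 : (1 / 2 : ℝ) • (a + b) = (a + b) / 2 := by
      rw [Complex.real_smul]; push_cast; ring
    rw [h2] at h1
    have := Real.rpow_lt_rpow (norm_nonneg _) h1 hp0
    rw [← h]; linarith
  · have h1 : ‖(a + b) / 2‖ ≤ (1 / 2 : ℝ) • ‖a‖ + (1 / 2 : ℝ) • ‖b‖ := by
      rw [norm_div, Complex.norm_two, smul_eq_mul, smul_eq_mul]
      linarith [norm_add_le a b]
    have h2 := (strictConvexOn_rpow hp).2 (mem_Ici.2 (norm_nonneg a)) (mem_Ici.2 (norm_nonneg b)) h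
      (show (0 : ℝ) < 1 / 2 by norm_num) (show (0 : ℝ) < 1 / 2 by norm_num) (by norm_num)
    have h3 := Real.rpow_le_rpow (norm_nonneg _) h1 hp0.le
    simp only [smul_eq_mul] at h2 h3
    linarith

theorem defect_nonneg {p : ℝ} (hp : 1 < p) (a b : ℂ) : 0 ≤ defect p a b := by
  by_cases h : a = b
  · subst h
    simp [defect]
  · exact (defect_pos hp h).le

theorem defect_mul (p : ℝ) (t a b : ℂ) : defect p (t * a) (t * b) = ‖t‖ ^ p * defect p a b := by
  unfold defect
  rw [← mul_add, mul_div_assoc, norm_mul, norm_mul, norm_mul,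
    Real.mul_rpow (norm_nonneg _) (norm_nonneg _), Real.mul_rpow (norm_nonneg _) (norm_nonneg _),
    Real.mul_rpow (norm_nonneg _) (norm_nonneg _)]
  ring

theorem uniform_convexity {p : ℝ} (hp : 1 < p) {η : ℝ} (hη : 0 < η) :
    ∃ C : ℝ, 0 ≤ C ∧ ∀ a b : ℂ,
      ‖a - b‖ ^ p ≤ η * (‖a‖ ^ p + ‖b‖ ^ p) + C * defect p a b := by
  have hp0 : 0 < p := by linarith
  set e : ℝ := η ^ (1 / p) with he
  have he0 : 0 < e := Real.rpow_pos_of_pos hη _
  have hep : e ^ p = η := by
    rw [he, ← Real.rpow_mul hη.le, one_div_mul_cancel hp0.ne', Real.rpow_one]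
  set S : Set (ℂ × ℂ) := (closedBall 0 1 ×ˢ closedBall 0 1) ∩ {x | e ≤ ‖x.1 - x.2‖} with hS
  have hSc : IsCompact S :=
    ((isCompact_closedBall _ _).prod (isCompact_closedBall _ _)).inter_right
      (isClosed_le continuous_const (by fun_prop))
  have hcont : Continuous fun x : ℂ × ℂ => defect p x.1 x.2 := by
    unfold defect
    refine Continuous.sub (Continuous.div_const (Continuous.add ?_ ?_) _) ?_ <;>
      exact Continuous.rpow_const (by fun_prop) fun _ => Or.inr hp0.le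
  obtain ⟨m, hm0, hm⟩ : ∃ m > 0, ∀ x ∈ S, m ≤ defect p x.1 x.2 := by
    rcases S.eq_empty_or_nonempty with h | h
    · exact ⟨1, one_pos, by simp [h]⟩
    · obtain ⟨x, hx, hmin⟩ := hSc.exists_isMinOn h hcont.continuousOn
      refine ⟨_, defect_pos hp (a := x.1) (b := x.2) ?_, fun y hy => hmin hy⟩
      intro h0
      have := hx.2
      simp only [mem_ofPred_eq, h0, sub_self, norm_zero] at this
      linarith
  refine ⟨2 ^ p / m, by positivity, fun a b => ?_⟩
  have hd := defect_nonneg hp a b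
  set M : ℝ := max ‖a‖ ‖b‖ with hM
  have hMa : ‖a‖ ≤ M := le_max_left _ _
  have hMb : ‖b‖ ≤ M := le_max_right _ _
  have hM0 : 0 ≤ M := (norm_nonneg _).trans hMa
  have hMp : M ^ p ≤ ‖a‖ ^ p + ‖b‖ ^ p := by
    have h1 := Real.rpow_nonneg (norm_nonneg a) p
    have h2 := Real.rpow_nonneg (norm_nonneg b) p
    rcases le_total ‖a‖ ‖b‖ with h | h
    · rw [hM, max_eq_right h]; linarith
    · rw [hM, max_eq_left h]; linarith
  by_cases hc : ‖a - b‖ ≤ e * M
  · have h1 := Real.rpow_le_rpow (norm_nonneg _) hc hp0.le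
    rw [Real.mul_rpow he0.le hM0, hep] at h1
    have : 0 ≤ 2 ^ p / m * defect p a b := by positivity
    nlinarith
  · push Not at hc
    have hMpos : 0 < M := by
      rcases hM0.eq_or_lt with h | h
      · exfalso
        have ha : a = 0 := norm_le_zero_iff.1 (h ▸ hMa)
        have hb : b = 0 := norm_le_zero_iff.1 (h ▸ hMb)
        simp [ha, hb, ← h] at hc
      · exact h
    have hMc : (M : ℂ) ≠ 0 := by exact_mod_cast hMpos.ne'
    have hn : ‖(M : ℂ)‖ = M := by simp [abs_of_pos hMpos]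
    have hmem : (a / M, b / M) ∈ S := by
      refine ⟨⟨?_, ?_⟩, ?_⟩
      · simp only [mem_closedBall_zero_iff, norm_div, hn]
        exact (div_le_one hMpos).2 hMa
      · simp only [mem_closedBall_zero_iff, norm_div, hn]
        exact (div_le_one hMpos).2 hMb
      · simp only [mem_ofPred_eq, ← sub_div, norm_div, hn]
        exact (le_div_iff₀ hMpos).2 hc.le
    have h1 := hm _ hmem
    have h2 := defect_mul p M (a / M) (b / M)
    rw [mul_div_cancel₀ _ hMc, mul_div_cancel₀ _ hMc, hn] at h2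
    have h3 : ‖a - b‖ ^ p ≤ 2 ^ p * M ^ p := by
      rw [← Real.mul_rpow (by norm_num) hM0]
      exact Real.rpow_le_rpow (norm_nonneg _) (by linarith [norm_sub_le a b]) hp0.le
    have h4 : 2 ^ p * M ^ p ≤ 2 ^ p / m * defect p a b := by
      rw [h2, div_mul_eq_mul_div, le_div_iff₀ hm0]
      have : 0 ≤ (2 : ℝ) ^ p * M ^ p := by positivity
      simp only at h1
      nlinarith
    have h5 : 0 ≤ η * (‖a‖ ^ p + ‖b‖ ^ p) := by positivity
    linarith

theorem mul_mem_ball {r : ℝ} (hr : |r| ≤ 1) {z : ℂ} (hz : z ∈ ball (0 : ℂ) 1) :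
    (r : ℂ) * z ∈ ball (0 : ℂ) 1 := by
  rw [mem_ball_zero_iff] at hz ⊢
  rw [norm_mul, Complex.norm_real, Real.norm_eq_abs]
  exact lt_of_le_of_lt (mul_le_of_le_one_left (norm_nonneg _) hr) hz

theorem diff_dilate {f : ℂ → ℂ} (hf : DifferentiableOn ℂ f (ball 0 1)) {r : ℝ} (hr : |r| ≤ 1) :
    DifferentiableOn ℂ (fun z => f (r * z)) (ball 0 1) :=
  hf.comp (by fun_prop) fun _ hz => mul_mem_ball hr hz

theorem mean_dilate (p : ℝ) (f : ℂ → ℂ) (r s : ℝ) :
    mean p (fun z => f (r * z)) s = mean p f (r * s) := by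
  simp only [mean, Real.circleAverage_def, circleMap_zero]
  push_cast
  simp only [mul_assoc]

theorem cont_param {p : ℝ} (hp : 0 ≤ p) {f : ℂ → ℂ} (hf : ContinuousOn f (ball 0 1))
    (α β : ℂ) {s : ℝ} (hs : |s| < 1) :
    Continuous fun r : ℝ => mean p (fun z => α * f z + β * f ((max 0 (min r 1) : ℝ) * z)) s := by
  simp only [mean, Real.circleAverage_def]
  simp only [smul_eq_mul]
  refine Continuous.mul continuous_const ?_
  refine intervalIntegral.continuous_parametric_intervalIntegral_of_continuous' ?_ _ _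
  refine Continuous.rpow_const (Continuous.norm ?_) fun _ => Or.inr hp
  refine Continuous.add (continuous_const.mul ((cont_circle hf hs).comp continuous_snd))
    (continuous_const.mul ?_)
  refine hf.comp_continuous ?_ fun x => mul_mem_ball ?_ (circle_mem_ball hs _)
  · have c2 : Continuous fun x : ℝ × ℝ => circleMap 0 s x.2 :=
      (continuous_circleMap 0 s).comp continuous_snd
    fun_prop
  · rw [abs_of_nonneg (le_max_left _ _)]
    exact max_le zero_le_one (min_le_right _ _)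

theorem exists_dilate {p : ℝ} (hp : 1 < p) {f : ℂ → ℂ} (hf : DifferentiableOn ℂ f (ball 0 1))
    (hN : hardyNorm p f < ∞) {κ : ℝ} (hκ : 0 < κ) :
    ∃ r ∈ Ioo (0 : ℝ) 1, ∀ s ∈ Ioo (0 : ℝ) 1, mean p (fun z => f z - f (r * z)) s ≤ κ := by
  have hp0 : 0 < p := by linarith
  have hfc := hf.continuousOn
  have hbdd : BddAbove (mean p f '' Ioo 0 1) :=
    ⟨_, by rintro _ ⟨r, hr, rfl⟩; exact mean_le_of_hardyNorm hp0 hfc hN hr⟩
  have hne : (mean p f '' Ioo 0 1).Nonempty := ⟨_, 1 / 2, by norm_num, rfl⟩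
  set M := sSup (mean p f '' Ioo 0 1) with hM
  have hle : ∀ s ∈ Ioo (0 : ℝ) 1, mean p f s ≤ M := fun s hs => le_csSup hbdd ⟨s, hs, rfl⟩
  have hM0 : 0 ≤ M := (mean_nonneg p f _).trans (hle (1 / 2) (by norm_num))
  obtain ⟨C, hC, hUC⟩ := uniform_convexity hp (η := κ / (4 * (M + 1))) (by positivity)
  set τ : ℝ := κ / (2 * (C + 1)) with hτ
  have hτ0 : 0 < τ := by positivity
  obtain ⟨_, ⟨s', hs', rfl⟩, hs'M⟩ := exists_lt_of_lt_csSup hne (show M - τ < M by linarith)
  have c1 := (cont_param hp0.le hfc (1 / 2) (1 / 2) (abs_lt_one_of_mem hs')).tendsto 1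
  have c2 := (cont_param hp0.le hfc 1 (-1) (abs_lt_one_of_mem hs')).tendsto 1
  have v1 : mean p (fun z => 1 / 2 * f z + 1 / 2 * f ((max 0 (min (1 : ℝ) 1) : ℝ) * z)) s'
      = mean p f s' := by
    congr 1
    ext z
    simp only [min_self, zero_le_one, max_eq_right, ofReal_one, one_mul]
    ring
  have v2 : mean p (fun z => 1 * f z + -1 * f ((max 0 (min (1 : ℝ) 1) : ℝ) * z)) s' = 0 := by
    simp [mean, Real.zero_rpow hp0.ne', Real.circleAverage_const]
  rw [v1] at c1
  rw [v2] at c2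
  have ev := ((c1.eventually (lt_mem_nhds hs'M)).and (c2.eventually (gt_mem_nhds hκ))).filter_mono
    (nhdsWithin_le_nhds (s := Iio 1))
  obtain ⟨r, ⟨h1, h2⟩, hr⟩ := (ev.and (Ioo_mem_nhdsLT (show (0 : ℝ) < 1 by norm_num))).exists
  have hmax : max 0 (min r 1) = r := by
    rw [min_eq_left hr.2.le, max_eq_right hr.1.le]
  rw [hmax] at h1 h2
  have hr1 : |r| ≤ 1 := (abs_lt_one_of_mem hr).le
  have hfr := diff_dilate hf hr1
  refine ⟨r, hr, fun s hs => ?_⟩
  rcases le_total s s' with h | h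
  · refine (mean_mono hp (hf.sub hfr) hs.1 h hs'.2).trans (le_trans (le_of_eq ?_) h2.le)
    congr 1
    ext z
    simp only [Pi.sub_apply]
    ring
  · have hg : DifferentiableOn ℂ (fun z => 1 / 2 * f z + 1 / 2 * f (r * z)) (ball 0 1) :=
      (hf.const_mul _).add (hfr.const_mul _)
    have h3 := mean_mono hp hg hs'.1 h hs.2
    have hs1 := abs_lt_one_of_mem hs
    have i1 := circInt (contOn_pow hfc hp0.le) hs1
    have i2 := circInt (contOn_pow hfr.continuousOn hp0.le) hs1
    have i3 := circInt (contOn_pow hg.continuousOn hp0.le) hs1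
    have i4 := circInt (contOn_pow (hf.sub hfr).continuousOn hp0.le) hs1
    set η := κ / (4 * (M + 1)) with hη
    have j1 : CircleIntegrable (fun z => (η + C / 2) • ‖f z‖ ^ p) 0 s := i1.const_smul
    have j2 : CircleIntegrable (fun z => (η + C / 2) • ‖f (r * z)‖ ^ p) 0 s := i2.const_smul
    have j3 : CircleIntegrable (fun z => C • ‖1 / 2 * f z + 1 / 2 * f (r * z)‖ ^ p) 0 s :=
      i3.const_smul
    have j12 : CircleIntegrable
        (fun z => (η + C / 2) • ‖f z‖ ^ p + (η + C / 2) • ‖f (r * z)‖ ^ p) 0 s := j1.add j2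
    have h4 : mean p (fun z => f z - f (r * z)) s ≤ Real.circleAverage
        (fun z => ((η + C / 2) • ‖f z‖ ^ p + (η + C / 2) • ‖f (r * z)‖ ^ p)
          - C • ‖1 / 2 * f z + 1 / 2 * f (r * z)‖ ^ p) 0 s := by
      refine Real.circleAverage_mono i4 (j12.sub j3) fun z _ => ?_
      have := hUC (f z) (f (r * z))
      unfold defect at this
      rw [show (f z + f (r * z)) / 2 = 1 / 2 * f z + 1 / 2 * f (r * z) by ring] at this
      simp only [smul_eq_mul]
      linarith
    rw [Real.circleAverage_fun_sub j12 j3, Real.circleAverage_fun_add j1 j2,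
      Real.circleAverage_fun_smul, Real.circleAverage_fun_smul, Real.circleAverage_fun_smul] at h4
    have e1 : Real.circleAverage (fun z => ‖f z‖ ^ p) 0 s ≤ M := hle s hs
    have e2 : Real.circleAverage (fun z => ‖f (r * z)‖ ^ p) 0 s ≤ M := by
      have := mean_dilate p f r s
      rw [mean] at this
      rw [this]
      exact hle _ ⟨mul_pos hr.1 hs.1, mul_lt_one_of_nonneg_of_lt_one_left hr.1.le hr.2 hs.2.le⟩
    have e3 : M - τ ≤ Real.circleAverage
        (fun z => ‖1 / 2 * f z + 1 / 2 * f (r * z)‖ ^ p) 0 s := h1.le.trans h3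
    simp only [smul_eq_mul] at h4
    have hη0 : 0 < η := by positivity
    have e4 : η * (2 * M) ≤ κ / 2 := by
      rw [hη, div_mul_eq_mul_div, div_le_div_iff₀ (by positivity) (by positivity)]
      nlinarith
    have e5 : C * τ ≤ κ / 2 := by
      rw [hτ, ← mul_div_assoc, div_le_div_iff₀ (by positivity) (by positivity)]
      nlinarith
    have hc2 : 0 ≤ η + C / 2 := by positivity
    nlinarith [mul_le_mul_of_nonneg_left e1 hc2, mul_le_mul_of_nonneg_left e2 hc2,
      mul_le_mul_of_nonneg_left e3 hC]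

theorem exists_poly_unif {f : ℂ → ℂ} (hf : DifferentiableOn ℂ f (ball 0 1)) {r : ℝ}
    (hr : r ∈ Ioo (0 : ℝ) 1) {ε : ℝ} (hε : 0 < ε) :
    ∃ (n : ℕ) (b : ℕ → ℂ), ∀ z ∈ ball (0 : ℂ) 1,
      ‖f (r * z) - ∑ k ∈ Finset.range n, b k * z ^ k‖ ≤ ε := by
  set R : ℝ≥0 := ⟨(r + 1) / 2, by linarith [hr.1]⟩ with hR
  set r' : ℝ≥0 := ⟨r, hr.1.le⟩ with hr'
  have hR1 : (R : ℝ) < 1 := by
    change (r + 1) / 2 < 1
    linarith [hr.2]
  have hrR : r' < R := by
    rw [← NNReal.coe_lt_coe]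
    change r < (r + 1) / 2
    linarith [hr.2]
  have hR0 : 0 < R := lt_of_le_of_lt (zero_le) hrR
  have hps := (hf.mono (closedBall_subset_ball hR1)).hasFPowerSeriesOnBall hR0
  have hu := hps.tendstoUniformlyOn (r' := r') (by exact_mod_cast hrR)
  rw [Metric.tendstoUniformlyOn_iff] at hu
  obtain ⟨n, hn⟩ := (hu ε hε).exists
  refine ⟨n, fun k => (cauchyPowerSeries f 0 R).coeff k * r ^ k, fun z hz => ?_⟩
  have hm : (r : ℂ) * z ∈ ball (0 : ℂ) r' := by
    rw [mem_ball_zero_iff] at hz ⊢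
    rw [norm_mul, Complex.norm_real, Real.norm_eq_abs, abs_of_pos hr.1]
    exact mul_lt_of_lt_one_right hr.1 hz
  have := hn _ hm
  rw [dist_eq_norm, zero_add, FormalMultilinearSeries.partialSum] at this
  refine le_trans (le_of_eq ?_) this.le
  congr 2
  refine Finset.sum_congr rfl fun k _ => ?_
  rw [FormalMultilinearSeries.apply_eq_pow_smul_coeff, smul_eq_mul]
  ring

theorem exists_poly {p : ℝ} (hp : 1 < p) {f : ℂ → ℂ} (hf : DifferentiableOn ℂ f (ball 0 1))
    (hN : hardyNorm p f < ∞) {ε : ℝ} (hε : 0 < ε) :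
    ∃ (n : ℕ) (b : ℕ → ℂ),
      hardyNorm p (fun z => f z - ∑ k ∈ Finset.range n, b k * z ^ k) ≤ ENNReal.ofReal ε := by
  have hp0 : 0 < p := by linarith
  obtain ⟨r, hr, h1⟩ := exists_dilate hp hf hN (κ := (ε / 2) ^ p) (by positivity)
  obtain ⟨n, b, h2⟩ := exists_poly_unif hf hr (ε := ε / 2) (by positivity)
  refine ⟨n, b, ?_⟩
  have hfr := diff_dilate hf (abs_lt_one_of_mem hr).le
  have c1 : ContinuousOn (fun z => f z - f (r * z)) (ball 0 1) := (hf.sub hfr).continuousOn
  have c2 : ContinuousOn (fun z => f (r * z) - ∑ k ∈ Finset.range n, b k * z ^ k) (ball 0 1) :=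
    hfr.continuousOn.sub (by fun_prop)
  have a1 := hardyNorm_le_of_mean hp0 c1 h1
  rw [← Real.rpow_mul (by positivity), mul_one_div_cancel hp0.ne', Real.rpow_one] at a1
  have a2 := hardyNorm_le_of_bound hp0 c2 (by positivity) h2
  have a3 := hardyNorm_add_le hp.le c1 c2
  have : ((fun z => f z - f (r * z)) + fun z => f (r * z) - ∑ k ∈ Finset.range n, b k * z ^ k)
      = fun z => f z - ∑ k ∈ Finset.range n, b k * z ^ k := by
    ext z; simp
  rw [this] at a3
  refine a3.trans ((add_le_add a1 a2).trans (le_of_eq ?_))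
  rw [← ENNReal.ofReal_add (by positivity) (by positivity), add_halves]

end Pool.Agent.Lib.MP_459ac8_an
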