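import Pool.Agent.Lib.MP_459ac8_an.Space

/-!
Estimates for the logarithms `log (1 - w z)` in the Hardy norm.
-/

namespace Pool.Agent.Lib.MP_459ac8_an

open scoped ENNReal Real Topology NNReal
open MeasureTheory Metric Set Complex Filter

theorem re_one_add_pos {u : ℂ} (hu : ‖u‖ < 1) : 0 < (1 + u).re := by
  have := (abs_le.1 ((Complex.abs_re_le_norm u))).1
  simp only [add_re, one_re]
  linarith

theorem re_one_sub_pos {u : ℂ} (hu : ‖u‖ < 1) : 0 < (1 - u).re := by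
  have := re_one_add_pos (u := -u) (by simpa using hu)
  rwa [← sub_eq_add_neg] at this

theorem ne_zero_of_re {A : ℂ} (h : 0 < A.re) : A ≠ 0 := by
  rintro rfl; simp at h

theorem log_step {A u : ℂ} (hA : 0 < A.re) (hu : ‖u‖ < 1) :
    log (A * (1 + u)) = log A + log (1 + u) := by
  have h1 := re_one_add_pos hu
  have a1 := abs_lt.1 (Complex.abs_arg_lt_pi_div_two_iff.2 (Or.inl hA))
  have a2 := abs_lt.1 (Complex.abs_arg_lt_pi_div_two_iff.2 (Or.inl h1))
  exact Complex.log_mul (ne_zero_of_re hA) (ne_zero_of_re h1) ⟨by linarith, by linarith⟩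

theorem log_diff_le {s : ℝ} (hs : 0 < s) (hs1 : s ≤ 1) {A B : ℂ} (hA : 0 < A.re) (hB : 0 < B.re)
    (hAB : ‖B‖ ≤ ‖A‖) : ‖log A - log B‖ ≤ (3 / s + 2 * π) * (‖A - B‖ / ‖B‖) ^ s := by
  have hB0 := ne_zero_of_re hB
  have hBn : 0 < ‖B‖ := norm_pos_iff.2 hB0
  set x := ‖A - B‖ / ‖B‖ with hx
  have hx0 : 0 ≤ x := by positivity
  have hxs : 0 ≤ x ^ s := by positivity
  have h3 : 3 ≤ 3 / s := by rw [le_div_iff₀ hs]; linarith
  have hpi := Real.pi_pos
  by_cases hc : x ≤ 1 / 2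
  · have hu : ‖(A - B) / B‖ = x := by rw [norm_div]
    have e : A = B * (1 + (A - B) / B) := by field_simp; ring
    have h1 := log_step hB (u := (A - B) / B) (by rw [hu]; linarith)
    rw [← e] at h1
    rw [h1, add_sub_cancel_left]
    have h2 := Complex.norm_log_one_add_half_le_self (z := (A - B) / B) (by rw [hu]; exact hc)
    rw [hu] at h2
    have h4 := Real.self_le_rpow_of_le_one hx0 (by linarith) hs1
    nlinarith
  · push Not at hc
    refine (Complex.norm_le_abs_re_add_abs_im _).trans ?_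
    have a1 := abs_lt.1 (Complex.abs_arg_lt_pi_div_two_iff.2 (Or.inl hA))
    have a2 := abs_lt.1 (Complex.abs_arg_lt_pi_div_two_iff.2 (Or.inl hB))
    have him : |(log A - log B).im| ≤ 2 * π * x ^ s := by
      have h1 : (1 : ℝ) ≤ (2 * x) ^ s := Real.one_le_rpow (by linarith) hs.le
      rw [Real.mul_rpow (by norm_num) hx0] at h1
      have h2 : (2 : ℝ) ^ s ≤ 2 := by
        simpa using Real.rpow_le_rpow_of_exponent_le (x := 2) (by norm_num) hs1
      have h4 : 1 ≤ 2 * x ^ s := by nlinarith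
      rw [sub_im, log_im, log_im, abs_le]
      constructor <;> nlinarith
    have hre : |(log A - log B).re| ≤ 3 / s * x ^ s := by
      have hAn : 0 < ‖A‖ := lt_of_lt_of_le hBn hAB
      rw [sub_re, log_re, log_re, ← Real.log_div hAn.ne' hBn.ne',
        abs_of_nonneg (Real.log_nonneg ((one_le_div hBn).2 hAB))]
      have h1 : ‖A‖ / ‖B‖ ≤ 3 * x := by
        have : ‖A‖ ≤ ‖A - B‖ + ‖B‖ := by simpa using norm_add_le (A - B) B
        have h' : ‖A‖ / ‖B‖ ≤ x + 1 := by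
          rw [hx, div_add_one hBn.ne']
          gcongr
        linarith
      have h2 : (3 : ℝ) ^ s ≤ 3 := by
        simpa using Real.rpow_le_rpow_of_exponent_le (x := 3) (by norm_num) hs1
      calc Real.log (‖A‖ / ‖B‖) ≤ (‖A‖ / ‖B‖) ^ s / s := Real.log_le_rpow_div (by positivity) hs
        _ ≤ (3 * x) ^ s / s := by gcongr
        _ = 3 ^ s * x ^ s / s := by rw [Real.mul_rpow (by norm_num) hx0]
        _ ≤ 3 * x ^ s / s := by gcongr
        _ = 3 / s * x ^ s := by ring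
    linarith

theorem avg_re {h : ℂ → ℂ} (hh : DifferentiableOn ℂ h (ball 0 1)) {ρ : ℝ}
    (hρ : ρ ∈ Ioo (0 : ℝ) 1) : Real.circleAverage (fun z => (h z).re) 0 ρ = (h 0).re := by
  have hdc : DiffContOnCl ℂ h (ball 0 |ρ|) := by
    apply DifferentiableOn.diffContOnCl
    rw [closure_ball _ (abs_pos.2 hρ.1.ne').ne']
    exact hh.mono (closedBall_subset_ball (abs_lt_one_of_mem hρ))
  have h2 := Complex.reCLM.circleAverage_comp_comm
    (circInt hh.continuousOn (abs_lt_one_of_mem hρ))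
  rw [hdc.circleAverage] at h2
  exact h2

theorem norm_mul_lt_one {w z : ℂ} (hw : ‖w‖ < 1) (hz : z ∈ ball (0 : ℂ) 1) : ‖w * z‖ < 1 := by
  rw [mem_ball_zero_iff] at hz
  rw [norm_mul]
  exact mul_lt_one_of_nonneg_of_lt_one_left (norm_nonneg _) hw hz.le

theorem one_sub_ne {w z : ℂ} (hw : ‖w‖ < 1) (hz : z ∈ ball (0 : ℂ) 1) : 1 - w * z ≠ 0 :=
  ne_zero_of_re (re_one_sub_pos (norm_mul_lt_one hw hz))

theorem one_sub_norm_le {w z : ℂ} (hz : z ∈ ball (0 : ℂ) 1) : 1 - ‖w‖ ≤ ‖1 - w * z‖ := by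
  rw [mem_ball_zero_iff] at hz
  have h1 := norm_sub_norm_le (1 : ℂ) (w * z)
  rw [norm_one, norm_mul] at h1
  nlinarith [norm_nonneg w]

theorem contOn_inv_sqrt {w : ℂ} (hw : ‖w‖ < 1) :
    ContinuousOn (fun z => ‖1 - w * z‖ ^ (-(1 / 2) : ℝ)) (ball (0 : ℂ) 1) :=
  ContinuousOn.rpow_const (by fun_prop) fun _ hz => Or.inl (norm_ne_zero_iff.2 (one_sub_ne hw hz))

theorem avg_inv_sqrt {w : ℂ} (hw : ‖w‖ < 1) {ρ : ℝ} (hρ : ρ ∈ Ioo (0 : ℝ) 1) :
    Real.circleAverage (fun z => ‖1 - w * z‖ ^ (-(1 / 2) : ℝ)) 0 ρ ≤ 2 := by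
  have hd : DifferentiableOn ℂ (fun z => 2 * (1 - w * z) ^ ((-(1 / 2) : ℝ) : ℂ)) (ball 0 1) := by
    refine DifferentiableOn.const_mul (DifferentiableOn.cpow_const (by fun_prop) fun z hz => ?_) _
    exact Or.inl (re_one_sub_pos (norm_mul_lt_one hw hz))
  have h1 := avg_re hd hρ
  have hρ1 := abs_lt_one_of_mem hρ
  have h2 : Real.circleAverage (fun z => ‖1 - w * z‖ ^ (-(1 / 2) : ℝ)) 0 ρ ≤
      Real.circleAverage (fun z => (2 * (1 - w * z) ^ ((-(1 / 2) : ℝ) : ℂ)).re) 0 ρ := by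
    refine Real.circleAverage_mono (circInt (contOn_inv_sqrt hw) hρ1)
      (circInt (Complex.continuous_re.comp_continuousOn hd.continuousOn) hρ1) fun z hz => ?_
    have hz' := sphere_sub_ball hρ1 hz
    have a1 := Complex.abs_arg_lt_pi_div_two_iff.2
      (Or.inl (re_one_sub_pos (norm_mul_lt_one hw hz')))
    have hc : 1 / 2 ≤ Real.cos (arg (1 - w * z) * (-(1 / 2))) := by
      rw [← Real.cos_abs]
      refine le_trans (le_of_eq Real.cos_pi_div_three.symm) ?_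
      refine Real.cos_le_cos_of_nonneg_of_le_pi (abs_nonneg _) (by linarith [Real.pi_pos]) ?_
      rw [abs_mul, abs_neg, abs_of_pos (show (0 : ℝ) < 1 / 2 by norm_num)]
      linarith [Real.pi_pos]
    rw [show (2 : ℂ) = ((2 : ℝ) : ℂ) by norm_num, Complex.re_ofReal_mul, Complex.cpow_ofReal_re]
    have : 0 ≤ ‖1 - w * z‖ ^ (-(1 / 2) : ℝ) := by positivity
    nlinarith
  refine h2.trans (le_of_eq ?_)
  rw [h1]
  simp

theorem contOn_inv_sq {w : ℂ} (hw : ‖w‖ < 1) :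
    ContinuousOn (fun z => 1 / ‖1 - w * z‖ ^ 2) (ball (0 : ℂ) 1) :=
  ContinuousOn.div continuousOn_const (by fun_prop) fun _ hz =>
    pow_ne_zero _ (norm_ne_zero_iff.2 (one_sub_ne hw hz))

theorem avg_inv_sq {w : ℂ} (hw : ‖w‖ < 1) {ρ : ℝ} (hρ : ρ ∈ Ioo (0 : ℝ) 1) :
    Real.circleAverage (fun z => 1 / ‖1 - w * z‖ ^ 2) 0 ρ ≤ 1 / (1 - ‖w‖) := by
  have hw0 : 0 < 1 - ‖w‖ := by linarith
  have hd : DifferentiableOn ℂ
      (fun z => ((1 / (1 - ‖w‖) : ℝ) : ℂ) * ((1 + w * z) / (1 - w * z))) (ball 0 1) :=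
    DifferentiableOn.const_mul
      (DifferentiableOn.div (by fun_prop) (by fun_prop) fun z hz => one_sub_ne hw hz) _
  have h1 := avg_re hd hρ
  have hρ1 := abs_lt_one_of_mem hρ
  have h2 : Real.circleAverage (fun z => 1 / ‖1 - w * z‖ ^ 2) 0 ρ ≤ Real.circleAverage
      (fun z => (((1 / (1 - ‖w‖) : ℝ) : ℂ) * ((1 + w * z) / (1 - w * z))).re) 0 ρ := by
    refine Real.circleAverage_mono (circInt (contOn_inv_sq hw) hρ1)
      (circInt (Complex.continuous_re.comp_continuousOn hd.continuousOn) hρ1) fun z hz => ?_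
    have hz' := sphere_sub_ball hρ1 hz
    have hp := congrFun (poissonKernel_eq_re_herglotzRieszKernel (c := 0) (w := w * z)) 1
    simp only [poissonKernel_def, sub_zero, Function.comp_apply, herglotzRieszKernel_def,
      norm_one, one_pow] at hp
    rw [Complex.re_ofReal_mul, ← hp]
    have hn : 0 < ‖1 - w * z‖ := norm_pos_iff.2 (one_sub_ne hw hz')
    have h3 : ‖w * z‖ ^ 2 ≤ ‖w‖ := by
      have h4 : ‖w * z‖ ≤ ‖w‖ := by
        rw [norm_mul]
        exact mul_le_of_le_one_right (norm_nonneg _) (mem_ball_zero_iff.1 hz').le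
      nlinarith [norm_nonneg (w * z), norm_nonneg w]
    rw [← mul_div_assoc]
    gcongr
    rw [one_div, ← div_eq_inv_mul, le_div_iff₀ hw0]
    linarith
  refine h2.trans (le_of_eq ?_)
  rw [h1, Complex.re_ofReal_mul]
  simp

theorem diffOn_log {w : ℂ} (hw : ‖w‖ < 1) :
    DifferentiableOn ℂ (fun z => log (1 - w * z)) (ball 0 1) :=
  DifferentiableOn.clog (by fun_prop) fun _ hz => Or.inl (re_one_sub_pos (norm_mul_lt_one hw hz))

theorem log_diff_pow_le {p : ℝ} (hp : 1 ≤ p) {A B : ℂ} (hA : 0 < A.re) (hB : 0 < B.re) {ε : ℝ}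
    (hε : ‖A - B‖ ≤ ε) :
    ‖log A - log B‖ ^ p ≤ (6 * p + 2 * π) ^ p * ε ^ (1 / 2 : ℝ) *
      (‖A‖ ^ (-(1 / 2) : ℝ) + ‖B‖ ^ (-(1 / 2) : ℝ)) := by
  have hp0 : 0 < p := by linarith
  have hε0 : 0 ≤ ε := (norm_nonneg _).trans hε
  have hpi := Real.pi_pos
  wlog hAB : ‖B‖ ≤ ‖A‖ generalizing A B
  · have := this hB hA (by rwa [norm_sub_rev]) (le_of_not_ge hAB)
    rwa [norm_sub_rev, add_comm (‖B‖ ^ _)] at this
  have hBn : 0 < ‖B‖ := norm_pos_iff.2 (ne_zero_of_re hB)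
  have h1 := log_diff_le (s := 1 / (2 * p)) (by positivity)
    (by rw [div_le_one (by positivity)]; linarith) hA hB hAB
  rw [show 3 / (1 / (2 * p)) = 6 * p by field_simp; norm_num] at h1
  have h2 := Real.rpow_le_rpow (norm_nonneg _) h1 hp0.le
  rw [Real.mul_rpow (by positivity) (by positivity), ← Real.rpow_mul (by positivity),
    show 1 / (2 * p) * p = 1 / 2 by field_simp, Real.div_rpow (norm_nonneg _) hBn.le] at h2
  refine h2.trans ?_
  rw [mul_assoc]
  gcongr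
  have h3 : ‖A - B‖ ^ (1 / 2 : ℝ) ≤ ε ^ (1 / 2 : ℝ) := by gcongr
  have h4 : 0 ≤ ‖A‖ ^ (-(1 / 2) : ℝ) := by positivity
  rw [div_eq_mul_inv, ← Real.rpow_neg hBn.le]
  have h5 : 0 ≤ ‖B‖ ^ (-(1 / 2) : ℝ) := by positivity
  have h6 : 0 ≤ ε ^ (1 / 2 : ℝ) := by positivity
  nlinarith

theorem hardyNorm_log_diff {p : ℝ} (hp : 1 ≤ p) {w w' : ℂ} (hw : ‖w‖ < 1) (hw' : ‖w'‖ < 1) :
    hardyNorm p (fun z => log (1 - w * z) - log (1 - w' * z))
      ≤ ENNReal.ofReal (4 * (6 * p + 2 * π) * ‖w - w'‖ ^ (1 / (2 * p))) := by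
  have hp0 : 0 < p := by linarith
  have hpi := Real.pi_pos
  have hc : ContinuousOn (fun z => log (1 - w * z) - log (1 - w' * z)) (ball 0 1) :=
    ((diffOn_log hw).sub (diffOn_log hw')).continuousOn
  set c : ℝ := (6 * p + 2 * π) ^ p * ‖w - w'‖ ^ (1 / 2 : ℝ) with hcdef
  have hc0 : 0 ≤ c := by positivity
  refine (hardyNorm_le_of_mean hp0 hc (C := c * 4) fun r hr => ?_).trans
    (ENNReal.ofReal_le_ofReal ?_)
  · have hr1 := abs_lt_one_of_mem hr
    have i1 := circInt (contOn_inv_sqrt hw) hr1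
    have i2 := circInt (contOn_inv_sqrt hw') hr1
    have i3 : CircleIntegrable (fun z => ‖1 - w * z‖ ^ (-(1 / 2) : ℝ)
        + ‖1 - w' * z‖ ^ (-(1 / 2) : ℝ)) 0 r := i1.add i2
    have i4 : CircleIntegrable (fun z => c • (‖1 - w * z‖ ^ (-(1 / 2) : ℝ)
        + ‖1 - w' * z‖ ^ (-(1 / 2) : ℝ))) 0 r := i3.const_smul
    refine (Real.circleAverage_mono (circInt (contOn_pow hc hp0.le) hr1) i4 fun z hz => ?_).trans ?_
    · have hz' := sphere_sub_ball hr1 hz
      refine log_diff_pow_le hp (re_one_sub_pos (norm_mul_lt_one hw hz'))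
        (re_one_sub_pos (norm_mul_lt_one hw' hz')) ?_
      rw [show 1 - w * z - (1 - w' * z) = -((w - w') * z) by ring, norm_neg, norm_mul]
      exact mul_le_of_le_one_right (norm_nonneg _) (mem_ball_zero_iff.1 hz').le
    · rw [Real.circleAverage_fun_smul, Real.circleAverage_fun_add i1 i2, smul_eq_mul]
      gcongr
      linarith [avg_inv_sqrt hw hr, avg_inv_sqrt hw' hr]
  · rw [Real.mul_rpow hc0 (by norm_num), hcdef, Real.mul_rpow (by positivity) (by positivity),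
      ← Real.rpow_mul (by positivity), ← Real.rpow_mul (by positivity),
      mul_one_div_cancel hp0.ne', Real.rpow_one, show 1 / 2 * (1 / p) = 1 / (2 * p) by field_simp]
    have h2 : (4 : ℝ) ^ (1 / p) ≤ 4 := by
      simpa using Real.rpow_le_rpow_of_exponent_le (x := 4) (y := 1 / p) (z := 1) (by norm_num)
        (by rw [div_le_one hp0]; exact hp)
    have h3 : 0 ≤ (6 * p + 2 * π) * ‖w - w'‖ ^ (1 / (2 * p)) := by positivity
    nlinarith

end Pool.Agent.Lib.MP_459ac8_an
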