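import Pool.Agent.Lib.MP_459ac8_an.Points
import Pool.Agent.Lib.MP_459ac8_an.Density
import Pool.Agent.Lib.MP_459ac8_an.Abstract

/-!
Assembly: the kernels at the points `lam n` form a representing system.
-/

namespace Pool.Agent.Lib.MP_459ac8_an

open scoped ENNReal Real Topology NNReal ComplexConjugate
open MeasureTheory Metric Complex Filter Finset

theorem indicator_mem {p : ℝ} (hp : 1 ≤ p) {f : ℂ → ℂ} (hf : DifferentiableOn ℂ f (ball 0 1))
    {C : ℝ} (h : ∀ z ∈ ball (0 : ℂ) 1, ‖f z‖ ≤ C) : (ball (0 : ℂ) 1).indicator f ∈ Hp p hp :=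
  mem_Hp_of_bound hp (hf.congr fun _ hz => Set.indicator_of_mem hz f) (C := C) fun z hz => by
    rw [Set.indicator_of_mem hz]; exact h z hz

/-- the Cauchy kernel at `lam n` as an element of the Hardy space -/
noncomputable def ker (p : ℝ) (hp : 1 ≤ p) (n : ℕ) : Hp p hp :=
  ⟨(ball (0 : ℂ) 1).indicator fun z => (1 - conj (lam n) * z)⁻¹,
    indicator_mem hp (diffOn_kernel (by rw [Complex.norm_conj]; exact norm_lam_lt n))
      (C := (1 - ‖lam n‖)⁻¹) fun z hz => by
        rw [norm_inv]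
        refine inv_anti₀ (by linarith [norm_lam_lt n]) ?_
        have := one_sub_norm_le (w := conj (lam n)) hz
        rwa [Complex.norm_conj] at this⟩

/-- the constant function one -/
noncomputable def one (p : ℝ) (hp : 1 ≤ p) : Hp p hp :=
  ⟨(ball (0 : ℂ) 1).indicator fun _ => 1,
    indicator_mem hp (differentiableOn_const _) (C := 1) (by simp)⟩

theorem ker_apply {p : ℝ} (hp : 1 ≤ p) (n : ℕ) {z : ℂ} (hz : z ∈ ball (0 : ℂ) 1) :
    (ker p hp n : ℂ → ℂ) z = (1 - conj (lam n) * z)⁻¹ := by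
  simp only [ker, Set.indicator_of_mem hz]

theorem one_apply {p : ℝ} (hp : 1 ≤ p) {z : ℂ} (hz : z ∈ ball (0 : ℂ) 1) :
    (one p hp : ℂ → ℂ) z = 1 := by
  simp only [one, Set.indicator_of_mem hz]

theorem hardyNorm_add_le' {p : ℝ} (hp : 1 ≤ p) {f g : ℂ → ℂ} (hf : ContinuousOn f (ball 0 1))
    (hg : ContinuousOn g (ball 0 1)) {A B : ℝ} (hA : 0 ≤ A) (hB : 0 ≤ B)
    (h1 : hardyNorm p f ≤ ENNReal.ofReal A) (h2 : hardyNorm p g ≤ ENNReal.ofReal B) :
    hardyNorm p (fun z => f z + g z) ≤ ENNReal.ofReal (A + B) := by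
  rw [ENNReal.ofReal_add hA hB]
  exact (hardyNorm_add_le hp hf hg).trans (add_le_add h1 h2)

theorem conj_lam {k n : ℕ} (hn : n ∈ Ico (blk k) (blk (k + 1))) :
    conj (lam n) = pt ((k : ℝ) + 2) (spd k) n := by
  rw [lam, Complex.conj_conj, idx_eq hn]

theorem good_one {p : ℝ} (hp : 1 ≤ p) : Good (hq p hp) (ker p hp) blk (one p hp) := by
  have hp0 : 0 < p := by linarith
  have hpi := Real.pi_pos
  set w : ℕ → ℕ → ℂ := fun k => pt ((k : ℝ) + 2) (spd k) with hw
  set α : ℕ → ℕ → ℂ := fun k n => (w k (n + 1) - w k n) / w k n with hα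
  set A : ℕ → ℂ := fun k => ∑ n ∈ Ico (blk k) (blk (k + 1)), α k n with hA
  set ε : ℕ → ℝ := fun k => ((dl k * tt k) ^ (p - 1) * (dl k * (8 * π))) ^ (1 / p) with hε
  have hε0 : ∀ k, 0 ≤ ε k := fun k => by
    have := dl_pos k
    have := tt_nonneg k
    simp only [hε]
    positivity
  have hw1 : ∀ k n, ‖w k n‖ < 1 := fun k n => norm_pt_lt (two_le k) n
  have evT : ∀ᶠ k : ℕ in atTop, Turn ((k : ℝ) + 2) (spd k) (blk k) (blk (k + 1)) :=
    (eventually_ge_atTop 4).mono fun k hk => turn_blk hk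
  have evd := tendsto_dl.eventually (ge_mem_nhds (show (0 : ℝ) < 1 / 2 by norm_num))
  have evE : ∀ᶠ k : ℕ in atTop, ∀ m, blk k ≤ m → m ≤ blk (k + 1) →
      hardyNorm p (err (w k) (blk k) m) ≤ ENNReal.ofReal (ε k) := by
    filter_upwards [evT, evd] with k hk hd m h1 h2
    exact hardyNorm_err hp h1 h2 (hw1 k) (pt_ne_zero (two_le k)) (dl_pos k).le hd
      (fun ν hν => hk.step_gap (mem_Ico.1 hν).1) hk.length fun z hz => hk.sup hz
  have hinv : ∀ k : ℕ, Turn ((k : ℝ) + 2) (spd k) (blk k) (blk (k + 1)) → ‖(A k)⁻¹‖ ≤ 1 := by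
    intro k hk
    rw [norm_inv]
    exact inv_le_one_of_one_le₀ hk.total
  have hfun : ∀ k m, m ≤ blk (k + 1) → ∀ z ∈ ball (0 : ℂ) 1,
      ((∑ n ∈ Ico (blk k) m, ((A k)⁻¹ * α k n) • ker p hp n : Hp p hp) : ℂ → ℂ) z
        = (A k)⁻¹ * ∑ n ∈ Ico (blk k) m, α k n * (1 - w k n * z)⁻¹ := by
    intro k m hm z hz
    rw [Submodule.coe_sum, Finset.sum_apply, mul_sum]
    refine sum_congr rfl fun n hn => ?_
    simp only [Submodule.coe_smul, Pi.smul_apply, smul_eq_mul]
    rw [ker_apply hp n hz, conj_lam (Ico_subset_Ico_right hm hn), mul_assoc]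
  set K : ℝ := 4 * (6 * p + 2 * π) with hK
  have hK0 : 0 ≤ K := by positivity
  refine ⟨1 + (16 * π + K * 2), fun k n => (A k)⁻¹ * α k n, ?_, ?_, ?_⟩
  · filter_upwards [evT] with k hk
    simp only [norm_mul, ← mul_sum]
    have h1 : ∑ n ∈ Ico (blk k) (blk (k + 1)), ‖α k n‖ ≤ 16 * π := hk.coef
    have h2 := mul_le_mul (hinv k hk) h1 (sum_nonneg fun _ _ => norm_nonneg _) zero_le_one
    linarith
  · filter_upwards [evT, evE, (tendsto_err hp).eventually (ge_mem_nhds one_pos)]
      with k hk hE h1 m hm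
    rcases le_total m (blk k) with h | h
    · rw [Ico_eq_empty_of_le h, sum_empty, map_zero]
      positivity
    refine hq_le hp _ (by positivity) ?_
    have c1 := (diffOn_err (hw1 k) (blk k) m).continuousOn
    have c2 : ContinuousOn (fun z => log (1 - w k (blk k) * z) - log (1 - w k m * z)) (ball 0 1) :=
      ((diffOn_log (hw1 k _)).sub (diffOn_log (hw1 k _))).continuousOn
    have b1 := (hE m h hm).trans (ENNReal.ofReal_le_ofReal h1)
    have b2 : hardyNorm p (fun _ => ∑ n ∈ Ico (blk k) m, α k n) ≤ ENNReal.ofReal (16 * π) :=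
      hardyNorm_le_of_bound hp0 continuousOn_const (by positivity) fun _ _ =>
        (norm_sum_le _ _).trans ((sum_le_sum_of_subset_of_nonneg (Ico_subset_Ico_right hm)
          fun _ _ _ => norm_nonneg _).trans hk.coef)
    have b3 : hardyNorm p (fun z => log (1 - w k (blk k) * z) - log (1 - w k m * z))
        ≤ ENNReal.ofReal (K * 2) := by
      refine (hardyNorm_log_diff hp (hw1 k _) (hw1 k _)).trans (ENNReal.ofReal_le_ofReal ?_)
      refine mul_le_mul_of_nonneg_left ?_ hK0
      have n1 : ‖w k (blk k) - w k m‖ ≤ 2 := by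
        linarith [norm_sub_le (w k (blk k)) (w k m), hw1 k (blk k), hw1 k m]
      refine (Real.rpow_le_rpow (norm_nonneg _) n1 (by positivity)).trans ?_
      simpa using Real.rpow_le_rpow_of_exponent_le (x := 2) (y := 1 / (2 * p)) (z := 1)
        (by norm_num) (by rw [div_le_one (by positivity)]; linarith)
    have b4 := hardyNorm_add_le' hp c1 (continuousOn_const.add c2) zero_le_one (by positivity) b1
      (hardyNorm_add_le' hp continuousOn_const c2 (by positivity) (by positivity) b2 b3)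
    refine le_trans (hardyNorm_mono hp0 fun z hz => ?_) b4
    rw [hfun k m hm z hz, norm_mul]
    refine (mul_le_of_le_one_left (norm_nonneg _) (hinv k hk)).trans (le_of_eq ?_)
    congr 1
    simp only [err, hα, Pi.add_apply]
    ring
  · have t1 : Tendsto (fun k => K * (1 / (blk k : ℝ)) ^ (1 / (2 * p))) atTop (𝓝 0) := by
      have h1 : Tendsto (fun k => 1 / (blk k : ℝ)) atTop (𝓝 0) :=
        tendsto_one_div_atTop_nhds_zero_nat.comp blk_strictMono.tendsto_atTop
      have h2 := (h1.rpow_const_nhds_zero (show 0 < 1 / (2 * p) by positivity)).const_mul K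
      rwa [mul_zero] at h2
    have t2 := (tendsto_err hp).add t1
    rw [add_zero] at t2
    refine squeeze_zero' (Eventually.of_forall fun k => apply_nonneg _ _) ?_ t2
    filter_upwards [evT, evE] with k hk hE
    have e0 := hε0 k
    refine hq_le hp _ (by positivity) ?_
    have c1 := (diffOn_err (hw1 k) (blk k) (blk (k + 1))).continuousOn
    have c2 : ContinuousOn
        (fun z => log (1 - w k (blk k) * z) - log (1 - w k (blk (k + 1)) * z)) (ball 0 1) :=
      ((diffOn_log (hw1 k _)).sub (diffOn_log (hw1 k _))).continuousOn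
    have b1 := hE _ hk.hab le_rfl
    have b3 : hardyNorm p (fun z => log (1 - w k (blk k) * z) - log (1 - w k (blk (k + 1)) * z))
        ≤ ENNReal.ofReal (K * (1 / (blk k : ℝ)) ^ (1 / (2 * p))) := by
      refine (hardyNorm_log_diff hp (hw1 k _) (hw1 k _)).trans (ENNReal.ofReal_le_ofReal ?_)
      refine mul_le_mul_of_nonneg_left ?_ hK0
      refine Real.rpow_le_rpow (norm_nonneg _) ?_ (by positivity)
      rw [norm_sub_rev]
      exact hk.close
    have b4 := hardyNorm_add_le' hp c1 c2 e0 (by positivity) b1 b3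
    refine le_trans (hardyNorm_mono hp0 fun z hz => ?_) b4
    have hA0 : A k ≠ 0 := norm_pos_iff.1 (lt_of_lt_of_le one_pos hk.total)
    rw [Submodule.coe_sub, Pi.sub_apply, hfun k _ le_rfl z hz]
    have e1 : (one p hp : ℂ → ℂ) z
        - (A k)⁻¹ * ∑ n ∈ Ico (blk k) (blk (k + 1)), α k n * (1 - w k n * z)⁻¹
        = -((A k)⁻¹ * (err (w k) (blk k) (blk (k + 1)) z
          + (log (1 - w k (blk k) * z) - log (1 - w k (blk (k + 1)) * z)))) := by
      have e2 : err (w k) (blk k) (blk (k + 1)) z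
          + (log (1 - w k (blk k) * z) - log (1 - w k (blk (k + 1)) * z))
          = ∑ n ∈ Ico (blk k) (blk (k + 1)), α k n * (1 - w k n * z)⁻¹ - A k := by
        simp only [err, hα, hA]
        ring
      rw [e2, mul_sub, inv_mul_cancel₀ hA0, one_apply hp hz]
      ring
    rw [e1, norm_neg, norm_mul]
    exact mul_le_of_le_one_left (norm_nonneg _) (hinv k hk)

theorem shift_ker {p : ℝ} (hp : 1 ≤ p) (n : ℕ) :
    shift p hp (ker p hp n) = (conj (lam n))⁻¹ • (ker p hp n - one p hp) := by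
  ext z
  simp only [shift_apply, Submodule.coe_smul, Submodule.coe_sub, Pi.smul_apply,
    Pi.sub_apply, smul_eq_mul]
  by_cases hz : z ∈ ball (0 : ℂ) 1
  · have h0 : conj (lam n) ≠ 0 := by
      rw [← norm_pos_iff, Complex.norm_conj]
      linarith [half_le_norm_lam n]
    have h1 := one_sub_ne (w := conj (lam n)) (by rw [Complex.norm_conj]; exact norm_lam_lt n) hz
    rw [ker_apply hp n hz, one_apply hp hz, eq_inv_mul_iff_mul_eq₀ h0, ← mul_assoc,
      eq_sub_iff_add_eq, ← mul_inv_cancel₀ h1]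
    simp only [mul_inv_cancel₀ h1]
    rw [← mul_inv_cancel₀ h1]
    simp only [mul_inv_cancel₀ h1]
    field_simp
    ring
  · simp only [ker, one, Set.indicator_of_notMem hz]
    simp

theorem good_shift {p : ℝ} (hp : 1 ≤ p) {g : Hp p hp} (hg : Good (hq p hp) (ker p hp) blk g) :
    Good (hq p hp) (ker p hp) blk (shift p hp g) :=
  Good.shift (shift p hp) (hq_shift_le hp) (fun n => (conj (lam n))⁻¹)
    (fun n => by
      rw [norm_inv, Complex.norm_conj, inv_le_comm₀ (by linarith [half_le_norm_lam n]) two_pos]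
      linarith [half_le_norm_lam n])
    (shift_ker hp) (good_one hp) hg

theorem exists_monomial {p : ℝ} (hp : 1 ≤ p) (k : ℕ) :
    ∃ g : Hp p hp, Good (hq p hp) (ker p hp) blk g ∧
      ∀ z ∈ ball (0 : ℂ) 1, (g : ℂ → ℂ) z = z ^ k := by
  induction k with
  | zero => exact ⟨one p hp, good_one hp, fun z hz => by rw [one_apply hp hz, pow_zero]⟩
  | succ k ih =>
    obtain ⟨g, h1, h2⟩ := ih
    exact ⟨shift p hp g, good_shift hp h1, fun z hz => by rw [shift_apply, h2 z hz, pow_succ']⟩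

theorem good_dense {p : ℝ} (hp : 1 < p) (f : Hp p hp.le) (ε : ℝ) (hε : 0 < ε) :
    ∃ g, Good (hq p hp.le) (ker p hp.le) blk g ∧ hq p hp.le (f - g) ≤ ε := by
  obtain ⟨n, b, h⟩ := exists_poly hp f.2.1 f.2.2 hε
  choose g hg1 hg2 using exists_monomial hp.le
  refine ⟨∑ k ∈ range n, b k • g k, Good.sum _ _ fun k _ => (hg1 k).smul _, ?_⟩
  refine hq_le hp.le _ hε.le (le_trans (hardyNorm_mono (by linarith) fun z hz => le_of_eq ?_) h)
  rw [Submodule.coe_sub, Pi.sub_apply, Submodule.coe_sum, Finset.sum_apply]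
  congr 2
  refine sum_congr rfl fun k _ => ?_
  rw [Submodule.coe_smul, Pi.smul_apply, hg2 k z hz, smul_eq_mul]

theorem representing {p : ℝ} (hp : 1 < p) {f : ℂ → ℂ} (hf : DifferentiableOn ℂ f (ball 0 1))
    (hN : hardyNorm p f < ∞) :
    ∃ c : ℕ → ℂ, Tendsto
      (fun N => hardyNorm p fun z => f z - ∑ n ∈ range N, c n * (1 / (1 - conj (lam n) * z)))
      atTop (𝓝 0) := by
  obtain ⟨c, hc⟩ := exists_expansion (q := hq p hp.le) (x := ker p hp.le)
    blk_strictMono.monotone blk_strictMono.tendsto_atTop (good_dense hp) ⟨f, hf, hN⟩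
  refine ⟨c, ?_⟩
  have h1 := ENNReal.tendsto_ofReal hc
  rw [ENNReal.ofReal_zero] at h1
  refine tendsto_of_tendsto_of_tendsto_of_le_of_le tendsto_const_nhds h1
    (fun _ => zero_le) fun N => ?_
  simp only
  rw [hq_apply, ENNReal.ofReal_toReal (Subtype.property _ : _ ∈ Hp p hp.le).2.ne]
  refine hardyNorm_mono (by linarith) fun z hz => le_of_eq ?_
  rw [Submodule.coe_sub, Pi.sub_apply, Submodule.coe_sum, Finset.sum_apply]
  congr 2
  refine sum_congr rfl fun n _ => ?_
  rw [Submodule.coe_smul, Pi.smul_apply, ker_apply hp.le n hz, smul_eq_mul, one_div]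

end Pool.Agent.Lib.MP_459ac8_an
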