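import Pool.Agent.Lib.MP_459ac8_an.Space

/-!
The circle means of a holomorphic function increase with the radius.
-/

namespace Pool.Agent.Lib.MP_459ac8_an

open scoped ENNReal Real Topology
open MeasureTheory Metric Set Complex

theorem tangent_le {x y p : ℝ} (hx : 0 ≤ x) (hy : 0 ≤ y) (hp : 1 < p) :
    y ^ p + p * y ^ (p - 1) * (x - y) ≤ x ^ p := by
  rcases hy.eq_or_lt with rfl | hy
  · rw [Real.zero_rpow (by linarith), Real.zero_rpow (by linarith)]
    simpa using Real.rpow_nonneg hx p
  · have h := one_add_mul_self_le_rpow_one_add (s := x / y - 1)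
      (by have := div_nonneg hx hy.le; linarith) hp.le
    rw [add_sub_cancel, Real.div_rpow hx hy.le, le_div_iff₀ (Real.rpow_pos_of_pos hy p)] at h
    rw [Real.rpow_sub_one hy.ne']
    refine le_trans (le_of_eq ?_) h
    field_simp

theorem poisson_nonneg {u ζ : ℂ} (h : ‖u‖ ≤ ‖ζ‖) : 0 ≤ poissonKernel 0 u ζ := by
  rw [poissonKernel_def]
  simp only [sub_zero]
  refine div_nonneg ?_ (by positivity)
  nlinarith [norm_nonneg u]

theorem poisson_avg_inner {ζ : ℂ} {t : ℝ} (ht : 0 < t) (h : t < ‖ζ‖) :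
    Real.circleAverage (fun u => poissonKernel 0 u ζ) 0 t = 1 := by
  have hζ : ζ ≠ 0 := by rintro rfl; simp at h; linarith
  have hd : DifferentiableOn ℂ (fun u => (ζ + u) / (ζ - u)) (closedBall 0 |t|) := by
    refine DifferentiableOn.div (by fun_prop) (by fun_prop) fun u hu => ?_
    rw [abs_of_pos ht, mem_closedBall_zero_iff] at hu
    intro h0
    rw [sub_eq_zero] at h0
    rw [h0] at h
    linarith
  have hdc : DiffContOnCl ℂ (fun u => (ζ + u) / (ζ - u)) (ball 0 |t|) := by
    apply DifferentiableOn.diffContOnCl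
    rwa [closure_ball _ (abs_pos.2 ht.ne').ne']
  have h1 := hdc.circleAverage
  have hi : CircleIntegrable (fun u => (ζ + u) / (ζ - u)) 0 t :=
    (hd.continuousOn.mono (by rw [abs_of_pos ht]; exact sphere_subset_closedBall)).circleIntegrable
      ht.le
  have h2 := Complex.reCLM.circleAverage_comp_comm hi
  rw [h1] at h2
  have h3 : (fun u => poissonKernel 0 u ζ) = Complex.reCLM ∘ fun u => (ζ + u) / (ζ - u) := by
    ext u
    simp [poissonKernel_eq_re_herglotzRieszKernel, herglotzRieszKernel_def]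
  rw [h3, h2]
  simp [div_self hζ]

theorem poisson_contOn {u : ℂ} {s : ℝ} (hu : ‖u‖ < s) :
    ContinuousOn (poissonKernel 0 u) (sphere 0 s) := by
  have : poissonKernel 0 u = fun ζ => (‖ζ‖ ^ 2 - ‖u‖ ^ 2) / ‖ζ - u‖ ^ 2 := by
    ext ζ; simp [poissonKernel_def]
  rw [this]
  refine ContinuousOn.div (by fun_prop) (by fun_prop) fun ζ hζ => ?_
  rw [mem_sphere_zero_iff_norm] at hζ
  have : ζ - u ≠ 0 := by
    intro h0
    rw [sub_eq_zero] at h0
    rw [h0] at hζ
    linarith
  positivity

theorem jensen_pointwise {p : ℝ} (hp : 1 < p) {g : ℂ → ℂ} (hg : DifferentiableOn ℂ g (ball 0 1))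
    {s : ℝ} (hs : s ∈ Ioo (0 : ℝ) 1) {u : ℂ} (hu : ‖u‖ < s) :
    ‖g u‖ ^ p ≤ Real.circleAverage (fun ζ => poissonKernel 0 u ζ * ‖g ζ‖ ^ p) 0 s := by
  have hsub : sphere (0 : ℂ) s ⊆ ball 0 1 := sphere_subset_ball hs.2
  have hdc : DiffContOnCl ℂ g (ball 0 s) := by
    apply DifferentiableOn.diffContOnCl
    rw [closure_ball _ hs.1.ne']
    exact hg.mono (closedBall_subset_ball hs.2)
  have hu' : u ∈ ball (0 : ℂ) s := mem_ball_zero_iff.2 hu
  have h1 := hdc.circleAverage_poissonKernel_smul hu'
  have h2 : Real.circleAverage (poissonKernel 0 u) 0 s = 1 := by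
    have := (diffContOnCl_const (𝕜 := ℂ) (c := (1 : ℂ)) (s := ball (0 : ℂ) s)
      ).circleAverage_poissonKernel_smul hu'
    have hi : CircleIntegrable (poissonKernel 0 u) 0 s := (poisson_contOn hu).circleIntegrable hs.1.le
    have h3 := Complex.ofRealCLM.circleAverage_comp_comm hi
    have h4 : (poissonKernel 0 u • fun _ : ℂ => (1 : ℂ)) = Complex.ofRealCLM ∘ poissonKernel 0 u := by
      ext ζ; simp
    rw [h4, h3, Complex.ofRealCLM_apply] at this
    exact_mod_cast this
  have hP := poisson_contOn hu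
  have hgc : ContinuousOn g (sphere 0 s) := hg.continuousOn.mono hsub
  have hPn : ∀ ζ ∈ sphere (0 : ℂ) |s|, 0 ≤ poissonKernel 0 u ζ := by
    intro ζ hζ
    rw [abs_of_pos hs.1, mem_sphere_zero_iff_norm] at hζ
    exact poisson_nonneg (by linarith)
  have i1 : CircleIntegrable (fun ζ => poissonKernel 0 u ζ * ‖g ζ‖) 0 s :=
    (hP.mul hgc.norm).circleIntegrable hs.1.le
  have i0 : CircleIntegrable (poissonKernel 0 u) 0 s := hP.circleIntegrable hs.1.le
  have i2 : CircleIntegrable (fun ζ => poissonKernel 0 u ζ * ‖g ζ‖ ^ p) 0 s :=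
    (hP.mul (hgc.norm.rpow_const fun _ _ => Or.inr (by linarith))).circleIntegrable hs.1.le
  have h5 : ‖g u‖ ≤ Real.circleAverage (fun ζ => poissonKernel 0 u ζ * ‖g ζ‖) 0 s := by
    rw [← h1, Real.circleAverage_def, Real.circleAverage_def, norm_smul, smul_eq_mul,
      Real.norm_of_nonneg (by positivity)]
    gcongr
    refine (intervalIntegral.norm_integral_le_integral_norm (by positivity)).trans (le_of_eq ?_)
    refine intervalIntegral.integral_congr fun θ _ => ?_
    simp only [Pi.smul_apply', norm_smul]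
    rw [Real.norm_of_nonneg (hPn _ (circleMap_mem_sphere' 0 s θ))]
  set y := ‖g u‖ with hy
  have hy0 : 0 ≤ y := norm_nonneg _
  have hc : 0 ≤ p * y ^ (p - 1) := by have : 0 < p := by linarith
                                      positivity
  have h6 : Real.circleAverage (fun ζ => (y ^ p - p * y ^ (p - 1) * y) • poissonKernel 0 u ζ +
      (p * y ^ (p - 1)) • (poissonKernel 0 u ζ * ‖g ζ‖)) 0 s
      ≤ Real.circleAverage (fun ζ => poissonKernel 0 u ζ * ‖g ζ‖ ^ p) 0 s := by
    refine Real.circleAverage_mono ?_ i2 fun ζ hζ => ?_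
    · exact i0.const_smul.add i1.const_smul
    · have := mul_le_mul_of_nonneg_left (tangent_le (norm_nonneg (g ζ)) hy0 hp) (hPn ζ hζ)
      simp only [smul_eq_mul]
      linarith
  have j0 : CircleIntegrable
      (fun ζ => (y ^ p - p * y ^ (p - 1) * y) • poissonKernel 0 u ζ) 0 s := i0.const_smul
  have j1 : CircleIntegrable
      (fun ζ => (p * y ^ (p - 1)) • (poissonKernel 0 u ζ * ‖g ζ‖)) 0 s := i1.const_smul
  rw [Real.circleAverage_fun_add j0 j1,
    Real.circleAverage_fun_smul, Real.circleAverage_fun_smul, h2] at h6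
  simp only [smul_eq_mul] at h6
  nlinarith [mul_le_mul_of_nonneg_left h5 hc]

theorem mean_mono {p : ℝ} (hp : 1 < p) {g : ℂ → ℂ} (hg : DifferentiableOn ℂ g (ball 0 1))
    {s t : ℝ} (ht : 0 < t) (hts : t ≤ s) (hs : s < 1) : mean p g t ≤ mean p g s := by
  rcases hts.eq_or_lt with rfl | hts
  · exact le_rfl
  have hs' : s ∈ Ioo (0 : ℝ) 1 := ⟨ht.trans hts, hs⟩
  have hp0 : 0 ≤ p := by linarith
  have hgc := cont_circle (contOn_pow hg.continuousOn hp0) (abs_lt_one_of_mem hs')
  set F : ℝ → ℝ → ℝ := fun φ θ =>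
    poissonKernel 0 (circleMap 0 t φ) (circleMap 0 s θ) * ‖g (circleMap 0 s θ)‖ ^ p with hF
  have hFc : Continuous F.uncurry := by
    refine Continuous.mul ?_ (hgc.comp continuous_snd)
    simp only [poissonKernel_def, sub_zero]
    have c1 : Continuous fun x : ℝ × ℝ => circleMap 0 t x.1 :=
      (continuous_circleMap 0 t).comp continuous_fst
    have c2 : Continuous fun x : ℝ × ℝ => circleMap 0 s x.2 :=
      (continuous_circleMap 0 s).comp continuous_snd
    refine Continuous.div (by fun_prop) (by fun_prop) fun x => ?_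
    have : circleMap 0 s x.2 - circleMap 0 t x.1 ≠ 0 := by
      intro h0
      rw [sub_eq_zero] at h0
      have := congrArg norm h0
      rw [norm_circleMap_zero, norm_circleMap_zero, abs_of_pos ht, abs_of_pos hs'.1] at this
      linarith
    positivity
  have hint : IntegrableOn F.uncurry (uIoc 0 (2 * π) ×ˢ uIoc 0 (2 * π)) := by
    refine (hFc.continuousOn.integrableOn_compact
      (isCompact_uIcc.prod isCompact_uIcc) (K := uIcc 0 (2 * π) ×ˢ uIcc 0 (2 * π))).mono_set ?_
    exact Set.prod_mono uIoc_subset_uIcc uIoc_subset_uIcc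
  have hsw := intervalIntegral_intervalIntegral_swap hint
  have h1 : mean p g t ≤ (2 * π)⁻¹ * ∫ φ in 0..2 * π, (2 * π)⁻¹ * ∫ θ in 0..2 * π, F φ θ := by
    rw [mean, Real.circleAverage_def, smul_eq_mul]
    gcongr
    refine intervalIntegral.integral_mono_on (by positivity) ?_ ?_ fun φ _ => ?_
    · exact (cont_circle (contOn_pow hg.continuousOn hp0)
        (by rw [abs_of_pos ht]; linarith)).intervalIntegrable _ _
    · exact (continuous_const.mul
        (intervalIntegral.continuous_parametric_intervalIntegral_of_continuous' hFc _ _)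
        ).intervalIntegrable _ _
    · exact jensen_pointwise hp hg hs' (by rw [norm_circleMap_zero, abs_of_pos ht]; exact hts)
  rw [intervalIntegral.integral_const_mul, hsw, ← intervalIntegral.integral_const_mul] at h1
  refine h1.trans (le_of_eq ?_)
  rw [mean, Real.circleAverage_def, smul_eq_mul]
  congr 1
  refine intervalIntegral.integral_congr fun θ _ => ?_
  have := poisson_avg_inner (ζ := circleMap 0 s θ) ht
    (by rw [norm_circleMap_zero, abs_of_pos hs'.1]; exact hts)
  rw [Real.circleAverage_def, smul_eq_mul] at this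
  simp only [hF]
  rw [intervalIntegral.integral_mul_const, ← mul_assoc, this, one_mul]

end Pool.Agent.Lib.MP_459ac8_an
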