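import Pool.Agent.Lib.MP_459ac8_an.Spiral

/-!
The sequence of points, its density, and the numerical estimates along the blocks.
-/

namespace Pool.Agent.Lib.MP_459ac8_an

open scoped ENNReal Real Topology NNReal ComplexConjugate
open MeasureTheory Metric Complex Filter Finset

/-- block endpoints -/
def blk (k : ℕ) : ℕ := 2 ^ 2 ^ k

/-- block index -/
def idx (n : ℕ) : ℕ := Nat.log 2 (Nat.log 2 n)

/-- angular speed in block `k` -/
noncomputable def spd (k : ℕ) : ℝ := 2 * π / (2 ^ k * Real.log 2)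

/-- the points -/
noncomputable def lam (n : ℕ) : ℂ := conj (pt ((idx n : ℝ) + 2) (spd (idx n)) n)

theorem blk_strictMono : StrictMono blk := fun _ _ h =>
  Nat.pow_lt_pow_right (by norm_num) (Nat.pow_lt_pow_right (by norm_num) h)

theorem idx_eq {k n : ℕ} (hn : n ∈ Ico (blk k) (blk (k + 1))) : idx n = k := by
  obtain ⟨h1, h2⟩ := mem_Ico.1 hn
  have hn0 : n ≠ 0 := by
    have : 0 < blk k := by unfold blk; positivity
    omega
  refine Nat.log_eq_of_pow_le_of_lt_pow ?_ ?_
  · exact Nat.le_log_of_pow_le (by norm_num) h1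
  · exact Nat.log_lt_of_lt_pow hn0 h2

theorem idx_mono : Monotone idx := fun _ _ h => Nat.log_mono_right (Nat.log_mono_right h)

theorem le_idx {k n : ℕ} (hn : blk k ≤ n) : k ≤ idx n := by
  have h := idx_mono hn
  rwa [idx_eq (k := k) (mem_Ico.2 ⟨le_rfl, blk_strictMono (Nat.lt_succ_self k)⟩)] at h

theorem two_le (k : ℕ) : (2 : ℝ) ≤ (k : ℝ) + 2 := by
  have : (0 : ℝ) ≤ k := Nat.cast_nonneg k
  linarith

theorem norm_lam (n : ℕ) : ‖lam n‖ = 1 - 1 / (((idx n : ℝ) + 2) * (n + 1)) := by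
  rw [lam, Complex.norm_conj, norm_pt (two_le _), gap]

theorem norm_lam_lt (n : ℕ) : ‖lam n‖ < 1 := by
  rw [lam, Complex.norm_conj]; exact norm_pt_lt (two_le _) n

theorem half_le_norm_lam (n : ℕ) : 1 / 2 ≤ ‖lam n‖ := by
  rw [lam, Complex.norm_conj]; exact half_le_norm_pt (two_le _) n

theorem lam_injective : Function.Injective lam := by
  have : StrictMono fun n => ‖lam n‖ := by
    intro m n h
    simp only [norm_lam]
    have h1 : (idx m : ℝ) ≤ idx n := by exact_mod_cast idx_mono h.le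
    have h2 : (m : ℝ) < n := by exact_mod_cast h
    have h3 : (0 : ℝ) ≤ idx m := Nat.cast_nonneg _
    have h4 : (0 : ℝ) ≤ m := Nat.cast_nonneg _
    have : 1 / (((idx n : ℝ) + 2) * (n + 1)) < 1 / (((idx m : ℝ) + 2) * (m + 1)) :=
      one_div_lt_one_div_of_lt (by positivity) (by nlinarith)
    linarith
  intro m n h
  exact this.injective (by simp only [h])

theorem density_lam : upperDensity (Set.range lam) = 0 := by
  refine Filter.Tendsto.limsup_eq ?_
  rw [ENNReal.tendsto_nhds_zero]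
  intro ε hε
  obtain ⟨η, hη0, hη⟩ : ∃ η : ℝ, 0 < η ∧ ENNReal.ofReal η ≤ ε := by
    obtain ⟨η, -, h1, h2⟩ := ENNReal.lt_iff_exists_real_btwn.1 hε
    exact ⟨η, ENNReal.ofReal_pos.1 h1, h2.le⟩
  obtain ⟨k, hk⟩ := exists_nat_gt (2 / η)
  have hb : (0 : ℝ) < blk k := by unfold blk; positivity
  have ev : ∀ᶠ r : ℝ in 𝓝[<] 1, r ∈ Set.Ioo (1 - η / (2 * blk k)) 1 :=
    Ioo_mem_nhdsLT (by have : 0 < η / (2 * blk k) := by positivity
                       linarith)
  filter_upwards [ev] with r hr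
  have hr0 : 0 < 1 - r := by linarith [hr.2]
  set N : ℕ := blk k + ⌊η / (2 * (1 - r))⌋₊ with hN
  have hsub : Set.range lam ∩ ball (0 : ℂ) r ⊆ lam '' (range N : Set ℕ) := by
    rintro _ ⟨⟨n, rfl⟩, hn⟩
    refine ⟨n, ?_, rfl⟩
    rw [mem_ball_zero_iff, norm_lam] at hn
    rw [coe_range, Set.mem_Iio]
    by_contra hc
    push Not at hc
    have h1 : (k : ℝ) ≤ idx n := by exact_mod_cast le_idx (le_trans (Nat.le_add_right _ _) hc)
    have h2 : η / (2 * (1 - r)) < n + 1 := by
      have h3 : (⌊η / (2 * (1 - r))⌋₊ : ℝ) ≤ n := by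
        exact_mod_cast le_trans (Nat.le_add_left _ _) hc
      linarith [Nat.lt_floor_add_one (η / (2 * (1 - r)))]
    have h0 : (0 : ℝ) ≤ n := Nat.cast_nonneg n
    have h4 : 1 - r < 1 / (((idx n : ℝ) + 2) * (n + 1)) := by linarith
    rw [lt_div_iff₀ (by positivity)] at h4
    rw [div_lt_iff₀ (by positivity)] at h2
    rw [div_lt_iff₀ hη0] at hk
    have h5 : (0 : ℝ) ≤ k := Nat.cast_nonneg k
    have h6 : k * ((n + 1) * (1 - r)) ≤ (1 - r) * (((idx n : ℝ) + 2) * (n + 1)) := by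
      have : 0 ≤ ((n : ℝ) + 1) * (1 - r) := by positivity
      nlinarith
    nlinarith
  have hcard : (Set.range lam ∩ ball (0 : ℂ) r).encard ≤ N := by
    refine (Set.encard_le_encard hsub).trans ((Set.encard_image_le _ _).trans ?_)
    rw [Set.encard_coe_eq_coe_finsetCard, card_range]
  have hcard' : ((Set.range lam ∩ ball (0 : ℂ) r).encard : ℝ≥0∞) ≤ ENNReal.ofReal N := by
    rw [ENNReal.ofReal_natCast]
    exact_mod_cast ENat.toENNReal_le.2 hcard
  refine (mul_le_mul_right hcard' _).trans (le_trans ?_ hη)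
  rw [← ENNReal.ofReal_mul hr0.le]
  refine ENNReal.ofReal_le_ofReal ?_
  have h1 : (⌊η / (2 * (1 - r))⌋₊ : ℝ) ≤ η / (2 * (1 - r)) := Nat.floor_le (by positivity)
  have h2 : 1 - r < η / (2 * blk k) := by linarith [hr.1]
  rw [lt_div_iff₀ (by positivity)] at h2
  rw [le_div_iff₀ (by positivity)] at h1
  rw [hN]
  push_cast
  nlinarith

theorem spd_pos (k : ℕ) : 0 < spd k := by
  have := Real.log_pos (show (1 : ℝ) < 2 by norm_num)
  unfold spd
  positivity

theorem ang_blk (k j : ℕ) : ang (spd k) (blk j) = 2 * π * 2 ^ j / 2 ^ k := by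
  have := Real.log_pos (show (1 : ℝ) < 2 by norm_num)
  unfold ang spd blk
  push_cast
  rw [Real.log_pow]
  push_cast
  field_simp

theorem turn_blk {k : ℕ} (hk : 4 ≤ k) : Turn ((k : ℝ) + 2) (spd k) (blk k) (blk (k + 1)) := by
  have hl := Real.log_two_gt_d9
  have hl' := Real.log_two_lt_d9
  have hpi := Real.pi_gt_three
  have hpi' := Real.pi_lt_four
  refine ⟨two_le k, (spd_pos k).le, ?_, Nat.one_le_two_pow,
    (blk_strictMono (Nat.lt_succ_self k)).le, ?_, ?_⟩
  · have h1 : (2 : ℝ) ^ 4 ≤ 2 ^ k := pow_le_pow_right₀ (by norm_num) hk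
    rw [spd, div_le_one (by positivity)]
    nlinarith
  · have h1 : ((2 : ℝ) ^ k) ≤ blk k := by
      have : 2 ^ k ≤ blk k := (Nat.lt_two_pow_self).le
      exact_mod_cast this
    have h2 : (0 : ℝ) < 2 ^ k := by positivity
    rw [spd, div_mul_eq_mul_div, le_div_iff₀ (by positivity)]
    nlinarith
  · rw [ang_blk, ang_blk, pow_succ]
    field_simp
    ring

theorem log_blk_le (k : ℕ) :
    Real.log (1 + ((k : ℝ) + 2) * (blk (k + 1) + 1)) ≤ 8 * (2 ^ k * Real.log 2) := by
  have h1 : 1 + (k + 2) * (blk (k + 1) + 1) ≤ 2 ^ (8 * 2 ^ k) := by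
    have a1 : k < 2 ^ k := Nat.lt_two_pow_self
    have a2 : k + 2 ≤ 2 ^ (k + 1) := by rw [pow_succ]; omega
    have a3 : 1 ≤ blk (k + 1) := Nat.one_le_two_pow
    have a4 : 1 + (k + 2) * (blk (k + 1) + 1) ≤ 4 * (2 ^ (k + 1) * blk (k + 1)) := by nlinarith
    refine a4.trans ?_
    rw [blk, ← pow_add, show 4 = 2 ^ 2 by norm_num, ← pow_add]
    refine Nat.pow_le_pow_right (by norm_num) ?_
    rw [pow_succ]
    omega
  have h2 : (1 : ℝ) + ((k : ℝ) + 2) * (blk (k + 1) + 1) ≤ 2 ^ (8 * 2 ^ k) := by exact_mod_cast h1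
  refine (Real.log_le_log (by positivity) h2).trans (le_of_eq ?_)
  rw [Real.log_pow]
  push_cast
  ring

/-- relative step size in block `k` -/
noncomputable def dl (k : ℕ) : ℝ := 4 * spd k * ((k : ℝ) + 2)

/-- the sup bound in block `k` -/
noncomputable def tt (k : ℕ) : ℝ :=
  8 * spd k * ((k : ℝ) + 2) + 48 * π * Real.log (1 + ((k : ℝ) + 2) * (blk (k + 1) + 1))

theorem dl_pos (k : ℕ) : 0 < dl k := by
  have := spd_pos k
  unfold dl
  positivity

theorem tendsto_poly (q : ℕ) :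
    Tendsto (fun k : ℕ => ((k : ℝ) + 2) ^ q / 2 ^ k) atTop (𝓝 0) := by
  have h := ((tendsto_pow_const_div_const_pow_of_one_lt q (show (1 : ℝ) < 2 by norm_num)).comp
    (tendsto_add_atTop_nat 2)).const_mul 4
  rw [mul_zero] at h
  refine h.congr fun k => ?_
  simp only [Function.comp_apply]
  push_cast
  rw [pow_add]
  field_simp
  norm_num

theorem dl_eq (k : ℕ) : dl k = 8 * π / Real.log 2 * (((k : ℝ) + 2) / 2 ^ k) := by
  have := Real.log_pos (show (1 : ℝ) < 2 by norm_num)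
  unfold dl spd
  field_simp
  norm_num

theorem tendsto_dl : Tendsto dl atTop (𝓝 0) := by
  have h := (tendsto_poly 1).const_mul (8 * π / Real.log 2)
  rw [mul_zero] at h
  refine h.congr fun k => ?_
  rw [dl_eq, pow_one]

theorem dl_tt_le {k : ℕ} (hk : dl k ≤ 1 / 2) : dl k * tt k ≤ (1 + 3072 * π ^ 2) * ((k : ℝ) + 2) := by
  have hl := Real.log_pos (show (1 : ℝ) < 2 by norm_num)
  have hpi := Real.pi_pos
  have h0 := dl_pos k
  have h1 : tt k ≤ 2 * dl k + 48 * π * (8 * (2 ^ k * Real.log 2)) := by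
    have := mul_le_mul_of_nonneg_left (log_blk_le k) (show 0 ≤ 48 * π by positivity)
    unfold tt dl
    linarith
  have h2 : dl k * (48 * π * (8 * (2 ^ k * Real.log 2))) = 3072 * π ^ 2 * ((k : ℝ) + 2) := by
    rw [dl_eq]
    field_simp
    norm_num
  have h3 := mul_le_mul_of_nonneg_left h1 h0.le
  have h4 := two_le k
  nlinarith

theorem tt_nonneg (k : ℕ) : 0 ≤ tt k := by
  have := spd_pos k
  have hlog : 0 ≤ Real.log (1 + ((k : ℝ) + 2) * (blk (k + 1) + 1)) :=
    Real.log_nonneg (le_add_of_nonneg_right (by positivity))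
  unfold tt
  positivity

theorem tendsto_err {p : ℝ} (hp : 1 ≤ p) :
    Tendsto (fun k => ((dl k * tt k) ^ (p - 1) * (dl k * (8 * π))) ^ (1 / p)) atTop (𝓝 0) := by
  have hp0 : 0 < p := by linarith
  have hpi := Real.pi_pos
  have hl := Real.log_pos (show (1 : ℝ) < 2 by norm_num)
  refine Filter.Tendsto.rpow_const_nhds_zero ?_ (by positivity)
  set q : ℕ := ⌈p⌉₊ with hq
  set C : ℝ := 1 + 3072 * π ^ 2 with hC
  have hC1 : 1 ≤ C := le_add_of_nonneg_right (by positivity)
  have h := (tendsto_poly (q + 1)).const_mul (C ^ q * (8 * π / Real.log 2) * (8 * π))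
  rw [mul_zero] at h
  refine squeeze_zero' (Eventually.of_forall fun k => ?_) ?_ h
  · have := dl_pos k
    have := tt_nonneg k
    positivity
  · filter_upwards [tendsto_dl.eventually (ge_mem_nhds (show (0 : ℝ) < 1 / 2 by norm_num))]
      with k hk
    have h0 := dl_pos k
    have h1 := tt_nonneg k
    have h2 := two_le k
    have h3 : (dl k * tt k) ^ (p - 1) ≤ (C * ((k : ℝ) + 2)) ^ q := by
      refine (Real.rpow_le_rpow (by positivity) (dl_tt_le hk) (by linarith)).trans ?_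
      rw [← Real.rpow_natCast (C * ((k : ℝ) + 2)) q]
      have h4 : 1 ≤ C * ((k : ℝ) + 2) := by nlinarith
      refine Real.rpow_le_rpow_of_exponent_le h4 ?_
      linarith [Nat.le_ceil p]
    refine (mul_le_mul_of_nonneg_right h3 (by positivity)).trans (le_of_eq ?_)
    rw [dl_eq, mul_pow, pow_succ]
    ring

end Pool.Agent.Lib.MP_459ac8_an
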