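import Pool.Agent.Lib.MP_459ac8_an.Defs

/-!
The Hardy space as a submodule with a seminorm, and the link with real circle averages.
-/

namespace Pool.Agent.Lib.MP_459ac8_an

open scoped ENNReal Real Topology
open MeasureTheory Metric Set Complex

/-- the real `p`-th power mean on the circle of radius `r` -/
noncomputable def mean (p : ℝ) (f : ℂ → ℂ) (r : ℝ) : ℝ :=
  Real.circleAverage (fun z => ‖f z‖ ^ p) 0 r

theorem circle_mem_ball {r : ℝ} (hr : |r| < 1) (θ : ℝ) : circleMap 0 r θ ∈ ball (0 : ℂ) 1 := by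
  simpa [mem_ball_zero_iff, norm_circleMap_zero] using hr

theorem sphere_sub_ball {r : ℝ} (hr : |r| < 1) : sphere (0 : ℂ) |r| ⊆ ball (0 : ℂ) 1 :=
  sphere_subset_ball hr

theorem abs_lt_one_of_mem {r : ℝ} (hr : r ∈ Ioo (0 : ℝ) 1) : |r| < 1 := by
  rw [abs_of_pos hr.1]; exact hr.2

theorem cont_circle {E : Type*} [TopologicalSpace E] {f : ℂ → E}
    (hf : ContinuousOn f (ball 0 1)) {r : ℝ} (hr : |r| < 1) :
    Continuous fun θ => f (circleMap 0 r θ) :=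
  hf.comp_continuous (continuous_circleMap 0 r) (circle_mem_ball hr)

theorem circInt {E : Type*} [NormedAddCommGroup E] {f : ℂ → E}
    (hf : ContinuousOn f (ball 0 1)) {r : ℝ} (hr : |r| < 1) : CircleIntegrable f 0 r :=
  (cont_circle hf hr).intervalIntegrable _ _

theorem contOn_pow {f : ℂ → ℂ} (hf : ContinuousOn f (ball 0 1)) {p : ℝ} (hp : 0 ≤ p) :
    ContinuousOn (fun z => ‖f z‖ ^ p) (ball 0 1) :=
  hf.norm.rpow_const fun _ _ => Or.inr hp

theorem mean_nonneg (p : ℝ) (f : ℂ → ℂ) (r : ℝ) : 0 ≤ mean p f r :=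
  Real.circleAverage_nonneg_of_nonneg fun _ _ => by positivity

theorem bridge {p : ℝ} (hp : 0 ≤ p) {f : ℂ → ℂ} (hf : ContinuousOn f (ball 0 1)) {r : ℝ}
    (hr : |r| < 1) :
    (ENNReal.ofReal (2 * π))⁻¹ *
      ∫⁻ θ in Set.Ioc (0 : ℝ) (2 * π), ‖f (r * Complex.exp (θ * Complex.I))‖ₑ ^ p
      = ENNReal.ofReal (mean p f r) := by
  have hc := cont_circle (contOn_pow hf hp) hr
  rw [mean, Real.circleAverage_def, smul_eq_mul,
    ENNReal.ofReal_mul (p := (2 * π)⁻¹) (by positivity),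
    ENNReal.ofReal_inv_of_pos (by positivity),
    intervalIntegral.integral_of_le (by positivity),
    ofReal_integral_eq_lintegral_ofReal (hc.integrableOn_Icc.mono_set Ioc_subset_Icc_self)
      (Filter.Eventually.of_forall fun θ => by positivity)]
  congr 1
  refine lintegral_congr fun θ => ?_
  rw [circleMap_zero, ← ENNReal.ofReal_rpow_of_nonneg (norm_nonneg _) hp, ofReal_norm]

theorem hardyNorm_eq {p : ℝ} (hp : 0 < p) {f : ℂ → ℂ} (hf : ContinuousOn f (ball 0 1)) :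
    hardyNorm p f = ⨆ r ∈ Set.Ioo (0 : ℝ) 1, ENNReal.ofReal (mean p f r ^ (1 / p)) := by
  refine iSup_congr fun r => iSup_congr fun hr => ?_
  rw [bridge hp.le hf (abs_lt_one_of_mem hr),
    ENNReal.ofReal_rpow_of_nonneg (mean_nonneg p f r) (by positivity)]

theorem hardyNorm_le_of_mean {p : ℝ} (hp : 0 < p) {f : ℂ → ℂ} (hf : ContinuousOn f (ball 0 1))
    {C : ℝ} (h : ∀ r ∈ Ioo (0 : ℝ) 1, mean p f r ≤ C) :
    hardyNorm p f ≤ ENNReal.ofReal (C ^ (1 / p)) := by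
  rw [hardyNorm_eq hp hf]
  refine iSup₂_le fun r hr => ENNReal.ofReal_le_ofReal ?_
  exact Real.rpow_le_rpow (mean_nonneg p f r) (h r hr) (by positivity)

theorem mean_le_of_hardyNorm {p : ℝ} (hp : 0 < p) {f : ℂ → ℂ} (hf : ContinuousOn f (ball 0 1))
    (h : hardyNorm p f < ∞) {r : ℝ} (hr : r ∈ Ioo (0 : ℝ) 1) :
    mean p f r ≤ (hardyNorm p f).toReal ^ p := by
  have h1 : ENNReal.ofReal (mean p f r ^ (1 / p)) ≤ hardyNorm p f := by
    rw [hardyNorm_eq hp hf]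
    exact le_iSup₂ (f := fun r (_ : r ∈ Ioo (0 : ℝ) 1) =>
      ENNReal.ofReal (mean p f r ^ (1 / p))) r hr
  have h2 : mean p f r ^ (1 / p) ≤ (hardyNorm p f).toReal :=
    (ENNReal.ofReal_le_iff_le_toReal h.ne).1 h1
  have h3 := Real.rpow_le_rpow (Real.rpow_nonneg (mean_nonneg p f r) _) h2 hp.le
  rwa [← Real.rpow_mul (mean_nonneg p f r), one_div_mul_cancel hp.ne', Real.rpow_one] at h3

theorem hardyNorm_add_le {p : ℝ} (hp : 1 ≤ p) {f g : ℂ → ℂ} (hf : ContinuousOn f (ball 0 1))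
    (hg : ContinuousOn g (ball 0 1)) : hardyNorm p (f + g) ≤ hardyNorm p f + hardyNorm p g := by
  refine iSup₂_le fun r hr => ?_
  have hp0 : 0 ≤ 1 / p := by positivity
  have mf : AEMeasurable (fun θ : ℝ => ‖f (r * Complex.exp (θ * Complex.I))‖ₑ)
      (volume.restrict (Set.Ioc (0 : ℝ) (2 * π))) := by
    have := (cont_circle hf (abs_lt_one_of_mem hr)).enorm.aemeasurable
      (μ := volume.restrict (Set.Ioc (0 : ℝ) (2 * π)))
    simpa only [circleMap_zero] using this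
  have mg : AEMeasurable (fun θ : ℝ => ‖g (r * Complex.exp (θ * Complex.I))‖ₑ)
      (volume.restrict (Set.Ioc (0 : ℝ) (2 * π))) := by
    have := (cont_circle hg (abs_lt_one_of_mem hr)).enorm.aemeasurable
      (μ := volume.restrict (Set.Ioc (0 : ℝ) (2 * π)))
    simpa only [circleMap_zero] using this
  have key := ENNReal.lintegral_Lp_add_le mf mg hp
  have h1 : (∫⁻ θ in Set.Ioc (0 : ℝ) (2 * π),
      ‖(f + g) (r * Complex.exp (θ * Complex.I))‖ₑ ^ p) ^ (1 / p) ≤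
      (∫⁻ θ in Set.Ioc (0 : ℝ) (2 * π), ‖f (r * Complex.exp (θ * Complex.I))‖ₑ ^ p) ^ (1 / p) +
      (∫⁻ θ in Set.Ioc (0 : ℝ) (2 * π), ‖g (r * Complex.exp (θ * Complex.I))‖ₑ ^ p) ^ (1 / p) := by
    refine le_trans ?_ key
    gcongr with θ
    exact enorm_add_le _ _
  rw [ENNReal.mul_rpow_of_nonneg _ _ hp0]
  refine (mul_le_mul_right h1 _).trans ?_
  rw [mul_add, ← ENNReal.mul_rpow_of_nonneg _ _ hp0, ← ENNReal.mul_rpow_of_nonneg _ _ hp0]
  exact add_le_add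
    (le_iSup₂ (f := fun (r : ℝ) (_ : r ∈ Ioo (0 : ℝ) 1) => ((ENNReal.ofReal (2 * π))⁻¹ *
      ∫⁻ θ in Set.Ioc (0 : ℝ) (2 * π),
        ‖f (r * Complex.exp (θ * Complex.I))‖ₑ ^ p) ^ (1 / p)) r hr)
    (le_iSup₂ (f := fun (r : ℝ) (_ : r ∈ Ioo (0 : ℝ) 1) => ((ENNReal.ofReal (2 * π))⁻¹ *
      ∫⁻ θ in Set.Ioc (0 : ℝ) (2 * π),
        ‖g (r * Complex.exp (θ * Complex.I))‖ₑ ^ p) ^ (1 / p)) r hr)

theorem hardyNorm_smul {p : ℝ} (hp : 0 < p) (s : ℂ) (f : ℂ → ℂ) :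
    hardyNorm p (s • f) = ‖s‖ₑ * hardyNorm p f := by
  have hp0 : 0 ≤ 1 / p := by positivity
  unfold hardyNorm
  rw [ENNReal.mul_iSup]
  refine iSup_congr fun r => ?_
  rw [ENNReal.mul_iSup]
  refine iSup_congr fun hr => ?_
  have : ∀ θ : ℝ, ‖(s • f) (r * Complex.exp (θ * Complex.I))‖ₑ ^ p
      = ‖s‖ₑ ^ p * ‖f (r * Complex.exp (θ * Complex.I))‖ₑ ^ p := by
    intro θ
    rw [Pi.smul_apply, enorm_smul, ENNReal.mul_rpow_of_nonneg _ _ hp.le]
  simp_rw [this]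
  rw [lintegral_const_mul' _ _ (ENNReal.rpow_ne_top_of_nonneg hp.le enorm_ne_top),
    mul_left_comm, ENNReal.mul_rpow_of_nonneg _ _ hp0, ← ENNReal.rpow_mul,
    mul_one_div_cancel hp.ne', ENNReal.rpow_one]

theorem hardyNorm_mono {p : ℝ} (hp : 0 < p) {f g : ℂ → ℂ}
    (h : ∀ z ∈ ball (0 : ℂ) 1, ‖f z‖ ≤ ‖g z‖) : hardyNorm p f ≤ hardyNorm p g := by
  refine iSup₂_mono fun r hr => ?_
  gcongr with θ
  have := h _ (circle_mem_ball (abs_lt_one_of_mem hr) θ)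
  rw [circleMap_zero] at this
  rw [← ofReal_norm, ← ofReal_norm]
  exact ENNReal.ofReal_le_ofReal this

theorem hardyNorm_le_of_bound {p : ℝ} (hp : 0 < p) {f : ℂ → ℂ} (hf : ContinuousOn f (ball 0 1))
    {C : ℝ} (hC : 0 ≤ C) (h : ∀ z ∈ ball (0 : ℂ) 1, ‖f z‖ ≤ C) :
    hardyNorm p f ≤ ENNReal.ofReal C := by
  have := hardyNorm_le_of_mean hp hf (C := C ^ p) fun r hr =>
    Real.circleAverage_mono_on_of_le_circle (circInt (contOn_pow hf hp.le) (abs_lt_one_of_mem hr))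
      fun z hz => Real.rpow_le_rpow (norm_nonneg _)
        (h z (sphere_sub_ball (abs_lt_one_of_mem hr) hz)) hp.le
  rwa [← Real.rpow_mul hC, mul_one_div_cancel hp.ne', Real.rpow_one] at this

/-- the Hardy space -/
def Hp (p : ℝ) (hp : 1 ≤ p) : Submodule ℂ (ℂ → ℂ) where
  carrier := {f | DifferentiableOn ℂ f (ball 0 1) ∧ hardyNorm p f < ∞}
  add_mem' := fun {f g} hf hg => ⟨hf.1.add hg.1,
    (hardyNorm_add_le hp hf.1.continuousOn hg.1.continuousOn).trans_lt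
      (ENNReal.add_lt_top.2 ⟨hf.2, hg.2⟩)⟩
  zero_mem' := ⟨differentiableOn_const 0,
    (hardyNorm_le_of_bound (by linarith) (f := 0) continuousOn_const le_rfl
      (by simp)).trans_lt ENNReal.ofReal_lt_top⟩
  smul_mem' := fun s f hf => ⟨hf.1.const_smul s, by
    rw [hardyNorm_smul (by linarith)]
    exact ENNReal.mul_lt_top enorm_lt_top hf.2⟩

theorem mem_Hp_of_bound {p : ℝ} (hp : 1 ≤ p) {f : ℂ → ℂ} (hf : DifferentiableOn ℂ f (ball 0 1))
    {C : ℝ} (h : ∀ z ∈ ball (0 : ℂ) 1, ‖f z‖ ≤ C) : f ∈ Hp p hp :=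
  ⟨hf, (hardyNorm_le_of_bound (by linarith) hf.continuousOn
    ((norm_nonneg _).trans (h 0 (by simp))) h).trans_lt ENNReal.ofReal_lt_top⟩

/-- the norm of the Hardy space, as a seminorm -/
noncomputable def hq (p : ℝ) (hp : 1 ≤ p) : Seminorm ℂ (Hp p hp) :=
  Seminorm.of (fun f => (hardyNorm p (f : ℂ → ℂ)).toReal)
    (fun f g => by
      rw [← ENNReal.toReal_add f.2.2.ne g.2.2.ne]
      exact ENNReal.toReal_mono (ENNReal.add_ne_top.2 ⟨f.2.2.ne, g.2.2.ne⟩)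
        (hardyNorm_add_le hp f.2.1.continuousOn g.2.1.continuousOn))
    (fun s f => by
      rw [Submodule.coe_smul, hardyNorm_smul (by linarith), ENNReal.toReal_mul, toReal_enorm])

theorem hq_apply {p : ℝ} (hp : 1 ≤ p) (f : Hp p hp) :
    hq p hp f = (hardyNorm p (f : ℂ → ℂ)).toReal := rfl

theorem hq_le {p : ℝ} (hp : 1 ≤ p) (f : Hp p hp) {C : ℝ} (hC : 0 ≤ C)
    (h : hardyNorm p (f : ℂ → ℂ) ≤ ENNReal.ofReal C) : hq p hp f ≤ C :=
  ENNReal.toReal_le_of_le_ofReal hC h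

/-- multiplication by `z` -/
noncomputable def shift (p : ℝ) (hp : 1 ≤ p) : Hp p hp →ₗ[ℂ] Hp p hp where
  toFun f := ⟨fun z => z * (f : ℂ → ℂ) z, differentiableOn_id.mul f.2.1,
    (hardyNorm_mono (by linarith) fun z hz => by
      rw [norm_mul]
      exact mul_le_of_le_one_left (norm_nonneg _) (mem_ball_zero_iff.1 hz).le).trans_lt f.2.2⟩
  map_add' f g := by ext z; simp [mul_add]
  map_smul' s f := by ext z; simp [mul_left_comm]

theorem shift_apply {p : ℝ} (hp : 1 ≤ p) (f : Hp p hp) (z : ℂ) :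
    (shift p hp f : ℂ → ℂ) z = z * (f : ℂ → ℂ) z := rfl

theorem hq_shift_le {p : ℝ} (hp : 1 ≤ p) (f : Hp p hp) : hq p hp (shift p hp f) ≤ hq p hp f :=
  ENNReal.toReal_mono f.2.2.ne (hardyNorm_mono (by linarith) fun z hz => by
    rw [shift_apply, norm_mul]
    exact mul_le_of_le_one_left (norm_nonneg _) (mem_ball_zero_iff.1 hz).le)

end Pool.Agent.Lib.MP_459ac8_an
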