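import Pool.Agent.Lib.MP_459ac8_an.Block

/-!
One turn of a slowly tightening spiral.
-/

namespace Pool.Agent.Lib.MP_459ac8_an

open scoped ENNReal Real Topology NNReal
open MeasureTheory Metric Complex Filter Finset

/-- distance to the circle -/
noncomputable def gap (l : ℝ) (ν : ℕ) : ℝ := 1 / (l * (ν + 1))

/-- angle -/
noncomputable def ang (γ : ℝ) (ν : ℕ) : ℝ := γ * Real.log ν

/-- the points of the spiral -/
noncomputable def pt (l γ : ℝ) (ν : ℕ) : ℂ := circleMap 0 (1 - gap l ν) (ang γ ν)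

variable {l γ : ℝ}

theorem gap_pos (hl : 2 ≤ l) (ν : ℕ) : 0 < gap l ν := by
  unfold gap
  have : 0 < l := by linarith
  positivity

theorem gap_le_half (hl : 2 ≤ l) (ν : ℕ) : gap l ν ≤ 1 / 2 := by
  unfold gap
  have : (0 : ℝ) ≤ ν := Nat.cast_nonneg ν
  refine one_div_le_one_div_of_le (by norm_num) (by nlinarith)

theorem gap_anti (hl : 2 ≤ l) {μ ν : ℕ} (h : μ ≤ ν) : gap l ν ≤ gap l μ := by
  unfold gap
  have : 0 < l := by linarith
  have h' : (μ : ℝ) ≤ ν := by exact_mod_cast h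
  gcongr

theorem norm_pt (hl : 2 ≤ l) (ν : ℕ) : ‖pt l γ ν‖ = 1 - gap l ν := by
  rw [pt, norm_circleMap_zero, abs_of_pos (by linarith [gap_le_half hl ν])]

theorem norm_pt_lt (hl : 2 ≤ l) (ν : ℕ) : ‖pt l γ ν‖ < 1 := by
  rw [norm_pt hl]; linarith [gap_pos hl ν]

theorem half_le_norm_pt (hl : 2 ≤ l) (ν : ℕ) : 1 / 2 ≤ ‖pt l γ ν‖ := by
  rw [norm_pt hl]; linarith [gap_le_half hl ν]

theorem pt_ne_zero (hl : 2 ≤ l) (ν : ℕ) : pt l γ ν ≠ 0 :=
  norm_pos_iff.1 (by linarith [half_le_norm_pt (γ := γ) hl ν])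

theorem ang_step_le (hγ : 0 ≤ γ) {ν : ℕ} (hν : 1 ≤ ν) : ang γ (ν + 1) - ang γ ν ≤ γ / ν := by
  have h0 : (0 : ℝ) < ν := by exact_mod_cast hν
  unfold ang
  push_cast
  rw [← mul_sub, ← Real.log_div (by positivity) h0.ne', div_eq_mul_one_div γ]
  gcongr
  refine (Real.log_le_sub_one_of_pos (by positivity)).trans (le_of_eq ?_)
  field_simp
  ring

theorem le_ang_step (hγ : 0 ≤ γ) {ν : ℕ} (hν : 1 ≤ ν) :
    γ / (ν + 1) ≤ ang γ (ν + 1) - ang γ ν := by
  have h0 : (0 : ℝ) < ν := by exact_mod_cast hν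
  unfold ang
  push_cast
  rw [← mul_sub, ← Real.log_div (by positivity) h0.ne', div_eq_mul_one_div γ]
  gcongr
  refine le_trans (le_of_eq ?_) (Real.one_sub_inv_le_log_of_pos (by positivity))
  field_simp
  ring

theorem ang_mono (hγ : 0 ≤ γ) {μ ν : ℕ} (hμ : 1 ≤ μ) (h : μ ≤ ν) : ang γ μ ≤ ang γ ν := by
  unfold ang
  have h0 : (0 : ℝ) < μ := by exact_mod_cast hμ
  have h' : (μ : ℝ) ≤ ν := by exact_mod_cast h
  gcongr

theorem norm_circle_sub_le {r r' α β : ℝ} (hr : 0 ≤ r) (hr1 : r ≤ 1) :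
    ‖circleMap 0 r' β - circleMap 0 r α‖ ≤ |r' - r| + |β - α| := by
  have e : circleMap 0 r' β - circleMap 0 r α
      = ((r' - r : ℝ) : ℂ) * exp (β * I) + r * (exp (α * I) * (exp (I * (β - α : ℝ)) - 1)) := by
    simp only [circleMap_zero]
    rw [mul_sub, ← Complex.exp_add]
    push_cast
    ring_nf
  rw [e]
  refine (norm_add_le _ _).trans (add_le_add ?_ ?_)
  · rw [norm_mul, norm_exp_ofReal_mul_I, mul_one, Complex.norm_real, Real.norm_eq_abs]
  · rw [norm_mul, norm_mul, norm_exp_ofReal_mul_I, one_mul, Complex.norm_real,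
      Real.norm_of_nonneg hr]
    exact (mul_le_of_le_one_left (norm_nonneg _) hr1).trans Real.norm_exp_I_mul_ofReal_sub_one_le

theorem le_norm_circle_sub {r r' α β : ℝ} (hr : 1 / 2 ≤ r) (hr' : 1 / 2 ≤ r')
    (h : |β - α| ≤ π) : |β - α| / π ≤ ‖circleMap 0 r' β - circleMap 0 r α‖ := by
  have hpi := Real.pi_pos
  have e : ‖circleMap 0 r' β - circleMap 0 r α‖ ^ 2
      = (r' - r) ^ 2 + 2 * (r * r') * (1 - Real.cos (β - α)) := by
    rw [← Complex.normSq_eq_norm_sq, Complex.normSq_apply]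
    simp only [circleMap_zero, sub_re, sub_im, re_ofReal_mul, im_ofReal_mul, exp_ofReal_mul_I_re,
      exp_ofReal_mul_I_im, Real.cos_sub]
    linear_combination r ^ 2 * Real.sin_sq_add_cos_sq α + r' ^ 2 * Real.sin_sq_add_cos_sq β
  have h1 := Real.cos_le_one_sub_mul_cos_sq h
  refine abs_le_of_sq_le_sq' ?_ (norm_nonneg _) |>.2
  rw [e, div_pow, sq_abs]
  have h2 : 1 / 4 ≤ r * r' := by nlinarith
  have h3 : 2 / π ^ 2 * (β - α) ^ 2 ≤ 1 - Real.cos (β - α) := by linarith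
  have h4 : 0 ≤ 2 / π ^ 2 * (β - α) ^ 2 := by positivity
  have h5 : (β - α) ^ 2 / π ^ 2 = 2 * (1 / 4) * (2 / π ^ 2 * (β - α) ^ 2) := by ring
  rw [h5]
  have h6 : 2 * (1 / 4) * (2 / π ^ 2 * (β - α) ^ 2) ≤ 2 * (r * r') * (1 - Real.cos (β - α)) := by
    gcongr
  nlinarith [sq_nonneg (r' - r)]

theorem step_le (hl : 2 ≤ l) (hγ : 0 ≤ γ) {ν : ℕ} (hν : 1 ≤ ν) (hγν : 1 ≤ γ * ν) :
    ‖pt l γ (ν + 1) - pt l γ ν‖ ≤ 2 * (γ / ν) := by
  have h0 : (0 : ℝ) < ν := by exact_mod_cast hν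
  refine (norm_circle_sub_le (by linarith [gap_le_half hl ν]) (by linarith [gap_pos hl ν])).trans ?_
  have h1 := ang_step_le hγ hν
  have h2 := ang_mono hγ hν (Nat.le_succ ν)
  have h3 := gap_anti hl (Nat.le_succ ν)
  rw [abs_of_nonneg (by linarith), abs_of_nonneg (by linarith)]
  have h4 : gap l ν - gap l (ν + 1) ≤ γ / ν := by
    unfold gap
    have hl0 : 0 < l := by linarith
    push_cast
    rw [div_sub_div _ _ (by positivity) (by positivity), div_le_div_iff₀ (by positivity) h0]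
    have h5 : γ * (l * (ν + 1) * (l * (ν + 1 + 1))) = l * (γ * (ν + 1) * (l * (ν + 1 + 1))) := by
      ring
    have h6 : (1 * (l * (ν + 1 + 1)) - l * (ν + 1) * 1) * ν = l * ν := by ring
    rw [h5, h6]
    gcongr
    have h7 : 1 ≤ γ * (ν + 1) := by nlinarith
    have h8 : (ν : ℝ) ≤ l * (ν + 1 + 1) := by nlinarith
    nlinarith
  linarith

theorem div_le_gap (hl : 2 ≤ l) (hγ : 0 ≤ γ) {ν : ℕ} (hν : 1 ≤ ν) :
    2 * (γ / ν) ≤ 4 * γ * l * gap l ν := by
  have h0 : (1 : ℝ) ≤ ν := by exact_mod_cast hν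
  have hl0 : 0 < l := by linarith
  unfold gap
  rw [show 4 * γ * l * (1 / (l * (ν + 1))) = 4 * γ / (ν + 1) by field_simp, ← mul_div_assoc,
    div_le_div_iff₀ (by positivity) (by positivity)]
  nlinarith

theorem div_le_two_step (hγ : 0 ≤ γ) {ν : ℕ} (hν : 1 ≤ ν) :
    γ / ν ≤ 2 * (ang γ (ν + 1) - ang γ ν) := by
  have h0 : (1 : ℝ) ≤ ν := by exact_mod_cast hν
  have h1 := le_ang_step hγ hν
  have h2 : γ / ν ≤ 2 * (γ / (ν + 1)) := by
    rw [← mul_div_assoc, div_le_div_iff₀ (by positivity) (by positivity)]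
    nlinarith
  linarith

theorem log_tele_up {σ : ℝ} (hσ : 0 < σ) (y : ℕ → ℝ) {m n : ℕ} (hmn : m ≤ n)
    (hy : ∀ ν, m ≤ ν → 0 ≤ y ν) :
    ∑ ν ∈ Ico m n, (y (ν + 1) - y ν) / (σ + y (ν + 1))
      ≤ Real.log (σ + y n) - Real.log (σ + y m) := by
  rw [← sum_Ico_sub (fun ν => Real.log (σ + y ν)) hmn]
  refine sum_le_sum fun ν hν => ?_
  have h1 := hy ν (mem_Ico.1 hν).1
  have h2 := hy (ν + 1) ((mem_Ico.1 hν).1.trans (Nat.le_succ ν))
  rw [← Real.log_div (by positivity) (by positivity)]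
  refine le_trans (le_of_eq ?_) (Real.one_sub_inv_le_log_of_pos (by positivity))
  field_simp
  ring

theorem log_tele_down {σ : ℝ} (hσ : 0 < σ) (y : ℕ → ℝ) {m n : ℕ} (hmn : m ≤ n)
    (hy : ∀ ν, m ≤ ν → ν ≤ n → 0 ≤ y ν) :
    ∑ ν ∈ Ico m n, (y ν - y (ν + 1)) / (σ + y ν)
      ≤ Real.log (σ + y m) - Real.log (σ + y n) := by
  have := sum_Ico_sub (fun ν => -Real.log (σ + y ν)) hmn
  rw [show Real.log (σ + y m) - Real.log (σ + y n)
    = -Real.log (σ + y n) - -Real.log (σ + y m) by ring, ← this]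
  refine sum_le_sum fun ν hν => ?_
  have h1 := hy ν (mem_Ico.1 hν).1 (mem_Ico.1 hν).2.le
  have h2 := hy (ν + 1) ((mem_Ico.1 hν).1.trans (Nat.le_succ ν)) (mem_Ico.1 hν).2
  rw [show -Real.log (σ + y (ν + 1)) - -Real.log (σ + y ν)
    = Real.log (σ + y ν) - Real.log (σ + y (ν + 1)) by ring,
    ← Real.log_div (by positivity) (by positivity)]
  refine le_trans (le_of_eq ?_) (Real.one_sub_inv_le_log_of_pos (by positivity))
  field_simp
  ring

/-- the hypotheses on one turn -/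
structure Turn (l γ : ℝ) (a b : ℕ) : Prop where
  hl : 2 ≤ l
  hγ : 0 ≤ γ
  hγ1 : γ ≤ 1
  ha : 1 ≤ a
  hab : a ≤ b
  hγa : 1 ≤ γ * a
  full : ang γ b = ang γ a + 2 * π

variable {a b : ℕ}

theorem Turn.step (h : Turn l γ a b) {ν : ℕ} (hν : a ≤ ν) :
    ‖pt l γ (ν + 1) - pt l γ ν‖ ≤ 2 * (γ / ν) := by
  have h' : (a : ℝ) ≤ ν := by exact_mod_cast hν
  exact step_le h.hl h.hγ (h.ha.trans hν) (h.hγa.trans (mul_le_mul_of_nonneg_left h' h.hγ))

theorem Turn.step_gap (h : Turn l γ a b) {ν : ℕ} (hν : a ≤ ν) :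
    ‖pt l γ (ν + 1) - pt l γ ν‖ ≤ 4 * γ * l * (1 - ‖pt l γ ν‖) := by
  rw [norm_pt h.hl, sub_sub_cancel]
  exact (h.step hν).trans (div_le_gap h.hl h.hγ (h.ha.trans hν))

theorem Turn.length (h : Turn l γ a b) :
    ∑ ν ∈ Ico a b, ‖pt l γ (ν + 1) - pt l γ ν‖ ≤ 8 * π := by
  calc ∑ ν ∈ Ico a b, ‖pt l γ (ν + 1) - pt l γ ν‖
      ≤ ∑ ν ∈ Ico a b, 4 * (ang γ (ν + 1) - ang γ ν) := by
        refine sum_le_sum fun ν hν => ?_
        have h1 := (mem_Ico.1 hν).1
        linarith [h.step h1, div_le_two_step h.hγ (h.ha.trans h1)]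
    _ = 8 * π := by rw [← mul_sum, sum_Ico_sub (ang γ) h.hab, h.full]; ring

theorem Turn.coef (h : Turn l γ a b) :
    ∑ ν ∈ Ico a b, ‖(pt l γ (ν + 1) - pt l γ ν) / pt l γ ν‖ ≤ 16 * π := by
  calc ∑ ν ∈ Ico a b, ‖(pt l γ (ν + 1) - pt l γ ν) / pt l γ ν‖
      ≤ ∑ ν ∈ Ico a b, 2 * ‖pt l γ (ν + 1) - pt l γ ν‖ := by
        refine sum_le_sum fun ν _ => ?_
        have h1 := half_le_norm_pt (γ := γ) h.hl ν
        rw [norm_div, div_le_iff₀ (by linarith)]
        nlinarith [norm_nonneg (pt l γ (ν + 1) - pt l γ ν)]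
    _ ≤ 16 * π := by rw [← mul_sum]; linarith [h.length]

theorem Turn.total (h : Turn l γ a b) :
    1 ≤ ‖∑ ν ∈ Ico a b, (pt l γ (ν + 1) - pt l γ ν) / pt l γ ν‖ := by
  have hpi := Real.pi_pos
  refine le_trans ?_ ((le_abs_self _).trans (Complex.abs_im_le_norm _))
  rw [Complex.im_sum]
  calc (1 : ℝ) ≤ ∑ ν ∈ Ico a b, 2 / π * (ang γ (ν + 1) - ang γ ν) := by
        rw [← mul_sum, sum_Ico_sub (ang γ) h.hab, h.full, add_sub_cancel_left]
        field_simp
        norm_num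
    _ ≤ _ := by
        refine sum_le_sum fun ν hν => ?_
        have h1 := h.ha.trans (mem_Ico.1 hν).1
        have h0 : (1 : ℝ) ≤ ν := by exact_mod_cast h1
        have h2 := ang_mono h.hγ h1 (Nat.le_succ ν)
        have h3 := ang_step_le h.hγ h1
        have h4 : γ / ν ≤ 1 := (div_le_self h.hγ h0).trans h.hγ1
        have h5 := Real.mul_le_sin (x := ang γ (ν + 1) - ang γ ν) (by linarith)
          (by linarith [Real.pi_gt_three])
        have g1 := gap_le_half h.hl ν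
        have g2 := gap_anti h.hl (Nat.le_succ ν)
        have e : (pt l γ (ν + 1) - pt l γ ν) / pt l γ ν
            = (((1 - gap l (ν + 1)) / (1 - gap l ν) : ℝ) : ℂ)
              * exp ((ang γ (ν + 1) - ang γ ν : ℝ) * I) - 1 := by
          rw [sub_div, div_self (pt_ne_zero h.hl ν)]
          simp only [pt, circleMap_zero]
          rw [mul_div_mul_comm, ← Complex.exp_sub]
          push_cast
          ring_nf
        rw [e, sub_im, one_im, sub_zero, im_ofReal_mul, exp_ofReal_mul_I_im]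
        have h6 : 1 ≤ (1 - gap l (ν + 1)) / (1 - gap l ν) := by
          rw [le_div_iff₀ (by linarith)]; linarith
        have h7 : 0 ≤ 2 / π * (ang γ (ν + 1) - ang γ ν) :=
          mul_nonneg (by positivity) (by linarith)
        nlinarith

theorem Turn.close (h : Turn l γ a b) : ‖pt l γ b - pt l γ a‖ ≤ 1 / a := by
  have e : pt l γ b = circleMap 0 (1 - gap l b) (ang γ a) := by
    rw [pt, h.full, periodic_circleMap]
  rw [e]
  refine (norm_circle_sub_le (by linarith [gap_le_half h.hl a])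
    (by linarith [gap_pos h.hl a])).trans ?_
  have h1 := gap_anti h.hl h.hab
  have h2 := gap_pos h.hl b
  rw [sub_self, abs_zero, add_zero, abs_of_nonneg (by linarith)]
  have h0 : (1 : ℝ) ≤ a := by exact_mod_cast h.ha
  have h3 : gap l a ≤ 1 / a := by
    unfold gap
    exact one_div_le_one_div_of_le (by linarith) (by nlinarith [h.hl])
  linarith

theorem Turn.half (h : Turn l γ a b) {z : ℂ} (hz : z ∈ ball (0 : ℂ) 1) (I : Finset ℕ)
    (hI : I ⊆ Ico a b) (hang : ∀ μ ∈ I, ∀ ν ∈ I, |ang γ ν - ang γ μ| ≤ π) :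
    ∑ ν ∈ I, ‖pt l γ (ν + 1) - pt l γ ν‖ / ‖1 - pt l γ ν * z‖
      ≤ 4 * γ * l + 24 * π * Real.log (1 + l * (b + 1)) := by
  have hpi := Real.pi_pos
  have hl0 : 0 < l := by linarith [h.hl]
  have hγ := h.hγ
  have hlog : 0 ≤ Real.log (1 + l * (b + 1)) :=
    Real.log_nonneg (le_add_of_nonneg_right (by positivity))
  rcases I.eq_empty_or_nonempty with rfl | hne
  · rw [sum_empty]; positivity
  obtain ⟨μ, hμ, hmin⟩ := I.exists_min_image (fun ν => ‖1 - pt l γ ν * z‖) hne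
  have hμ' := mem_Ico.1 (hI hμ)
  set σ : ℝ := 2 * π * gap l b with hσ
  have hσ0 : 0 < σ := by have := gap_pos h.hl b; positivity
  have hΛ : Real.log (σ + 2 * π) - Real.log σ = Real.log (1 + l * (b + 1)) := by
    rw [← Real.log_div (by positivity) hσ0.ne']
    congr 1
    rw [hσ, gap]
    field_simp
  set g : ℕ → ℝ := fun ν => 8 * π * ((γ / ν) / (σ + |ang γ ν - ang γ μ|)) with hg
  have hg0 : ∀ ν, 0 ≤ g ν := fun ν => by simp only [hg]; positivity
  have b1 : ∀ ν ∈ I, ‖pt l γ (ν + 1) - pt l γ ν‖ / ‖1 - pt l γ ν * z‖ ≤ g ν := by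
    intro ν hν
    have hν' := mem_Ico.1 (hI hν)
    have d1 : gap l b ≤ ‖1 - pt l γ ν * z‖ := by
      have := one_sub_norm_le (w := pt l γ ν) hz
      rw [norm_pt h.hl] at this
      linarith [gap_anti h.hl hν'.2.le]
    have d2 : |ang γ ν - ang γ μ| / π ≤ 2 * ‖1 - pt l γ ν * z‖ := by
      refine (le_norm_circle_sub (r := 1 - gap l μ) (r' := 1 - gap l ν)
        (by linarith [gap_le_half h.hl μ]) (by linarith [gap_le_half h.hl ν])
        (hang μ hμ ν hν)).trans ?_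
      change ‖pt l γ ν - pt l γ μ‖ ≤ _
      have e : pt l γ ν - pt l γ μ
          = pt l γ ν * (1 - pt l γ μ * z) - pt l γ μ * (1 - pt l γ ν * z) := by ring
      rw [e]
      refine (norm_sub_le _ _).trans ?_
      rw [norm_mul, norm_mul]
      have m1 := mul_le_of_le_one_left (norm_nonneg (1 - pt l γ μ * z))
        (norm_pt_lt (γ := γ) h.hl ν).le
      have m2 := mul_le_of_le_one_left (norm_nonneg (1 - pt l γ ν * z))
        (norm_pt_lt (γ := γ) h.hl μ).le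
      have m3 : ‖1 - pt l γ μ * z‖ ≤ ‖1 - pt l γ ν * z‖ := hmin ν hν
      linarith
    have hn : 0 < ‖1 - pt l γ ν * z‖ := lt_of_lt_of_le (gap_pos h.hl b) d1
    have d3 : σ + |ang γ ν - ang γ μ| ≤ 4 * π * ‖1 - pt l γ ν * z‖ := by
      rw [div_le_iff₀ hpi] at d2
      rw [hσ]
      nlinarith
    have d4 : 0 < σ + |ang γ ν - ang γ μ| := by positivity
    have d5 : 0 ≤ γ / ν := by positivity
    simp only [hg]
    rw [← mul_div_assoc, div_le_div_iff₀ hn d4]
    calc ‖pt l γ (ν + 1) - pt l γ ν‖ * (σ + |ang γ ν - ang γ μ|)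
        ≤ (2 * (γ / ν)) * (4 * π * ‖1 - pt l γ ν * z‖) :=
          mul_le_mul (h.step hν'.1) d3 d4.le (by positivity)
      _ = _ := by ring
  have b2 : ‖pt l γ (μ + 1) - pt l γ μ‖ / ‖1 - pt l γ μ * z‖ ≤ 4 * γ * l := by
    have hn : 0 < ‖1 - pt l γ μ * z‖ := norm_pos_iff.2 (one_sub_ne (norm_pt_lt h.hl μ) hz)
    rw [div_le_iff₀ hn]
    exact (h.step_gap hμ'.1).trans (mul_le_mul_of_nonneg_left (one_sub_norm_le hz) (by positivity))
  have hμ1 : 1 ≤ μ := h.ha.trans hμ'.1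
  have up1 : ang γ μ - ang γ a ≤ 2 * π := by linarith [ang_mono hγ hμ1 hμ'.2.le, h.full]
  have up2 : ang γ b - ang γ μ ≤ 2 * π := by linarith [ang_mono hγ h.ha hμ'.1, h.full]
  have s1 : ∑ ν ∈ Ico a μ, g ν ≤ 16 * π * Real.log (1 + l * (b + 1)) := by
    have t := log_tele_down hσ0 (fun ν => ang γ μ - ang γ ν) hμ'.1
      (fun ν h1 h2 => sub_nonneg.2 (ang_mono hγ (h.ha.trans h1) h2))
    have t2 : Real.log (σ + (ang γ μ - ang γ a)) ≤ Real.log (σ + 2 * π) :=
      Real.log_le_log (by linarith [ang_mono hγ h.ha hμ'.1]) (by linarith)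
    simp only [sub_self, add_zero] at t
    calc ∑ ν ∈ Ico a μ, g ν
        ≤ ∑ ν ∈ Ico a μ, 16 * π * (((ang γ μ - ang γ ν) - (ang γ μ - ang γ (ν + 1)))
            / (σ + (ang γ μ - ang γ ν))) := by
          refine sum_le_sum fun ν hν => ?_
          have hν' := mem_Ico.1 hν
          have m1 := ang_mono hγ (h.ha.trans hν'.1) hν'.2.le
          have m2 := div_le_two_step hγ (h.ha.trans hν'.1)
          simp only [hg]
          rw [abs_sub_comm, abs_of_nonneg (by linarith), ← mul_div_assoc (8 * π),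
            ← mul_div_assoc (16 * π)]
          refine div_le_div_of_nonneg_right ?_ (by linarith)
          nlinarith
      _ ≤ _ := by
          rw [← mul_sum, ← hΛ]
          gcongr
          linarith
  have s2 : ∑ ν ∈ Ico (μ + 1) (b + 1), g ν ≤ 8 * π * Real.log (1 + l * (b + 1)) := by
    have t := log_tele_up hσ0 (fun ν => ang γ ν - ang γ μ) hμ'.2.le
      (fun ν h1 => sub_nonneg.2 (ang_mono hγ hμ1 h1))
    have t2 : Real.log (σ + (ang γ b - ang γ μ)) ≤ Real.log (σ + 2 * π) :=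
      Real.log_le_log (by linarith [ang_mono hγ hμ1 hμ'.2.le]) (by linarith)
    simp only [sub_self, add_zero] at t
    rw [← sum_Ico_add' g μ b 1]
    calc ∑ ν ∈ Ico μ b, g (ν + 1)
        ≤ ∑ ν ∈ Ico μ b, 8 * π * (((ang γ (ν + 1) - ang γ μ) - (ang γ ν - ang γ μ))
            / (σ + (ang γ (ν + 1) - ang γ μ))) := by
          refine sum_le_sum fun ν hν => ?_
          have hν' := mem_Ico.1 hν
          have m1 := ang_mono hγ hμ1 (hν'.1.trans (Nat.le_succ ν))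
          have m2 := le_ang_step hγ (hμ1.trans hν'.1)
          simp only [hg]
          rw [abs_of_nonneg (by linarith)]
          refine mul_le_mul_of_nonneg_left
            (div_le_div_of_nonneg_right ?_ (by linarith)) (by positivity)
          push_cast
          linarith
      _ ≤ _ := by
          rw [← mul_sum, ← hΛ]
          gcongr
          linarith
  rw [← add_sum_erase I _ hμ]
  have s3 : ∑ ν ∈ I.erase μ, ‖pt l γ (ν + 1) - pt l γ ν‖ / ‖1 - pt l γ ν * z‖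
      ≤ ∑ ν ∈ Ico a μ ∪ Ico (μ + 1) (b + 1), g ν := by
    refine (sum_le_sum fun ν hν => b1 ν (mem_of_mem_erase hν)).trans ?_
    refine sum_le_sum_of_subset_of_nonneg (fun ν hν => ?_) fun ν _ _ => hg0 ν
    have h1 := mem_Ico.1 (hI (mem_of_mem_erase hν))
    have h2 := ne_of_mem_erase hν
    simp only [mem_union, mem_Ico]
    omega
  rw [sum_union (by
    rw [disjoint_left]
    intro ν h1 h2
    simp only [mem_Ico] at h1 h2
    omega)] at s3
  linarith

theorem Turn.sup (h : Turn l γ a b) {z : ℂ} (hz : z ∈ ball (0 : ℂ) 1) :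
    ∑ ν ∈ Ico a b, ‖pt l γ (ν + 1) - pt l γ ν‖ / ‖1 - pt l γ ν * z‖
      ≤ 8 * γ * l + 48 * π * Real.log (1 + l * (b + 1)) := by
  classical
  rw [← sum_filter_add_sum_filter_not (Ico a b) (fun ν => ang γ ν ≤ ang γ a + π)]
  have lo : ∀ ν ∈ Ico a b, ang γ a ≤ ang γ ν := fun ν hν =>
    ang_mono h.hγ h.ha (mem_Ico.1 hν).1
  have hi : ∀ ν ∈ Ico a b, ang γ ν ≤ ang γ a + 2 * π := fun ν hν => by
    rw [← h.full]
    exact ang_mono h.hγ (h.ha.trans (mem_Ico.1 hν).1) (mem_Ico.1 hν).2.le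
  have h1 := h.half hz ((Ico a b).filter fun ν => ang γ ν ≤ ang γ a + π) (filter_subset _ _)
    fun μ hμ ν hν => by
      rw [mem_filter] at hμ hν
      rw [abs_le]
      constructor <;> linarith [lo μ hμ.1, lo ν hν.1, hμ.2, hν.2]
  have h2 := h.half hz ((Ico a b).filter fun ν => ¬ ang γ ν ≤ ang γ a + π) (filter_subset _ _)
    fun μ hμ ν hν => by
      rw [mem_filter, not_le] at hμ hν
      rw [abs_le]
      constructor <;> linarith [hi μ hμ.1, hi ν hν.1, hμ.2, hν.2]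
  linarith

end Pool.Agent.Lib.MP_459ac8_an
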