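import Pool.Agent.Lib.MP_459ac8_an.Main

/-!
An elementary form of the conjugate function inequality, and radial jumps of the logarithms.
-/

namespace Pool.Agent.Lib.MP_459ac8_an.Y42

open scoped ENNReal Real Topology NNReal ComplexConjugate
open MeasureTheory Metric Complex Filter Finset

theorem one_add_pow_le {a : ℂ} {n : ℕ} (h : 2 * n * ‖a‖ ≤ 1) {k : ℕ} (hk : k ≤ n) :
    ‖(1 + a) ^ k - 1‖ ≤ 2 * k * ‖a‖ := by
  induction k with
  | zero => simp
  | succ k ih =>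
    have h1 := ih (by omega)
    have h0 := norm_nonneg a
    have h2 : (k : ℝ) ≤ n := by exact_mod_cast (by omega : k ≤ n)
    have h3 : 2 * k * ‖a‖ ≤ 1 := by nlinarith
    have e : (1 + a) ^ (k + 1) - 1 = ((1 + a) ^ k - 1) + (((1 + a) ^ k - 1) * a + a) := by ring
    rw [e]
    have h4 := norm_add_le ((1 + a) ^ k - 1) (((1 + a) ^ k - 1) * a + a)
    have h5 := norm_add_le (((1 + a) ^ k - 1) * a) a
    rw [norm_mul] at h5
    have h6 := mul_le_mul_of_nonneg_right (h1.trans h3) h0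
    push_cast
    linarith

theorem riesz_point (n : ℕ) (ξ : ℂ) {U : ℝ} (hU : |ξ.re| ≤ U) :
    ‖ξ‖ ^ (2 * n) ≤ 2 * ((-ξ ^ 2) ^ n).re + 3 * (8 * n) ^ (2 * n) * U ^ (2 * n) := by
  have hU0 : 0 ≤ U := (abs_nonneg _).trans hU
  have hn : ‖(-ξ ^ 2) ^ n‖ = ‖ξ‖ ^ (2 * n) := by rw [norm_pow, norm_neg, norm_pow, pow_mul]
  have hpos : 0 ≤ (8 * (n : ℝ)) ^ (2 * n) * U ^ (2 * n) := by positivity
  by_cases hc : ‖ξ‖ ≤ 8 * n * U
  · have h1 := pow_le_pow_left₀ (norm_nonneg ξ) hc (2 * n)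
    rw [mul_pow] at h1
    have h2 := (abs_le.1 (Complex.abs_re_le_norm ((-ξ ^ 2) ^ n))).1
    linarith
  · push Not at hc
    have hρ : 0 < ‖ξ‖ := lt_of_le_of_lt (by positivity) hc
    have hξ : ξ ≠ 0 := norm_pos_iff.1 hρ
    have hc0 : conj ξ ≠ 0 := (map_ne_zero _).2 hξ
    set a : ℂ := -(2 * ξ.re) / conj ξ with ha
    have han : ‖a‖ = 2 * |ξ.re| / ‖ξ‖ := by
      rw [ha, norm_div, norm_neg, norm_mul, Complex.norm_conj, Complex.norm_two, Complex.norm_real,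
        Real.norm_eq_abs]
    have h1 : 4 * n * ‖a‖ ≤ 1 := by
      rw [han, ← mul_div_assoc, div_le_one hρ]
      have : (0 : ℝ) ≤ n := Nat.cast_nonneg n
      nlinarith
    have h0 : 0 ≤ (n : ℝ) * ‖a‖ := by positivity
    have h2 := one_add_pow_le (a := a) (n := n) (by linarith) le_rfl
    have e : -ξ ^ 2 = ((‖ξ‖ ^ 2 : ℝ) : ℂ) * (1 + a) := by
      rw [← Complex.normSq_eq_norm_sq, ← Complex.mul_conj, ha, Complex.re_eq_add_conj]
      field_simp
      ring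
    have h3 := (abs_le.1 (Complex.abs_re_le_norm ((1 + a) ^ n - 1))).1
    rw [sub_re, one_re] at h3
    rw [e, mul_pow, ← ofReal_pow, re_ofReal_mul, ← pow_mul]
    have h4 : 0 ≤ ‖ξ‖ ^ (2 * n) := by positivity
    nlinarith

/-- A holomorphic function is bounded in the mean by a majorant of its real part. -/
theorem riesz {p : ℝ} (hp : 0 < p) {n : ℕ} (hn : p ≤ 2 * n) {F G : ℂ → ℂ}
    (hF : DifferentiableOn ℂ F (ball 0 1)) (hG : ContinuousOn G (ball 0 1))
    (h : ∀ z ∈ ball (0 : ℂ) 1, |(F z).re| ≤ ‖G z‖) {A M : ℝ} (hA : ‖F 0‖ ≤ A) (hM0 : 0 ≤ M)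
    (hM : hardyNorm (2 * n) G ≤ ENNReal.ofReal M) :
    hardyNorm p F ≤ ENNReal.ofReal
      ((1 + (2 * A ^ (2 * n) + 3 * (8 * n) ^ (2 * n) * M ^ (2 * n))) ^ (1 / p)) := by
  have hq : (0 : ℝ) < 2 * n := lt_of_lt_of_le hp hn
  have cast : ∀ x : ℝ, x ^ (2 * (n : ℝ)) = x ^ (2 * n) := fun x => by
    rw [← Real.rpow_natCast]
    push_cast
    rfl
  refine hardyNorm_le_of_mean hp hF.continuousOn fun r hr => ?_
  have hr1 := abs_lt_one_of_mem hr
  have hd : DifferentiableOn ℂ (fun z => (-F z ^ 2) ^ n) (ball 0 1) := (hF.pow 2).neg.pow n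
  have i1 := circInt (contOn_pow hF.continuousOn hp.le) hr1
  have i2 : CircleIntegrable (fun z => (2 : ℝ) • ((-F z ^ 2) ^ n).re) 0 r :=
    (circInt (Complex.continuous_re.comp_continuousOn hd.continuousOn) hr1).const_smul
  have i3 : CircleIntegrable
      (fun z => (3 * (8 * (n : ℝ)) ^ (2 * n)) • ‖G z‖ ^ (2 * (n : ℝ))) 0 r :=
    (circInt (contOn_pow hG hq.le) hr1).const_smul
  have i4 : CircleIntegrable (fun z => (2 : ℝ) • ((-F z ^ 2) ^ n).re +
      (3 * (8 * (n : ℝ)) ^ (2 * n)) • ‖G z‖ ^ (2 * (n : ℝ))) 0 r := i2.add i3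
  have i0 : CircleIntegrable (fun _ : ℂ => (1 : ℝ)) 0 r := circleIntegrable_const _ _ _
  refine (Real.circleAverage_mono i1 (i0.add i4) fun z hz => ?_).trans ?_
  · have h1 := riesz_point n (F z) (h z (sphere_sub_ball hr1 hz))
    have h2 : ‖F z‖ ^ p ≤ 1 + ‖F z‖ ^ (2 * n) := by
      rcases le_total ‖F z‖ 1 with h3 | h3
      · exact (Real.rpow_le_one (norm_nonneg _) h3 hp.le).trans
          (le_add_of_nonneg_right (by positivity))
      · have := Real.rpow_le_rpow_of_exponent_le h3 hn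
        rw [cast] at this
        linarith
    simp only [Pi.add_apply, smul_eq_mul, cast]
    linarith
  · rw [Real.circleAverage_add i0 i4, Real.circleAverage_fun_add i2 i3, Real.circleAverage_const,
      Real.circleAverage_fun_smul, Real.circleAverage_fun_smul, avg_re hd hr]
    have h1 := mean_le_of_hardyNorm hq hG (hM.trans_lt ENNReal.ofReal_lt_top) hr
    have h2 := Real.rpow_le_rpow ENNReal.toReal_nonneg (ENNReal.toReal_le_of_le_ofReal hM0 hM)
      hq.le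
    rw [cast M] at h2
    have h3 : ((-F 0 ^ 2) ^ n).re ≤ A ^ (2 * n) := by
      refine (Complex.re_le_norm _).trans ?_
      rw [norm_pow, norm_neg, norm_pow, ← pow_mul]
      exact pow_le_pow_left₀ (norm_nonneg _) hA _
    have h4 := mul_le_mul_of_nonneg_left (h1.trans h2)
      (show 0 ≤ 3 * (8 * (n : ℝ)) ^ (2 * n) by positivity)
    simp only [smul_eq_mul]
    unfold mean at h4
    linarith

theorem jump_point {u : ℂ} (hu : ‖u‖ < 1) {ρ ρ' s : ℝ} (h0 : 0 ≤ ρ) (h1 : ρ ≤ ρ') (h2 : ρ' < 1)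
    (hs : 0 < s) (hs1 : s ≤ 1) :
    ‖log (1 - ρ' * u) - log (1 - ρ * u)‖ ≤
      2 * ‖1 - ρ' * u‖ ^ (-s) / s * ((1 - ρ) ^ s - (1 - ρ') ^ s) := by
  have hlt : ∀ t : ℝ, t ∈ Set.Icc ρ ρ' → ‖(t : ℂ) * u‖ ≤ t := fun t ht => by
    rw [norm_mul, Complex.norm_real, Real.norm_of_nonneg (h0.trans ht.1)]
    exact mul_le_of_le_one_right (h0.trans ht.1) hu.le
  have hre : ∀ t : ℝ, t ∈ Set.Icc ρ ρ' → 0 < (1 - (t : ℂ) * u).re := fun t ht =>
    re_one_sub_pos ((hlt t ht).trans_lt (ht.2.trans_lt h2))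
  have hd : ∀ t : ℝ, t ∈ Set.Icc ρ ρ' → HasDerivAt (fun t : ℝ => log (1 - t * u) - log (1 - ρ * u))
      (-u / (1 - t * u)) t := fun t ht => by
    have g1 : HasDerivAt (fun t : ℝ => 1 - (t : ℂ) * u) (-u) t := by
      simpa using ((Complex.ofRealCLM.hasDerivAt (x := t)).mul_const u).const_sub 1
    exact (g1.clog_real (Or.inl (hre t ht))).sub_const _
  set K : ℝ := 2 * ‖1 - ρ' * u‖ ^ (-s) with hK
  have hB : ∀ t : ℝ, t ∈ Set.Icc ρ ρ' → HasDerivAt (fun t : ℝ => K / s * ((1 - ρ) ^ s - (1 - t) ^ s))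
      (K * (1 - t) ^ (s - 1)) t := fun t ht => by
    have g1 := (((hasDerivAt_id t).const_sub 1).rpow_const (p := s)
      (Or.inl (by simp only [id]; linarith [ht.2]))).const_sub ((1 - ρ) ^ s) |>.const_mul (K / s)
    refine g1.congr_deriv ?_
    simp only [id]
    field_simp
  refine image_norm_le_of_norm_deriv_right_le_deriv_boundary'
    (f := fun t : ℝ => log (1 - t * u) - log (1 - ρ * u))
    (B := fun t : ℝ => K / s * ((1 - ρ) ^ s - (1 - t) ^ s))
    (fun t ht => (hd t ht).continuousAt.continuousWithinAt)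
    (fun t ht => (hd t ⟨ht.1, ht.2.le⟩).hasDerivWithinAt) (by simp)
    (fun t ht => (hB t ht).continuousAt.continuousWithinAt)
    (fun t ht => (hB t ⟨ht.1, ht.2.le⟩).hasDerivWithinAt) (fun t ht => ?_) ⟨h1, le_rfl⟩
  have ht' : t ∈ Set.Icc ρ ρ' := ⟨ht.1, ht.2.le⟩
  have g0 : 0 < 1 - t := by linarith [ht.2]
  have g1 : 1 - t ≤ ‖1 - (t : ℂ) * u‖ := by
    have := norm_sub_norm_le (1 : ℂ) (t * u)
    rw [norm_one] at this
    linarith [hlt t ht']
  have g2 : ‖1 - (ρ' : ℂ) * u‖ / 2 ≤ ‖1 - (t : ℂ) * u‖ := by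
    have e : 1 - (ρ' : ℂ) * u = (1 - t * u) - ((ρ' - t : ℝ) : ℂ) * u := by push_cast; ring
    have g3 := norm_sub_le (1 - (t : ℂ) * u) (((ρ' - t : ℝ) : ℂ) * u)
    rw [← e, norm_mul, Complex.norm_real, Real.norm_of_nonneg (by linarith [ht.2])] at g3
    have g4 := mul_le_of_le_one_right (show 0 ≤ ρ' - t by linarith [ht.2]) hu.le
    linarith
  have g3 : 0 < ‖1 - (ρ' : ℂ) * u‖ := norm_pos_iff.2 (ne_zero_of_re (hre ρ' ⟨h1, le_rfl⟩))
  have g4 : 0 < ‖1 - (t : ℂ) * u‖ := g0.trans_le g1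
  have g5 : ‖1 - (t : ℂ) * u‖ ^ (s - 1) ≤ (1 - t) ^ (s - 1) :=
    Real.rpow_le_rpow_of_nonpos g0 g1 (by linarith)
  have g6 : ‖1 - (t : ℂ) * u‖ ^ (-s) ≤ K := by
    refine (Real.rpow_le_rpow_of_nonpos (by positivity) g2 (by linarith)).trans ?_
    rw [Real.div_rpow g3.le zero_le_two, Real.rpow_neg zero_le_two, div_inv_eq_mul, mul_comm, hK]
    refine mul_le_mul_of_nonneg_right ?_ (by positivity)
    simpa using Real.rpow_le_rpow_of_exponent_le (x := 2) (by norm_num) hs1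
  calc ‖-u / (1 - (t : ℂ) * u)‖ ≤ 1 / ‖1 - (t : ℂ) * u‖ := by
        rw [norm_div, norm_neg]
        gcongr
    _ = ‖1 - (t : ℂ) * u‖ ^ (-s) * ‖1 - (t : ℂ) * u‖ ^ (s - 1) := by
        rw [← Real.rpow_add g4, show -s + (s - 1) = -1 by ring, Real.rpow_neg_one, one_div]
    _ ≤ K * (1 - t) ^ (s - 1) := mul_le_mul g6 g5 (by positivity) (by positivity)

theorem norm_cm {ρ : ℝ} (h0 : 0 ≤ ρ) (θ : ℝ) : ‖circleMap 0 ρ θ‖ = ρ := by
  rw [norm_circleMap_zero, abs_of_nonneg h0]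

theorem jump {p : ℝ} (hp : 1 ≤ p) {ρ ρ' : ℝ} (h0 : 0 ≤ ρ) (h1 : ρ ≤ ρ') (h2 : ρ' < 1) (θ : ℝ) :
    hardyNorm p (fun z => log (1 - circleMap 0 ρ' θ * z) - log (1 - circleMap 0 ρ θ * z)) ≤
      ENNReal.ofReal (8 * p * ((1 - ρ) ^ (1 / (2 * p)) - (1 - ρ') ^ (1 / (2 * p)))) := by
  have hp0 : 0 < p := by linarith
  have hw' : ‖circleMap 0 ρ' θ‖ < 1 := by rwa [norm_cm (h0.trans h1)]
  have hw : ‖circleMap 0 ρ θ‖ < 1 := by rw [norm_cm h0]; linarith
  have hc : ContinuousOn (fun z => log (1 - circleMap 0 ρ' θ * z) - log (1 - circleMap 0 ρ θ * z))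
      (ball 0 1) := ((diffOn_log hw').sub (diffOn_log hw)).continuousOn
  set D : ℝ := (1 - ρ) ^ (1 / (2 * p)) - (1 - ρ') ^ (1 / (2 * p)) with hD
  have hD0 : 0 ≤ D := sub_nonneg.2 (Real.rpow_le_rpow (by linarith) (by linarith) (by positivity))
  refine (hardyNorm_le_of_mean hp0 hc (C := (4 * p * D) ^ p * 2) fun r hr => ?_).trans
    (ENNReal.ofReal_le_ofReal ?_)
  · have hr1 := abs_lt_one_of_mem hr
    have i1 : CircleIntegrable
        (fun z => (4 * p * D) ^ p • ‖1 - circleMap 0 ρ' θ * z‖ ^ (-(1 / 2) : ℝ)) 0 r :=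
      (circInt (contOn_inv_sqrt hw') hr1).const_smul
    refine (Real.circleAverage_mono (circInt (contOn_pow hc hp0.le) hr1) i1 fun z hz => ?_).trans ?_
    · have hz' := sphere_sub_ball hr1 hz
      have hu : ‖exp (θ * I) * z‖ < 1 := by
        rw [norm_mul, norm_exp_ofReal_mul_I, one_mul]
        exact mem_ball_zero_iff.1 hz'
      have g1 := jump_point hu h0 h1 h2 (s := 1 / (2 * p)) (by positivity)
        (by rw [div_le_one (by positivity)]; linarith)
      simp only [circleMap_zero, mul_assoc]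
      refine (Real.rpow_le_rpow (norm_nonneg _) g1 hp0.le).trans (le_of_eq ?_)
      rw [← hD, show 2 * ‖1 - (ρ' : ℂ) * (exp (θ * I) * z)‖ ^ (-(1 / (2 * p))) / (1 / (2 * p)) * D =
        4 * (p * D) * ‖1 - (ρ' : ℂ) * (exp (θ * I) * z)‖ ^ (-(1 / (2 * p))) by field_simp; ring,
        Real.mul_rpow (by positivity) (by positivity), ← Real.rpow_mul (norm_nonneg _),
        show -(1 / (2 * p)) * p = -(1 / 2) by field_simp, smul_eq_mul]
    · rw [Real.circleAverage_fun_smul, smul_eq_mul]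
      exact mul_le_mul_of_nonneg_left (avg_inv_sqrt hw' hr) (by positivity)
  · rw [Real.mul_rpow (by positivity) (by norm_num), ← Real.rpow_mul (by positivity),
      mul_one_div_cancel hp0.ne', Real.rpow_one]
    have h3 : (2 : ℝ) ^ (1 / p) ≤ 2 := by
      simpa using Real.rpow_le_rpow_of_exponent_le (x := 2) (y := 1 / p) (z := 1) (by norm_num)
        (by rw [div_le_one hp0]; exact hp)
    have h4 : 0 ≤ 4 * p * D := by positivity
    nlinarith

theorem hardyNorm_sum_le {p : ℝ} (hp : 1 ≤ p) (s : Finset ℕ) {f : ℕ → ℂ → ℂ} {A : ℕ → ℝ}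
    (hf : ∀ n ∈ s, ContinuousOn (f n) (ball 0 1)) (hA : ∀ n ∈ s, 0 ≤ A n)
    (h : ∀ n ∈ s, hardyNorm p (f n) ≤ ENNReal.ofReal (A n)) :
    hardyNorm p (fun z => ∑ n ∈ s, f n z) ≤ ENNReal.ofReal (∑ n ∈ s, A n) := by
  induction s using Finset.induction_on with
  | empty =>
    simpa using hardyNorm_le_of_bound (by linarith : 0 < p) (f := fun _ => 0) continuousOn_const
      le_rfl (by simp)
  | insert n s hn ih =>
    simp only [sum_insert hn]
    exact hardyNorm_add_le' hp (hf n (mem_insert_self _ _))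
      (continuousOn_finsetSum _ fun m hm => hf m (mem_insert_of_mem hm))
      (hA n (mem_insert_self _ _)) (sum_nonneg fun m hm => hA m (mem_insert_of_mem hm))
      (h n (mem_insert_self _ _)) (ih (fun m hm => hf m (mem_insert_of_mem hm))
        (fun m hm => hA m (mem_insert_of_mem hm)) fun m hm => h m (mem_insert_of_mem hm))

end Pool.Agent.Lib.MP_459ac8_an.Y42
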