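import Pool.Agent.Lib.MP_459ac8_an.Y42A

/-!
One turn with prescribed radii and positive coefficients.
-/

namespace Pool.Agent.Lib.MP_459ac8_an.Y42

open scoped ENNReal Real Topology NNReal ComplexConjugate
open MeasureTheory Metric Complex Filter Finset

theorem re_kernel (w : ℂ) {z : ℂ} (hz : z ∈ ball (0 : ℂ) 1) :
    (1 - ‖w‖) * (1 / ‖1 - w * z‖ ^ 2) ≤ ((1 - w * z)⁻¹).re := by
  rw [inv_re, Complex.normSq_eq_norm_sq, mul_one_div]
  refine div_le_div_of_nonneg_right ?_ (by positivity)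
  have h1 := Complex.re_le_norm (w * z)
  rw [norm_mul] at h1
  have h2 := mul_le_of_le_one_right (norm_nonneg w) (mem_ball_zero_iff.1 hz).le
  rw [sub_re, one_re]
  linarith

theorem step {ρ θ c η : ℝ} (h0 : 0 < ρ) (h1 : ρ < 1) (hc : 0 ≤ c) (hη : η ≤ 1 / 2)
    (hcη : c ≤ η * (1 - ρ)) {z : ℂ} (hz : z ∈ ball (0 : ℂ) 1) :
    ‖I * (c * (1 - circleMap 0 ρ θ * z)⁻¹ - c) +
      (log (1 - circleMap 0 ρ (θ + c) * z) - log (1 - circleMap 0 ρ θ * z))‖ ≤
      3 * η * ((c : ℂ) * (1 - circleMap 0 ρ θ * z)⁻¹).re := by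
  set u := circleMap 0 ρ θ with hu
  have hun : ‖u‖ = ρ := norm_cm h0.le θ
  have hu1 : ‖u‖ < 1 := by rwa [hun]
  have hu0 : u ≠ 0 := norm_pos_iff.1 (by rwa [hun])
  have hv : circleMap 0 ρ (θ + c) = u * exp (I * c) := by
    simp only [hu, circleMap_zero]
    rw [mul_assoc, ← Complex.exp_add]
    push_cast
    ring_nf
  have hc1 : c ≤ 1 / 2 * (1 - ρ) := hcη.trans (mul_le_mul_of_nonneg_right hη (by linarith))
  have hd : ‖u * exp (I * c) - u‖ ≤ c := by
    rw [← mul_sub_one, norm_mul]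
    have := Real.norm_exp_I_mul_ofReal_sub_one_le (x := c)
    rw [Real.norm_of_nonneg hc] at this
    exact (mul_le_of_le_one_left (norm_nonneg _) hu1.le).trans this
  have g1 := step_err (v := u * exp (I * c)) hu1 hu0 hz (by rw [hun]; linarith)
  rw [show (u * exp (I * c) - u) / u = exp (I * c) - 1 by field_simp] at g1
  have hI : ‖I * (c : ℂ)‖ = c := by
    rw [norm_mul, norm_I, one_mul, Complex.norm_real, Real.norm_of_nonneg hc]
  have g2 := Complex.norm_exp_sub_one_sub_id_le (x := I * c) (by rw [hI]; linarith)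
  rw [hI] at g2
  have hne := one_sub_ne hu1 hz
  have hn : 0 < ‖1 - u * z‖ := norm_pos_iff.2 hne
  have huz := norm_mul_lt_one hu1 hz
  have g3 : ‖(1 - u * z)⁻¹ - 1‖ ≤ 2 * (1 / ‖1 - u * z‖ ^ 2) := by
    rw [show (1 - u * z)⁻¹ - 1 = u * z / (1 - u * z) by field_simp; ring, norm_div, mul_one_div,
      div_le_div_iff₀ hn (by positivity)]
    have h2 := norm_sub_le (1 : ℂ) (u * z)
    rw [norm_one] at h2
    have h3 : ‖u * z‖ * ‖1 - u * z‖ ≤ 2 := by nlinarith [norm_nonneg (u * z)]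
    nlinarith
  have g4 := re_kernel u hz
  rw [hun] at g4
  rw [hv, re_ofReal_mul]
  have e : I * (c * (1 - u * z)⁻¹ - c) + (log (1 - u * exp (I * c) * z) - log (1 - u * z)) =
      ((exp (I * c) - 1) * (1 - u * z)⁻¹ - (exp (I * c) - 1) +
        (log (1 - u * exp (I * c) * z) - log (1 - u * z))) -
        (exp (I * c) - 1 - I * c) * ((1 - u * z)⁻¹ - 1) := by ring
  rw [e]
  refine (norm_sub_le _ _).trans ?_
  rw [norm_mul]
  have g5 := mul_le_mul g2 g3 (norm_nonneg _) (by positivity)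
  have hT : 0 ≤ 1 / ‖1 - u * z‖ ^ 2 := by positivity
  have g6 := mul_le_mul_of_nonneg_right (pow_le_pow_left₀ (norm_nonneg _) hd 2) hT
  have hη0 : 0 ≤ η := by
    by_contra hn
    nlinarith
  have g7 := mul_le_mul_of_nonneg_left g4 (mul_nonneg hη0 hc)
  have g8 := mul_le_mul_of_nonneg_right hcη (mul_nonneg hc hT)
  nlinarith

/-- One turn: radii `ρ`, angles `θ`, relative step `η`. -/
structure Tn (ρ θ : ℕ → ℝ) (η : ℝ) (a b : ℕ) : Prop where
  mono : Monotone ρ
  pos : ∀ n, 0 < ρ n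
  lt : ∀ n, ρ n < 1
  hab : a ≤ b
  nn : 0 ≤ η
  small : η ≤ 1 / 6
  up : ∀ n ∈ Ico a b, 0 ≤ θ (n + 1) - θ n
  le : ∀ n ∈ Ico a b, θ (n + 1) - θ n ≤ η * (1 - ρ n)
  full : θ b = θ a + 2 * π

/-- The kernel sum with the angular steps as coefficients. -/
noncomputable def ks (ρ θ : ℕ → ℝ) (E : Finset ℕ) (z : ℂ) : ℂ :=
  ∑ n ∈ E, ((θ (n + 1) - θ n : ℝ) : ℂ) * (1 - circleMap 0 (ρ n) (θ n) * z)⁻¹

variable {ρ θ : ℕ → ℝ} {η : ℝ} {a b : ℕ}

theorem Tn.norm_lt (h : Tn ρ θ η a b) (n : ℕ) (t : ℝ) : ‖circleMap 0 (ρ n) t‖ < 1 := by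
  rw [norm_cm (h.pos n).le]
  exact h.lt n

theorem Tn.diff (h : Tn ρ θ η a b) (E : Finset ℕ) : DifferentiableOn ℂ (ks ρ θ E) (ball 0 1) :=
  DifferentiableOn.fun_sum fun n _ => (diffOn_kernel (h.norm_lt n _)).const_mul _

theorem Tn.total (h : Tn ρ θ η a b) : ∑ n ∈ Ico a b, (θ (n + 1) - θ n) = 2 * π := by
  rw [sum_Ico_sub θ h.hab, h.full, add_sub_cancel_left]

theorem Tn.approx (h : Tn ρ θ η a b) {p : ℝ} (hp : 1 ≤ p) :
    hardyNorm p (fun z => ks ρ θ (Ico a b) z - 2 * π) ≤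
      ENNReal.ofReal (32 * p * (1 - ρ a) ^ (1 / (2 * p)) + 12 * π * η) := by
  have hp0 : 0 < p := by linarith
  have hpi := Real.pi_pos
  have hη := h.nn
  let L : ℕ → ℝ → ℂ → ℂ := fun n t z => log (1 - circleMap 0 (ρ n) t * z)
  have hL : ∀ n t, ContinuousOn (L n t) (ball 0 1) := fun n t =>
    (diffOn_log (h.norm_lt n t)).continuousOn
  let d : ℕ → ℝ := fun n => (1 - ρ n) ^ (1 / (2 * p))
  have hd0 : ∀ n, 0 ≤ d n := fun n => Real.rpow_nonneg (by linarith [h.lt n]) _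
  have hd : ∀ m n, m ≤ n → 0 ≤ 8 * p * (d m - d n) := fun m n hmn =>
    mul_nonneg (by positivity) (sub_nonneg.2 (Real.rpow_le_rpow (by linarith [h.lt n])
      (by linarith [h.mono hmn]) (by positivity)))
  have hJ : ∀ m n t, m ≤ n → hardyNorm p (fun z => L n t z - L m t z) ≤
      ENNReal.ofReal (8 * p * (d m - d n)) := fun m n t hmn =>
    jump hp (h.pos m).le (h.mono hmn) (h.lt n) t
  let J : ℂ → ℂ := fun z => ∑ n ∈ Ico a b, (L (n + 1) (θ (n + 1)) z - L n (θ (n + 1)) z)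
  have cJ : ContinuousOn J (ball 0 1) := continuousOn_finsetSum _ fun n _ => (hL _ _).sub (hL _ _)
  have bJ : hardyNorm p J ≤ ENNReal.ofReal (8 * p * d a) := by
    refine (hardyNorm_sum_le hp (Ico a b) (fun n _ => (hL _ _).sub (hL _ _))
      (fun n _ => hd n (n + 1) (Nat.le_succ n))
      fun n _ => hJ n (n + 1) _ (Nat.le_succ n)).trans (ENNReal.ofReal_le_ofReal ?_)
    have := sum_Ico_sub (fun n => -d n) h.hab
    rw [← mul_sum]
    refine mul_le_mul_of_nonneg_left ?_ (by positivity)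
    rw [sum_congr rfl fun n _ => (show d n - d (n + 1) = -d (n + 1) - -d n by ring), this]
    linarith [hd0 b]
  let T : ℂ → ℂ := fun z => L b (θ a) z - L a (θ a) z
  have cT : ContinuousOn T (ball 0 1) := (hL _ _).sub (hL _ _)
  have bT : hardyNorm p T ≤ ENNReal.ofReal (8 * p * d a) :=
    (hJ a b _ h.hab).trans (ENNReal.ofReal_le_ofReal
      (mul_le_mul_of_nonneg_left (by linarith [hd0 b]) (by positivity)))
  have hpt : ∀ z ∈ ball (0 : ℂ) 1, ‖ks ρ θ (Ico a b) z - 2 * π‖ ≤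
      ‖T z‖ + ‖T z‖ + (‖J z‖ + ‖J z‖) + 12 * π * η := fun z hz => by
    have g1 : ‖∑ n ∈ Ico a b, (I * (((θ (n + 1) - θ n : ℝ) : ℂ) *
        (1 - circleMap 0 (ρ n) (θ n) * z)⁻¹ - ((θ (n + 1) - θ n : ℝ) : ℂ)) +
        (L n (θ (n + 1)) z - L n (θ n) z))‖ ≤ 3 * η * (ks ρ θ (Ico a b) z).re := by
      rw [ks, re_sum, mul_sum]
      refine (norm_sum_le _ _).trans (sum_le_sum fun n hn => ?_)
      have := step (θ := θ n) (h.pos n) (h.lt n) (h.up n hn) (by linarith [h.small]) (h.le n hn) hz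
      rwa [add_sub_cancel] at this
    have g2 : ∑ n ∈ Ico a b, (L n (θ (n + 1)) z - L n (θ n) z) = T z - J z := by
      have g3 := sum_Ico_sub (fun n => L n (θ n) z) h.hab
      have g4 : L b (θ b) z = L b (θ a) z := by
        simp only [L]
        rw [h.full, periodic_circleMap]
      simp only [T, J]
      rw [← g4, ← g3, ← sum_sub_distrib]
      exact sum_congr rfl fun n _ => by ring
    rw [sum_add_distrib, g2, ← mul_sum, sum_sub_distrib, ← ofReal_sum, h.total, ofReal_mul,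
      ofReal_ofNat] at g1
    have g3 := norm_sub_le (I * (ks ρ θ (Ico a b) z - 2 * π) + (T z - J z)) (T z - J z)
    rw [add_sub_cancel_right, norm_mul, norm_I, one_mul] at g3
    have g4 := norm_sub_le (T z) (J z)
    have g5 := Complex.re_le_norm (ks ρ θ (Ico a b) z - 2 * π)
    have g6 : (ks ρ θ (Ico a b) z - 2 * π).re = (ks ρ θ (Ico a b) z).re - 2 * π := by simp
    have g7 : ‖I * (ks ρ θ (Ico a b) z - 2 * π) + (T z - J z)‖ ≤
        3 * η * (ks ρ θ (Ico a b) z).re := g1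
    have g8 := mul_le_mul_of_nonneg_left (g6 ▸ g5) (show 0 ≤ 3 * η by positivity)
    have g9 := mul_le_mul_of_nonneg_right h.small (norm_nonneg (ks ρ θ (Ico a b) z - 2 * π))
    nlinarith
  have cn : ∀ {f : ℂ → ℂ}, ContinuousOn f (ball 0 1) →
      ContinuousOn (fun z => ((‖f z‖ : ℝ) : ℂ)) (ball 0 1) := fun hf =>
    Complex.continuous_ofReal.comp_continuousOn hf.norm
  have bn : ∀ f : ℂ → ℂ, hardyNorm p (fun z => ((‖f z‖ : ℝ) : ℂ)) ≤ hardyNorm p f := fun f =>
    hardyNorm_mono hp0 fun z _ => by simp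
  have hA : 0 ≤ 8 * p * d a := mul_nonneg (by positivity) (hd0 a)
  have b1 := hardyNorm_add_le' hp (cn cT) (cn cT) hA hA ((bn T).trans bT) ((bn T).trans bT)
  have b2 := hardyNorm_add_le' hp (cn cJ) (cn cJ) hA hA ((bn J).trans bJ) ((bn J).trans bJ)
  have b3 := hardyNorm_add_le' hp ((cn cT).add (cn cT)) ((cn cJ).add (cn cJ)) (by positivity)
    (by positivity) b1 b2
  have b4 := hardyNorm_add_le' hp (((cn cT).add (cn cT)).add ((cn cJ).add (cn cJ)))
    (g := fun _ => ((12 * π * η : ℝ) : ℂ)) continuousOn_const (by positivity) (by positivity) b3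
    (hardyNorm_le_of_bound hp0 continuousOn_const (C := 12 * π * η) (by positivity) fun z _ => by
      rw [Complex.norm_real, Real.norm_of_nonneg (by positivity)])
  refine (hardyNorm_mono hp0 fun z hz => (hpt z hz).trans ?_).trans
    (b4.trans (ENNReal.ofReal_le_ofReal (le_of_eq ?_)))
  · simp only [Pi.add_apply, ← ofReal_add, Complex.norm_real]
    exact le_abs_self _
  · simp only [d]
    ring

/-- The bound for all subsums of a turn. -/
theorem exists_sub_bound {p : ℝ} (hp : 1 ≤ p) : ∃ C : ℝ, 0 ≤ C ∧ ∀ (ρ θ : ℕ → ℝ) (η : ℝ) (a b : ℕ),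
    Tn ρ θ η a b → ∀ E ⊆ Ico a b, hardyNorm p (ks ρ θ E) ≤ ENNReal.ofReal C := by
  have hpi := Real.pi_pos
  obtain ⟨n, hn⟩ := exists_nat_ge p
  have hq : (1 : ℝ) ≤ 2 * n := by linarith
  refine ⟨_, ?_, fun ρ θ η a b h E hE => riesz (n := n) (by linarith) (by linarith) (h.diff E)
    (h.diff (Ico a b)).continuousOn (fun z hz => ?_) (A := 2 * π) ?_
    (M := 32 * (2 * n) + 2 * π + 2 * π) (by positivity) ?_⟩
  · positivity
  · have g : ∀ m ∈ Ico a b, 0 ≤ (((θ (m + 1) - θ m : ℝ) : ℂ) *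
        (1 - circleMap 0 (ρ m) (θ m) * z)⁻¹).re := fun m hm => by
      rw [re_ofReal_mul]
      refine mul_nonneg (h.up m hm) (le_trans ?_ (re_kernel _ hz))
      exact mul_nonneg (by linarith [h.norm_lt m (θ m)]) (by positivity)
    refine le_trans ?_ (Complex.re_le_norm _)
    simp only [ks, re_sum]
    rw [abs_of_nonneg (sum_nonneg fun m hm => g m (hE hm))]
    exact sum_le_sum_of_subset_of_nonneg hE fun m hm _ => g m hm
  · simp only [ks, mul_zero, sub_zero, inv_one, mul_one]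
    rw [← ofReal_sum, Complex.norm_real,
      Real.norm_of_nonneg (sum_nonneg fun m hm => h.up m (hE hm)), ← h.total]
    exact sum_le_sum_of_subset_of_nonneg hE fun m hm _ => h.up m hm
  · have g1 : 32 * (2 * (n : ℝ)) * (1 - ρ a) ^ (1 / (2 * (2 * (n : ℝ)))) + 12 * π * η ≤
        32 * (2 * n) + 2 * π := by
      have g2 := Real.rpow_le_one (x := 1 - ρ a) (z := 1 / (2 * (2 * (n : ℝ))))
        (by linarith [h.lt a]) (by linarith [h.pos a]) (by positivity)
      have g3 := mul_le_mul_of_nonneg_left h.small hpi.le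
      nlinarith
    have g2 := hardyNorm_add_le' hq ((h.diff (Ico a b)).continuousOn.sub continuousOn_const)
      (g := fun _ => 2 * (π : ℂ)) continuousOn_const (by positivity) (by positivity)
      ((h.approx hq).trans (ENNReal.ofReal_le_ofReal g1))
      (hardyNorm_le_of_bound (by linarith) continuousOn_const (C := 2 * π) (by positivity)
        fun z _ => by simp [abs_of_pos hpi])
    simpa only [Pi.sub_apply, sub_add_cancel] using g2

end Pool.Agent.Lib.MP_459ac8_an.Y42
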