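import Pool.Agent.Lib.MP_459ac8_an.Defs

/-!
Representing systems of Cauchy kernels.
-/

namespace Pool.Agent.Lib.MP_459ac8_an

open Filter Topology

/-- The Cauchy kernels at `Λ 0, Λ 1, ...`, in this order, form a representing system in `H^p`. -/
def Representing (p : ℝ) (Λ : ℕ → ℂ) : Prop :=
  ∀ f : ℂ → ℂ, DifferentiableOn ℂ f (Metric.ball 0 1) → hardyNorm p f < ⊤ →
    ∃ c : ℕ → ℂ, Tendsto
      (fun N : ℕ => hardyNorm p fun z =>
        f z - ∑ n ∈ Finset.range N, c n * (1 / (1 - (starRingEnd ℂ) (Λ n) * z)))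
      atTop (𝓝 0)

end Pool.Agent.Lib.MP_459ac8_an
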