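import Pool.Agent.Lib.MP_459ac8_an.Y42B
import Pool.Agent.Lib.MP_459ac8_an.Y42Def

/-!
Points with prescribed moduli whose kernels are a representing system in every order.
-/

namespace Pool.Agent.Lib.MP_459ac8_an.Y42

open scoped ENNReal Real Topology NNReal ComplexConjugate
open MeasureTheory Metric Complex Filter Finset

theorem exists_end {r : ℕ → ℝ} (hm : Monotone r) (h1 : ∀ n, r n < 1)
    (hl : Tendsto r atTop (𝓝 1)) (hs : ¬ Summable fun n => 1 - r n) (a : ℕ) (M : ℝ) :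
    ∃ b, a < b ∧ M ≤ ∑ n ∈ Ico a b, (1 - r n) ∧ r (b - 1) < r b := by
  have h0 : ∀ n, 0 ≤ 1 - r n := fun n => by linarith [h1 n]
  have h2 := (not_summable_iff_tendsto_nat_atTop_of_nonneg h0).1 hs
  obtain ⟨b₁, g1, g2⟩ := ((h2.eventually_ge_atTop (M + ∑ n ∈ range a, (1 - r n))).and
    (eventually_gt_atTop a)).exists
  have ex : ∃ b, r b₁ < r b := (hl.eventually (lt_mem_nhds (h1 b₁))).exists
  classical
  have g3 := Nat.find_spec ex
  have g4 : b₁ < Nat.find ex := by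
    by_contra hn
    exact absurd (hm (not_lt.1 hn)) (not_le.2 g3)
  have g5 := Nat.find_min ex (m := Nat.find ex - 1) (by omega)
  refine ⟨Nat.find ex, g2.trans g4, ?_, (not_lt.1 g5).trans_lt g3⟩
  have g6 := sum_range_add_sum_Ico (fun n => 1 - r n) g2.le
  have g7 : ∑ n ∈ Ico a b₁, (1 - r n) ≤ ∑ n ∈ Ico a (Nat.find ex), (1 - r n) :=
    sum_le_sum_of_subset_of_nonneg (Ico_subset_Ico_right g4.le) fun n _ _ => h0 n
  linarith

theorem exists_points {r : ℕ → ℝ} (hm : Monotone r) (h0 : 0 < r 0) (h1 : ∀ n, r n < 1)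
    (hl : Tendsto r atTop (𝓝 1)) (hs : ¬ Summable fun n => 1 - r n) :
    ∃ (b : ℕ → ℕ) (θ : ℕ → ℕ → ℝ) (η : ℕ → ℝ) (Λ : ℕ → ℂ), StrictMono b ∧
      Function.Injective Λ ∧ (∀ n, ‖Λ n‖ = r n) ∧ Tendsto η atTop (𝓝 0) ∧
      (∀ k, Tn r (θ k) (η k) (b k) (b (k + 1))) ∧
      ∀ k, ∀ n ∈ Ico (b k) (b (k + 1)), conj (Λ n) = circleMap 0 (r n) (θ k n) := by
  have hpi := Real.pi_pos
  have hp : ∀ n, 0 < r n := fun n => h0.trans_le (hm (Nat.zero_le n))
  have hg : ∀ n, 0 < 1 - r n := fun n => by linarith [h1 n]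
  choose nx n1 n2 n3 using exists_end hm h1 hl hs
  let b : ℕ → ℕ := fun k => Nat.rec 0 (fun i a => nx a (2 * π * ((i : ℝ) + 6))) k
  have hb : ∀ k, b (k + 1) = nx (b k) (2 * π * ((k : ℝ) + 6)) := fun k => rfl
  have hsm : StrictMono b := strictMono_nat_of_lt_succ fun k => by rw [hb]; exact n1 _ _
  let S : ℕ → ℝ := fun k => ∑ n ∈ Ico (b k) (b (k + 1)), (1 - r n)
  have hS : ∀ k : ℕ, 2 * π * ((k : ℝ) + 6) ≤ S k := fun k => n2 _ _
  have hS0 : ∀ k, 0 < S k := fun k => lt_of_lt_of_le (by positivity) (hS k)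
  let θ : ℕ → ℕ → ℝ := fun k n => 2 * π / S k * ∑ m ∈ Ico (b k) n, (1 - r m)
  have hη0 : ∀ k, 0 < 2 * π / S k := fun k => div_pos (by positivity) (hS0 k)
  have hη : ∀ k : ℕ, 2 * π / S k ≤ 1 / ((k : ℝ) + 6) := fun k => by
    rw [div_le_div_iff₀ (hS0 k) (by positivity), one_mul]
    exact hS k
  have hstep : ∀ k n, b k ≤ n → θ k (n + 1) - θ k n = 2 * π / S k * (1 - r n) := fun k n hn => by
    simp only [θ]
    rw [sum_Ico_succ_top hn]
    ring
  have hθ0 : ∀ k, θ k (b k) = 0 := fun k => by simp [θ]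
  have hθ1 : ∀ k, θ k (b (k + 1)) = 2 * π := fun k => div_mul_cancel₀ _ (hS0 k).ne'
  have hlt : ∀ k m n, b k ≤ m → m < n → θ k m < θ k n := fun k m n g1 g2 => by
    induction n, g2 using Nat.le_induction with
    | base => linarith [hstep k m g1, mul_pos (hη0 k) (hg m)]
    | succ n g2 ih => linarith [hstep k n (by omega), mul_pos (hη0 k) (hg n)]
  have ex : ∀ n, ∃ k, n < b (k + 1) := fun n =>
    ⟨n, lt_of_lt_of_le (Nat.lt_succ_self n) hsm.le_apply⟩
  classical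
  let ix : ℕ → ℕ := fun n => Nat.find (ex n)
  have i1 : ∀ n, n < b (ix n + 1) := fun n => Nat.find_spec (ex n)
  have i2 : ∀ n, b (ix n) ≤ n := fun n => by
    rcases h : ix n with - | k
    · exact Nat.zero_le n
    · exact not_lt.1 (Nat.find_min (ex n) (m := k) (by simp only [ix] at h; omega))
  have i3 : ∀ k n, n ∈ Ico (b k) (b (k + 1)) → ix n = k := fun k n hn => by
    obtain ⟨g1, g2⟩ := mem_Ico.1 hn
    have g3 : k < ix n + 1 := hsm.lt_iff_lt.1 (g1.trans_lt (i1 n))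
    have g4 : ix n < k + 1 := hsm.lt_iff_lt.1 ((i2 n).trans_lt g2)
    omega
  refine ⟨b, θ, fun k => 2 * π / S k, fun n => conj (circleMap 0 (r n) (θ (ix n) n)), hsm, ?_,
    fun n => by rw [Complex.norm_conj, norm_cm (hp n).le], ?_, fun k => ?_,
    fun k n hn => by rw [Complex.conj_conj, i3 k n hn]⟩
  · refine Function.Injective.of_lt_imp_ne fun m n hmn he => ?_
    have he' : circleMap 0 (r m) (θ (ix m) m) = circleMap 0 (r n) (θ (ix n) n) :=
      (starRingEnd ℂ).injective he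
    have hr : r m = r n := by
      rw [← norm_cm (hp m).le (θ (ix m) m), he', norm_cm (hp n).le]
    by_cases hc : n < b (ix m + 1)
    · rw [i3 (ix m) n (mem_Ico.2 ⟨(i2 m).trans hmn.le, hc⟩), ← hr] at he'
      have mem : ∀ j, b (ix m) ≤ j → j < b (ix m + 1) → θ (ix m) j ∈ Set.Ico 0 (2 * π) :=
        fun j g1 g2 => ⟨mul_nonneg (hη0 _).le (sum_nonneg fun i _ => (hg i).le),
          hθ1 (ix m) ▸ hlt _ _ _ g1 g2⟩
      exact (hlt _ _ _ (i2 m) hmn).ne (injOn_circleMap_of_abs_sub_le' (hp m).ne' (by simp)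
        (mem m (i2 m) (i1 m)) (mem n ((i2 m).trans hmn.le) hc) he')
    · have g1 : r (b (ix m + 1) - 1) < r (b (ix m + 1)) := n3 _ _
      have g2 := hm (show m ≤ b (ix m + 1) - 1 by have := i1 m; omega)
      have g3 := hm (not_lt.1 hc)
      linarith
  · refine squeeze_zero (fun k => (hη0 k).le) hη ?_
    exact tendsto_const_nhds.div_atTop (tendsto_atTop_add_const_right _ _ tendsto_natCast_atTop_atTop)
  · refine ⟨hm, hp, h1, (hsm (Nat.lt_succ_self k)).le, (hη0 k).le, (hη k).trans ?_,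
      fun n hn => ?_, fun n hn => (hstep k n (mem_Ico.1 hn).1).le, by rw [hθ0, hθ1, zero_add]⟩
    · exact one_div_le_one_div_of_le (by norm_num) (le_add_of_nonneg_left (Nat.cast_nonneg k))
    · rw [hstep k n (mem_Ico.1 hn).1]
      exact (mul_pos (hη0 k) (hg n)).le

/-- Blocks with bounded subsums serve for every ordering. -/
theorem good_perm {V : Type*} [AddCommGroup V] [Module ℂ V] {q : Seminorm ℂ V} {x : ℕ → V} {g : V}
    {b : ℕ → ℕ} (hb : StrictMono b) (c : ℕ → ℕ → ℂ) (C : ℝ)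
    (h1 : ∀ k, ∑ n ∈ Ico (b k) (b (k + 1)), ‖c k n‖ ≤ C)
    (h2 : ∀ k, ∀ E ⊆ Ico (b k) (b (k + 1)), q (∑ n ∈ E, c k n • x n) ≤ C)
    (h3 : Tendsto (fun k => q (g - ∑ n ∈ Ico (b k) (b (k + 1)), c k n • x n)) atTop (𝓝 0))
    (σ : Equiv.Perm ℕ) : ∃ a : ℕ → ℕ, StrictMono a ∧ Good q (fun n => x (σ n)) a g := by
  have ex : ∀ a : ℕ, ∃ k a', a ≤ k ∧ a < a' ∧
      ∀ n, σ n ∈ Ico (b k) (b (k + 1)) → n ∈ Ico a a' := fun a => by
    obtain ⟨k, hk⟩ := ((range a).image σ ∪ {a}).exists_le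
    obtain ⟨a', ha'⟩ := ((range (b (k + 1 + 1))).image σ.symm ∪ {a}).exists_le
    have g1 : a ≤ k := hk a (by simp)
    have g2 : a ≤ a' := ha' a (by simp)
    refine ⟨k + 1, a' + 1, by omega, by omega, fun n hn => mem_Ico.2 ⟨?_, ?_⟩⟩
    · by_contra hc
      have g3 := hk (σ n) (mem_union_left _ (mem_image_of_mem _ (mem_range.2 (not_le.1 hc))))
      have g4 : k + 1 ≤ b (k + 1) := hb.le_apply
      have g5 := (mem_Ico.1 hn).1
      omega
    · have g3 := ha' n (mem_union_left _ (mem_image.2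
        ⟨σ n, mem_range.2 (mem_Ico.1 hn).2, σ.symm_apply_apply n⟩))
      omega
  choose K nx e1 e2 e3 using ex
  let a : ℕ → ℕ := fun j => nx^[j] 0
  have ha : ∀ j, a (j + 1) = nx (a j) := fun j => Function.iterate_succ_apply' nx j 0
  have hsm : StrictMono a := strictMono_nat_of_lt_succ fun j => by rw [ha]; exact e2 _
  have key : ∀ {W : Type} [AddCommMonoid W] (B I : Finset ℕ) (f : ℕ → W),
      ∑ n ∈ I, (if σ n ∈ B then f (σ n) else 0) = ∑ n ∈ B.filter fun n => σ.symm n ∈ I, f n := by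
    intro W _ B I f
    rw [← sum_filter]
    exact sum_equiv σ (fun n => by simp [and_comm]) fun n _ => rfl
  have key' : ∀ (B I : Finset ℕ) (f : ℕ → ℂ), ∑ n ∈ I, (if σ n ∈ B then f (σ n) else 0) • x (σ n) =
      ∑ n ∈ B.filter fun n => σ.symm n ∈ I, f n • x n := by
    intro B I f
    simp only [ite_smul, zero_smul]
    rw [← sum_filter]
    exact sum_equiv σ (fun n => by simp [and_comm]) fun n _ => rfl
  have full : ∀ j, ((Ico (b (K (a j))) (b (K (a j) + 1))).filter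
      fun n => σ.symm n ∈ Ico (a j) (a (j + 1))) = Ico (b (K (a j))) (b (K (a j) + 1)) := fun j =>
    filter_true_of_mem fun n hn => by
      rw [ha]
      exact e3 _ _ (by rwa [σ.apply_symm_apply])
  refine ⟨a, hsm, C, fun j n => if σ n ∈ Ico (b (K (a j))) (b (K (a j) + 1))
    then c (K (a j)) (σ n) else 0, Eventually.of_forall fun j => ?_,
    Eventually.of_forall fun j m _ => ?_, ?_⟩
  · simp only [apply_ite norm, norm_zero]
    rw [key _ _ fun n => ‖c (K (a j)) n‖, full]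
    exact h1 _
  · rw [key']
    exact h2 _ _ (filter_subset _ _)
  · simp only [key', full]
    exact h3.comp (tendsto_atTop_mono (fun j => hsm.le_apply.trans (e1 _)) tendsto_id)

section

variable {Λ : ℕ → ℂ} (hΛ : ∀ n, ‖Λ n‖ < 1) {p : ℝ}

/-- The Cauchy kernel as an element of the Hardy space. -/
noncomputable def kr (p : ℝ) (hp : 1 ≤ p) (n : ℕ) : Hp p hp :=
  ⟨(ball (0 : ℂ) 1).indicator fun z => (1 - conj (Λ n) * z)⁻¹,
    indicator_mem hp (diffOn_kernel (by rw [Complex.norm_conj]; exact hΛ n))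
      (C := (1 - ‖Λ n‖)⁻¹) fun z hz => by
        rw [norm_inv]
        refine inv_anti₀ (by linarith [hΛ n]) ?_
        have := one_sub_norm_le (w := conj (Λ n)) hz
        rwa [Complex.norm_conj] at this⟩

theorem kr_apply (hp : 1 ≤ p) (n : ℕ) {z : ℂ} (hz : z ∈ ball (0 : ℂ) 1) :
    (kr hΛ p hp n : ℂ → ℂ) z = (1 - conj (Λ n) * z)⁻¹ := by
  simp only [kr, Set.indicator_of_mem hz]

theorem sum_kr (hp : 1 ≤ p) (E : Finset ℕ) (c : ℕ → ℂ) {z : ℂ} (hz : z ∈ ball (0 : ℂ) 1) :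
    ((∑ n ∈ E, c n • kr hΛ p hp n : Hp p hp) : ℂ → ℂ) z =
      ∑ n ∈ E, c n * (1 - conj (Λ n) * z)⁻¹ := by
  rw [Submodule.coe_sum, Finset.sum_apply]
  refine sum_congr rfl fun n _ => ?_
  rw [Submodule.coe_smul, Pi.smul_apply, kr_apply hΛ hp n hz, smul_eq_mul]

theorem shift_kr (hp : 1 ≤ p) (n : ℕ) (h0 : Λ n ≠ 0) :
    shift p hp (kr hΛ p hp n) = (conj (Λ n))⁻¹ • (kr hΛ p hp n - one p hp) := by
  ext z
  simp only [shift_apply, Submodule.coe_smul, Submodule.coe_sub, Pi.smul_apply,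
    Pi.sub_apply, smul_eq_mul]
  by_cases hz : z ∈ ball (0 : ℂ) 1
  · have h0 : conj (Λ n) ≠ 0 := (map_ne_zero _).2 h0
    have h1 := one_sub_ne (w := conj (Λ n)) (by rw [Complex.norm_conj]; exact hΛ n) hz
    rw [kr_apply hΛ hp n hz, one_apply hp hz]
    generalize conj (Λ n) = w at h0 h1
    rw [eq_inv_mul_iff_mul_eq₀ h0, eq_sub_iff_add_eq]
    refine mul_left_cancel₀ h1 ?_
    rw [mul_inv_cancel₀ h1, mul_add, mul_one, ← mul_assoc w, mul_left_comm, mul_inv_cancel₀ h1]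
    ring
  · simp only [kr, one, Set.indicator_of_notMem hz]
    simp

theorem rep_of_good (hp : 1 < p) {t : ℝ} (ht : 0 < t) (h0 : ∀ n, t ≤ ‖Λ n‖) {a : ℕ → ℕ}
    (ha : StrictMono a) (h : Good (hq p hp.le) (kr hΛ p hp.le) a (one p hp.le)) :
    Representing p Λ := by
  have ht1 : t ≤ 1 := (h0 0).trans (hΛ 0).le
  have htn : ‖(t : ℂ)‖ = t := by rw [Complex.norm_real, Real.norm_of_nonneg ht.le]
  have ht0 : (t : ℂ) ≠ 0 := ofReal_ne_zero.2 ht.ne'
  have hsh : ∀ g, Good (hq p hp.le) (kr hΛ p hp.le) a g →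
      Good (hq p hp.le) (kr hΛ p hp.le) a (shift p hp.le g) := fun g hg => by
    have := (Good.shift ((t : ℂ) • shift p hp.le) (fun v => by
        rw [LinearMap.smul_apply, map_smul_eq_mul, htn]
        exact (mul_le_of_le_one_left (apply_nonneg _ _) ht1).trans (hq_shift_le hp.le v))
      (fun n => t * (conj (Λ n))⁻¹) (fun n => by
        rw [norm_mul, norm_inv, Complex.norm_conj, htn, ← div_eq_mul_inv]
        exact ((div_le_one (ht.trans_le (h0 n))).2 (h0 n)).trans one_le_two)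
      (fun n => by
        rw [LinearMap.smul_apply, shift_kr hΛ hp.le n (norm_pos_iff.1 (ht.trans_le (h0 n))),
          mul_smul]) h hg).smul (t : ℂ)⁻¹
    rwa [LinearMap.smul_apply, inv_smul_smul₀ ht0] at this
  have hmon : ∀ k : ℕ, ∃ g : Hp p hp.le, Good (hq p hp.le) (kr hΛ p hp.le) a g ∧
      ∀ z ∈ ball (0 : ℂ) 1, (g : ℂ → ℂ) z = z ^ k := fun k => by
    induction k with
    | zero => exact ⟨one p hp.le, h, fun z hz => by rw [one_apply hp.le hz, pow_zero]⟩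
    | succ k ih =>
      obtain ⟨g, h1, h2⟩ := ih
      exact ⟨shift p hp.le g, hsh g h1, fun z hz => by rw [shift_apply, h2 z hz, pow_succ']⟩
  have hd : ∀ f : Hp p hp.le, ∀ ε > 0, ∃ g, Good (hq p hp.le) (kr hΛ p hp.le) a g ∧
      hq p hp.le (f - g) ≤ ε := fun f ε hε => by
    obtain ⟨n, b, h⟩ := exists_poly hp f.2.1 f.2.2 hε
    choose g hg1 hg2 using hmon
    refine ⟨∑ k ∈ range n, b k • g k, Good.sum _ _ fun k _ => (hg1 k).smul _, ?_⟩
    refine hq_le hp.le _ hε.le (le_trans (hardyNorm_mono (by linarith) fun z hz => le_of_eq ?_) h)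
    rw [Submodule.coe_sub, Pi.sub_apply, Submodule.coe_sum, Finset.sum_apply]
    congr 2
    refine sum_congr rfl fun k _ => ?_
    rw [Submodule.coe_smul, Pi.smul_apply, hg2 k z hz, smul_eq_mul]
  intro f hf hN
  obtain ⟨c, hc⟩ := exists_expansion ha.monotone ha.tendsto_atTop hd ⟨f, hf, hN⟩
  refine ⟨c, ?_⟩
  have h1 := ENNReal.tendsto_ofReal hc
  rw [ENNReal.ofReal_zero] at h1
  refine tendsto_of_tendsto_of_tendsto_of_le_of_le tendsto_const_nhds h1
    (fun _ => zero_le) fun N => ?_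
  simp only
  rw [hq_apply, ENNReal.ofReal_toReal (Subtype.property _ : _ ∈ Hp p hp.le).2.ne]
  refine hardyNorm_mono (by linarith) fun z hz => le_of_eq ?_
  rw [Submodule.coe_sub, Pi.sub_apply, sum_kr hΛ hp.le _ _ hz]
  simp only [one_div]

end

theorem exists_rep {r : ℕ → ℝ} (hm : Monotone r) (h0 : 0 < r 0) (h1 : ∀ n, r n < 1)
    (hl : Tendsto r atTop (𝓝 1)) (hs : ¬ Summable fun n => 1 - r n) :
    ∃ Λ : ℕ → ℂ, Function.Injective Λ ∧ (∀ n, ‖Λ n‖ = r n) ∧
      ∀ (σ : Equiv.Perm ℕ) (p : ℝ), 1 < p → Representing p fun n => Λ (σ n) := by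
  have hpi := Real.pi_pos
  obtain ⟨b, θ, η, Λ, hb, hinj, hn, hη, hT, hc⟩ := exists_points hm h0 h1 hl hs
  refine ⟨Λ, hinj, hn, fun σ p hp => ?_⟩
  have hp0 : 0 < p := by linarith
  have hΛ : ∀ n, ‖Λ n‖ < 1 := fun n => (hn n).trans_lt (h1 n)
  obtain ⟨C, hC0, hC⟩ := exists_sub_bound hp.le
  have hfun : ∀ k, ∀ E ⊆ Ico (b k) (b (k + 1)), ∀ z ∈ ball (0 : ℂ) 1,
      ((∑ n ∈ E, ((2 * π : ℂ)⁻¹ * ((θ k (n + 1) - θ k n : ℝ) : ℂ)) • kr hΛ p hp.le n :
        Hp p hp.le) : ℂ → ℂ) z = (2 * π : ℂ)⁻¹ * ks r (θ k) E z := fun k E hE z hz => by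
    rw [sum_kr hΛ hp.le _ _ hz, ks, mul_sum]
    exact sum_congr rfl fun n hn => by rw [hc k n (hE hn), mul_assoc]
  have h2 : ‖(2 * π : ℂ)⁻¹‖ ≤ 1 := by
    rw [norm_inv, norm_mul, Complex.norm_two, Complex.norm_real, Real.norm_of_nonneg hpi.le]
    exact inv_le_one_of_one_le₀ (by linarith [Real.pi_gt_three])
  obtain ⟨a, ha, hg⟩ := good_perm (q := hq p hp.le) (x := kr hΛ p hp.le) (g := one p hp.le) hb
    (fun k n => (2 * π : ℂ)⁻¹ * ((θ k (n + 1) - θ k n : ℝ) : ℂ)) (2 * π + C) (fun k => by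
      refine le_trans (sum_le_sum fun n hn => ?_) ((hT k).total.trans_le (by linarith))
      rw [norm_mul, Complex.norm_real, Real.norm_of_nonneg ((hT k).up n hn)]
      exact mul_le_of_le_one_left ((hT k).up n hn) h2)
    (fun k E hE => by
      refine (hq_le hp.le _ hC0 (le_trans (hardyNorm_mono hp0 fun z hz => ?_)
        (hC _ _ _ _ _ (hT k) E hE))).trans (by linarith)
      rw [hfun k E hE z hz, norm_mul]
      exact mul_le_of_le_one_left (norm_nonneg _) h2)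
    (by
      have t1 : Tendsto (fun k => 1 - r (b k)) atTop (𝓝 0) := by
        simpa using (hl.comp hb.tendsto_atTop).const_sub 1
      have t2 := ((t1.rpow_const_nhds_zero (show 0 < 1 / (2 * p) by positivity)).const_mul
        (32 * p)).add (hη.const_mul (12 * π))
      rw [mul_zero, mul_zero, add_zero] at t2
      refine squeeze_zero (fun k => apply_nonneg _ _) (fun k => ?_) t2
      have g1 := (hT k).nn
      have g2 : 0 ≤ 1 - r (b k) := by linarith [h1 (b k)]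
      refine hq_le hp.le _ (by positivity) (le_trans (hardyNorm_mono hp0 fun z hz => ?_)
        ((hT k).approx hp.le))
      have g3 : (2 * π : ℂ) ≠ 0 := mul_ne_zero two_ne_zero (ofReal_ne_zero.2 hpi.ne')
      rw [Submodule.coe_sub, Pi.sub_apply, hfun k _ Subset.rfl z hz, one_apply hp.le hz,
        ← inv_mul_cancel₀ g3, ← mul_sub, norm_mul, norm_sub_rev]
      exact mul_le_of_le_one_left (norm_nonneg _) h2) σ
  exact rep_of_good (fun n => hΛ (σ n)) hp h0 (fun n => (hm (Nat.zero_le _)).trans (hn _).ge) ha hg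

end Pool.Agent.Lib.MP_459ac8_an.Y42
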