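import Pool.Agent.Lib.MP_459ac8_an.Y42B
import Pool.Agent.Lib.MP_459ac8_an.Y42Def

/-!
The Blaschke condition excludes representing systems; thinning to density zero.
-/

namespace Pool.Agent.Lib.MP_459ac8_an.Y42

open scoped ENNReal Real Topology NNReal ComplexConjugate
open MeasureTheory Metric Complex Filter Finset

theorem blaschke_le {a z : ℂ} (ha : ‖a‖ < 1) (hz : z ∈ ball (0 : ℂ) 1) :
    ‖(z - a) / (1 - conj a * z)‖ ≤ 1 := by
  have ha' : ‖conj a‖ < 1 := by rwa [Complex.norm_conj]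
  rw [norm_div, div_le_one (norm_pos_iff.2 (one_sub_ne ha' hz))]
  refine abs_le_of_sq_le_sq' ?_ (norm_nonneg _) |>.2
  have h1 : ‖a‖ ^ 2 ≤ 1 := pow_le_one₀ (norm_nonneg _) ha.le
  have h2 : ‖z‖ ^ 2 ≤ 1 := pow_le_one₀ (norm_nonneg _) (mem_ball_zero_iff.1 hz).le
  simp only [← Complex.normSq_eq_norm_sq, Complex.normSq_apply, sub_re, sub_im, mul_re, mul_im,
    conj_re, conj_im, one_re, one_im] at h1 h2 ⊢
  nlinarith [mul_nonneg (sub_nonneg.2 h1) (sub_nonneg.2 h2)]

theorem prod_le_avg {Λ : ℕ → ℂ} (hΛ : ∀ n, ‖Λ n‖ < 1) (c : ℕ → ℂ) (N : ℕ) {ρ : ℝ}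
    (hρ : ρ ∈ Set.Ioo (0 : ℝ) 1) :
    ∏ n ∈ range N, ρ ^ 2 * ‖Λ n‖ ≤ Real.circleAverage
      (fun z => ‖1 - ∑ n ∈ range N, c n * (1 / (1 - conj (Λ n) * z))‖) 0 ρ := by
  have hρ1 := abs_lt_one_of_mem hρ
  let a : ℕ → ℂ := fun n => (ρ ^ 2 : ℝ) * Λ n
  have han : ∀ n, ‖a n‖ = ρ ^ 2 * ‖Λ n‖ := fun n => by
    simp only [a]
    rw [norm_mul, Complex.norm_real, Real.norm_of_nonneg (sq_nonneg ρ)]
  have ha : ∀ n, ‖a n‖ < 1 := fun n => by
    rw [han]
    exact (mul_le_of_le_one_left (norm_nonneg _) (pow_le_one₀ hρ.1.le hρ.2.le)).trans_lt (hΛ n)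
  have ha' : ∀ n, ‖conj (a n)‖ < 1 := fun n => by rw [Complex.norm_conj]; exact ha n
  have hΛ' : ∀ n, ‖conj (Λ n)‖ < 1 := fun n => by rw [Complex.norm_conj]; exact hΛ n
  let B : ℕ → ℂ → ℂ := fun n z => (z - a n) / (1 - conj (a n) * z)
  have dB : ∀ n, DifferentiableOn ℂ (B n) (ball 0 1) := fun n =>
    DifferentiableOn.div (by fun_prop) (by fun_prop) fun _ hz => one_sub_ne (ha' n) hz
  let H : ℂ → ℂ := fun z => ∏ n ∈ range N, B n z - z * ∑ n ∈ range N,
    conj (c n) * ((1 - conj (a n) * z)⁻¹ * ∏ m ∈ (range N).erase n, B m z)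
  have dH : DifferentiableOn ℂ H (ball 0 1) :=
    (DifferentiableOn.fun_finsetProd fun n _ => dB n).sub (differentiableOn_id.mul
      (DifferentiableOn.fun_sum fun n _ => ((diffOn_kernel (ha' n)).mul
        (DifferentiableOn.fun_finsetProd fun m _ => dB m)).const_mul _))
  have cg : ContinuousOn (fun z => 1 - ∑ n ∈ range N, c n * (1 / (1 - conj (Λ n) * z)))
      (ball 0 1) := continuousOn_const.sub (continuousOn_finsetSum _ fun n _ =>
        continuousOn_const.mul (ContinuousOn.div continuousOn_const (by fun_prop)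
          fun _ hz => one_sub_ne (hΛ' n) hz))
  have h0 : ‖H 0‖ = ∏ n ∈ range N, ρ ^ 2 * ‖Λ n‖ := by
    simp only [H, B, zero_mul, sub_zero, mul_zero, div_one, zero_sub, norm_prod, norm_neg, han]
  have hdc : DiffContOnCl ℂ H (ball 0 |ρ|) := by
    apply DifferentiableOn.diffContOnCl
    rw [closure_ball _ (abs_pos.2 hρ.1.ne').ne']
    exact dH.mono (closedBall_subset_ball hρ1)
  have h1 : ‖H 0‖ ≤ Real.circleAverage (fun z => ‖H z‖) 0 ρ := by
    rw [← hdc.circleAverage, Real.circleAverage_def, Real.circleAverage_def, norm_smul, smul_eq_mul,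
      Real.norm_of_nonneg (by positivity)]
    exact mul_le_mul_of_nonneg_left
      (intervalIntegral.norm_integral_le_integral_norm (by positivity)) (by positivity)
  rw [← h0]
  refine h1.trans (Real.circleAverage_mono (circInt dH.continuousOn.norm hρ1)
    (circInt cg.norm hρ1) fun z hz => ?_)
  have hz' := sphere_sub_ball hρ1 hz
  have hzn : ‖z‖ = ρ := by rw [← abs_of_pos hρ.1]; simpa using hz
  have hzz : z * conj z = (ρ ^ 2 : ℝ) := by rw [Complex.mul_conj, Complex.normSq_eq_norm_sq, hzn]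
  have e : H z = conj (1 - ∑ n ∈ range N, c n * (1 / (1 - conj (Λ n) * z))) *
      ∏ n ∈ range N, B n z := by
    simp only [H, map_sub, map_one, map_sum, map_mul, map_div₀, Complex.conj_conj, sub_mul, one_mul,
      sum_mul, mul_sum]
    congr 1
    refine sum_congr rfl fun n hn => ?_
    have g1 : 1 - Λ n * conj z ≠ 0 := fun h => one_sub_ne (hΛ' n) hz' (by
      simpa using congrArg conj h)
    have g2 : z - a n = z * (1 - Λ n * conj z) := by
      simp only [a]
      rw [← hzz]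
      ring
    rw [← mul_prod_erase _ _ hn]
    simp only [B]
    rw [g2]
    field_simp
  rw [e, norm_mul, Complex.norm_conj, norm_prod]
  exact mul_le_of_le_one_right (norm_nonneg _)
    (prod_le_one (fun _ _ => norm_nonneg _) fun n _ => blaschke_le (ha n) hz')

theorem not_summable {Λ : ℕ → ℂ} (hΛ : ∀ n, ‖Λ n‖ < 1) {t : ℝ} (ht : 0 < t)
    (h0 : ∀ n, t ≤ ‖Λ n‖) {p : ℝ} (hp : 1 < p) (h : Representing p Λ) :
    ¬ Summable fun n => 1 - ‖Λ n‖ := by
  intro hs
  have hp0 : 0 < p := by linarith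
  obtain ⟨c, hc⟩ := h (fun _ => 1) (differentiableOn_const _)
    ((hardyNorm_le_of_bound hp0 continuousOn_const zero_le_one (by simp)).trans_lt
      ENNReal.ofReal_lt_top)
  set κ : ℝ := Real.exp (-((∑' n, (1 - ‖Λ n‖)) / t)) with hκ
  have hκ0 : 0 < κ := Real.exp_pos _
  have hprod : ∀ N, κ ≤ ∏ n ∈ range N, ‖Λ n‖ := fun N => by
    have g1 : ∀ n, Real.exp (-((1 - ‖Λ n‖) / t)) ≤ ‖Λ n‖ := fun n => by
      have g2 := ht.trans_le (h0 n)
      rw [← Real.le_log_iff_exp_le g2]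
      refine le_trans ?_ (Real.one_sub_inv_le_log_of_pos g2)
      have g3 : (1 - ‖Λ n‖) / ‖Λ n‖ ≤ (1 - ‖Λ n‖) / t :=
        div_le_div_of_nonneg_left (by linarith [hΛ n]) ht (h0 n)
      rw [sub_div, div_self g2.ne', one_div] at g3
      linarith
    refine le_trans ?_ (prod_le_prod (fun n _ => (Real.exp_pos _).le) fun n _ => g1 n)
    rw [← Real.exp_sum, sum_neg_distrib, ← sum_div]
    refine Real.exp_le_exp.2 (neg_le_neg (div_le_div_of_nonneg_right ?_ ht.le))
    exact hs.sum_le_tsum _ fun n _ => by linarith [hΛ n]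
  obtain ⟨N, hN⟩ := (hc.eventually (gt_mem_nhds
    (show (0 : ℝ≥0∞) < ENNReal.ofReal (κ / 8) from ENNReal.ofReal_pos.2 (by positivity)))).exists
  have t1 : Tendsto (fun ρ : ℝ => (ρ ^ 2) ^ N) (𝓝[<] 1) (𝓝 1) := by
    have : Continuous fun ρ : ℝ => (ρ ^ 2) ^ N := by fun_prop
    simpa using (this.tendsto 1).mono_left nhdsWithin_le_nhds
  obtain ⟨ρ, g1, hρ⟩ := ((t1.eventually (lt_mem_nhds (show (1 / 2 : ℝ) < 1 by norm_num))).and
    (Ioo_mem_nhdsLT (show (0 : ℝ) < 1 by norm_num))).exists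
  have hρ1 := abs_lt_one_of_mem hρ
  have g2 := prod_le_avg hΛ c N hρ
  rw [prod_mul_distrib, prod_const, card_range] at g2
  set g : ℂ → ℂ := fun z => 1 - ∑ n ∈ range N, c n * (1 / (1 - conj (Λ n) * z)) with hg
  have cg : ContinuousOn g (ball 0 1) := continuousOn_const.sub (continuousOn_finsetSum _
    fun n _ => continuousOn_const.mul (ContinuousOn.div continuousOn_const (by fun_prop)
      fun _ hz => one_sub_ne (by rw [Complex.norm_conj]; exact hΛ n) hz))
  have g3 := (mean_le_of_hardyNorm hp0 cg (hN.trans ENNReal.ofReal_lt_top) hρ).trans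
    (Real.rpow_le_rpow ENNReal.toReal_nonneg
      (ENNReal.toReal_le_of_le_ofReal (by positivity) hN.le) hp0.le)
  set ε : ℝ := κ / 8 with hε
  have hε0 : 0 < ε := by positivity
  have i0 : CircleIntegrable (fun _ : ℂ => ε) 0 ρ := circleIntegrable_const _ _ _
  have i1 : CircleIntegrable (fun z => ε ^ (1 - p) • ‖g z‖ ^ p) 0 ρ :=
    (circInt (contOn_pow cg hp0.le) hρ1).const_smul
  have g4 : Real.circleAverage (fun z => ‖g z‖) 0 ρ ≤
      Real.circleAverage (fun z => ε + ε ^ (1 - p) • ‖g z‖ ^ p) 0 ρ := by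
    refine Real.circleAverage_mono (circInt cg.norm hρ1) (i0.add i1) fun z _ => ?_
    rw [smul_eq_mul]
    rcases le_total ‖g z‖ ε with h1 | h1
    · exact h1.trans (le_add_of_nonneg_right (by positivity))
    · have h2 := Real.rpow_le_rpow_of_nonpos hε0 h1 (show 1 - p ≤ 0 by linarith)
      have h3 : ‖g z‖ ^ (1 - p) * ‖g z‖ ^ p = ‖g z‖ := by
        rw [← Real.rpow_add (hε0.trans_le h1), sub_add_cancel, Real.rpow_one]
      have h4 := mul_le_mul_of_nonneg_right h2 (Real.rpow_nonneg (norm_nonneg (g z)) p)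
      linarith
  rw [Real.circleAverage_fun_add i0 i1, Real.circleAverage_const, Real.circleAverage_fun_smul,
    smul_eq_mul] at g4
  have g5 := mul_le_mul_of_nonneg_left g3 (Real.rpow_nonneg hε0.le (1 - p))
  rw [← Real.rpow_add hε0, sub_add_cancel, Real.rpow_one] at g5
  unfold mean at g5
  have g6 := mul_le_mul g1.le (hprod N) hκ0.le (by positivity)
  linarith

theorem exists_thin {d : ℕ → ℝ} (hd : Antitone d) (h0 : ∀ n, 0 < d n) (hs : ¬ Summable d) :
    ∃ e : ℕ → ℝ, Antitone e ∧ (∀ n, 0 < e n) ∧ (∀ n, e n ≤ d n) ∧ ¬ Summable e ∧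
      Tendsto (fun n : ℕ => ((n : ℝ) + 1) * e n) atTop (𝓝 0) := by
  let m : ℕ → ℝ := fun n => min (d n) (1 / ((n : ℝ) + 1))
  have m0 : ∀ n, 0 < m n := fun n => lt_min (h0 n) (by positivity)
  have ma : Antitone m := fun i j hij => min_le_min (hd hij)
    (one_div_le_one_div_of_le (by positivity) (by simpa using hij))
  have ms : ¬ Summable m := fun h => by
    obtain ⟨s, hs'⟩ := summable_iff_vanishing_norm.1 h (1 / 4) (by norm_num)
    obtain ⟨K, hK⟩ := s.exists_le
    refine hs (h.congr_atTop ?_)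
    filter_upwards [eventually_ge_atTop (2 * K + 2)] with n hn
    by_contra hne
    have g1 : m n = 1 / ((n : ℝ) + 1) := (min_choice _ _).resolve_left hne
    have g2 := hs' (Ioc K n) (disjoint_left.2 fun i hi hi' => by
      have := hK i hi'
      have := (mem_Ioc.1 hi).1
      omega)
    have g3 := card_nsmul_le_sum (Ioc K n) m (m n) fun i hi => ma (mem_Ioc.1 hi).2
    rw [Nat.card_Ioc, nsmul_eq_mul, Nat.cast_sub (by omega), g1, mul_one_div,
      div_le_iff₀ (by positivity)] at g3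
    have g4 := (le_abs_self _).trans_lt g2
    have g5 : (2 * K + 2 : ℝ) ≤ n := by exact_mod_cast hn
    have g6 : (0 : ℝ) ≤ K := Nat.cast_nonneg K
    nlinarith
  let T : ℕ → ℝ := fun n => 1 + ∑ i ∈ range n, m i
  have T1 : ∀ n, 1 ≤ T n := fun n => le_add_of_nonneg_right (sum_nonneg fun i _ => (m0 i).le)
  have T0 : ∀ n, 0 < T n := fun n => one_pos.trans_le (T1 n)
  have Tm : Monotone T := fun i j hij => add_le_add le_rfl
    (sum_le_sum_of_subset_of_nonneg (range_mono hij) fun i _ _ => (m0 i).le)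
  have Tt : Tendsto T atTop atTop := tendsto_atTop_add_const_left _ _
    ((not_summable_iff_tendsto_nat_atTop_of_nonneg fun n => (m0 n).le).1 ms)
  have e0 : ∀ n, 0 < m n / T n := fun n => div_pos (m0 n) (T0 n)
  refine ⟨fun n => m n / T n, fun i j hij => div_le_div₀ (m0 i).le (ma hij) (T0 i) (Tm hij), e0,
    fun n => (div_le_self (m0 n).le (T1 n)).trans (min_le_left _ _), ?_, ?_⟩
  · rw [not_summable_iff_tendsto_nat_atTop_of_nonneg fun n => (e0 n).le]
    refine tendsto_atTop_mono (fun N => ?_) (Real.tendsto_log_atTop.comp Tt)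
    induction N with
    | zero => simp [T]
    | succ N ih =>
      have g1 : T (N + 1) = T N * (1 + m N / T N) := by
        rw [mul_add, mul_one, mul_div_cancel₀ _ (T0 N).ne']
        simp only [T]
        rw [sum_range_succ, add_assoc]
      have g2 := Real.log_le_sub_one_of_pos (show 0 < 1 + m N / T N by linarith [e0 N])
      rw [Function.comp_apply] at ih ⊢
      rw [sum_range_succ, g1, Real.log_mul (T0 N).ne' (by linarith [e0 N])]
      linarith
  · refine squeeze_zero (fun n => mul_nonneg (by positivity) (e0 n).le) (fun n => ?_)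
      (tendsto_const_nhds (x := (1 : ℝ)).div_atTop Tt)
    rw [← mul_div_assoc]
    refine div_le_div_of_nonneg_right ?_ (T0 n).le
    have := min_le_right (d n) (1 / ((n : ℝ) + 1))
    rwa [le_div_iff₀' (by positivity)] at this

theorem density_zero {Λ : ℕ → ℂ}
    (h : Tendsto (fun n : ℕ => ((n : ℝ) + 1) * (1 - ‖Λ n‖)) atTop (𝓝 0)) :
    upperDensity (Set.range Λ) = 0 := by
  refine Filter.Tendsto.limsup_eq ?_
  rw [ENNReal.tendsto_nhds_zero]
  intro ε hε
  obtain ⟨η, hη0, hη⟩ : ∃ η : ℝ, 0 < η ∧ ENNReal.ofReal η ≤ ε := by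
    obtain ⟨η, -, h1, h2⟩ := ENNReal.lt_iff_exists_real_btwn.1 hε
    exact ⟨η, ENNReal.ofReal_pos.1 h1, h2.le⟩
  obtain ⟨K, hK⟩ := eventually_atTop.1 (h.eventually (ge_mem_nhds (half_pos hη0)))
  have hb : (0 : ℝ) < K + 1 := by positivity
  have ev : ∀ᶠ r : ℝ in 𝓝[<] 1, r ∈ Set.Ioo (1 - η / (2 * (K + 1))) 1 :=
    Ioo_mem_nhdsLT (sub_lt_self _ (by positivity))
  filter_upwards [ev] with r hr
  have hr0 : 0 < 1 - r := by linarith [hr.2]
  set N : ℕ := K + ⌊η / (2 * (1 - r))⌋₊ with hN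
  have hsub : Set.range Λ ∩ ball (0 : ℂ) r ⊆ Λ '' (range N : Set ℕ) := by
    rintro _ ⟨⟨n, rfl⟩, hn⟩
    refine ⟨n, ?_, rfl⟩
    rw [mem_ball_zero_iff] at hn
    rw [coe_range, Set.mem_Iio]
    by_contra hc
    push Not at hc
    have h1 := hK n (le_trans (Nat.le_add_right _ _) hc)
    have h2 : η / (2 * (1 - r)) < n + 1 := by
      have h3 : (⌊η / (2 * (1 - r))⌋₊ : ℝ) ≤ n := by
        exact_mod_cast le_trans (Nat.le_add_left _ _) hc
      linarith [Nat.lt_floor_add_one (η / (2 * (1 - r)))]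
    have h0 : (0 : ℝ) ≤ n := Nat.cast_nonneg n
    rw [div_lt_iff₀ (by positivity)] at h2
    nlinarith
  have hcard : (Set.range Λ ∩ ball (0 : ℂ) r).encard ≤ N := by
    refine (Set.encard_le_encard hsub).trans ((Set.encard_image_le _ _).trans ?_)
    rw [Set.encard_coe_eq_coe_finsetCard, card_range]
  have hcard' : ((Set.range Λ ∩ ball (0 : ℂ) r).encard : ℝ≥0∞) ≤ ENNReal.ofReal N := by
    rw [ENNReal.ofReal_natCast]
    exact_mod_cast ENat.toENNReal_le.2 hcard
  refine (mul_le_mul_right hcard' _).trans (le_trans ?_ hη)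
  rw [← ENNReal.ofReal_mul hr0.le]
  refine ENNReal.ofReal_le_ofReal ?_
  have h1 : (⌊η / (2 * (1 - r))⌋₊ : ℝ) ≤ η / (2 * (1 - r)) := Nat.floor_le (by positivity)
  have h2 : 1 - r < η / (2 * (K + 1)) := by linarith [hr.1]
  rw [lt_div_iff₀ (by positivity)] at h2
  rw [le_div_iff₀ (by positivity)] at h1
  rw [hN]
  push_cast
  nlinarith

end Pool.Agent.Lib.MP_459ac8_an.Y42
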